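import Mathlib

/-!
# The linear algebra behind the strict upper bound of the entropy
-/

set_option autoImplicit false

namespace Pool.Agent.H16E

/-- the characteristic polynomial, `y = z^(M+2)` -/
noncomputable def FF (z y : ℝ) : ℝ := (1 - z) * (1 - z - z ^ 4) -
  z ^ 2 * (z * (z ^ 4 * (z * y) + z ^ 3 - z * y) + z ^ 2 * ((1 - z) * (z * y) + z * (z * y))) -
  (1 - z - z ^ 4) * (z * (z ^ 4 * (z * y) + z ^ 3 - z * y + (1 - z) * (z * y)) + z ^ 2 * (z * y))

theorem FF_root {z y : ℝ} (h : z ^ 2 = 1 - z) : FF z y = z ^ 8 * y := by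
  unfold FF
  linear_combination ((-1 + z - z ^ 2 + z ^ 4 - z ^ 5 + z ^ 6) + y * (-z ^ 4 - z ^ 7 + z ^ 8)) * h

theorem shr {t x X : ℝ} (ht0 : 0 ≤ t) (ht1 : t ≤ 1) (hx : x ≤ X) (hX : 0 ≤ X) : t * x ≤ X :=
  (mul_le_mul_of_nonneg_left hx ht0).trans (mul_le_of_le_one_left hX ht1)

theorem alg {z P p0 p1 p2 g1 g2 g3 q E w c σ y m : ℝ} (hz : 0 < z) (hz1 : z < 1)
    (hv : 0 < 1 - z - z ^ 4) (hc : (1 - z) * c = 1) (hc3 : c ≤ 3) (hP0 : 0 ≤ P)
    (hσ : (1 - z) * σ = z ^ 2 - y) (hy0 : 0 ≤ y) (hy : y ≤ z ^ 2) (m0 : 0 ≤ m)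
    (hE0 : 0 ≤ E)
    (hP : P ≤ p0 + p1 + p2 + 2 * c)
    (hw : w ≤ z * (y * P + w + c))
    (h3 : g3 ≤ z * w)
    (h2 : g2 ≤ z * (y * P))
    (hp2 : p2 ≤ z * g3)
    (h1 : g1 ≤ z * (z * p2 + (σ * P + m * c) + c))
    (hp1 : p1 ≤ z * (g1 + g2 + c))
    (hE : E ≤ z * E + z * (q + g1 + c) + c)
    (hq : q ≤ z * (g2 + g3 + p0 + 2 * c))
    (hp0 : p0 ≤ z * (z * E)) :
    FF z y * P ≤ 2 * m + 21 ∧
    (1 - z) * ((1 - z - z ^ 4) * E) ≤ 3 * P + m + 11 ∧
    (1 - z) * ((1 - z - z ^ 4) * q) ≤ 5 * P + m + 16 ∧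
    (1 - z) * g1 ≤ P + m + 4 ∧ (1 - z) * g2 ≤ P ∧ (1 - z) * g3 ≤ P + 3 ∧ (1 - z) * w ≤ P + 3 := by
  have hu : 0 < 1 - z := by linarith
  have hc0 : 0 < c := by
    by_contra hcon
    push Not at hcon
    have := mul_nonpos_of_nonneg_of_nonpos hu.le hcon
    linarith
  set v := 1 - z - z ^ 4 with hvdef
  have hv1 : v ≤ 1 := by
    have : 0 ≤ z ^ 4 := by positivity
    linarith
  have hz2 : z ^ 2 ≤ 1 := pow_le_one₀ hz.le hz1.le
  have hz3 : z ^ 3 ≤ 1 := pow_le_one₀ hz.le hz1.le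
  have hz4 : z ^ 4 ≤ 1 := pow_le_one₀ hz.le hz1.le
  have hz5 : z ^ 5 ≤ 1 := pow_le_one₀ hz.le hz1.le
  have hyP : 0 ≤ y * P := mul_nonneg hy0 hP0
  have hyP1 : y * P ≤ P := mul_le_of_le_one_left hP0 (hy.trans hz2)
  -- u w
  have a1 : (1 - z) * w ≤ z * (y * P) + z * c := by linarith
  have a1' : 0 ≤ z * (y * P) + z * c := by positivity
  have a2 : (1 - z) * g3 ≤ z * (z * (y * P) + z * c) := by
    have := mul_le_mul_of_nonneg_left h3 hu.le
    have := mul_le_mul_of_nonneg_left a1 hz.le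
    linarith
  have a3 : (1 - z) * p2 ≤ z ^ 2 * (z * (y * P) + z * c) := by
    have k1 := mul_le_mul_of_nonneg_left hp2 hu.le
    have k2 := mul_le_mul_of_nonneg_left a2 hz.le
    linarith
  have a4 : (1 - z) * g2 ≤ (1 - z) * (z * (y * P)) := mul_le_mul_of_nonneg_left h2 hu.le
  have a5 : (1 - z) * g1 ≤ z ^ 4 * (z * (y * P) + z * c) + z * ((z ^ 2 - y) * P) + z * (m + 1) := by
    have k1 := mul_le_mul_of_nonneg_left h1 hu.le
    have k2 := mul_le_mul_of_nonneg_left a3 (show 0 ≤ z * z by positivity)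
    have e : (1 - z) * (z * (z * p2 + (σ * P + m * c) + c)) = z * z * ((1 - z) * p2) +
        z * (((1 - z) * σ) * P) + z * (m * ((1 - z) * c) + (1 - z) * c) := by ring
    rw [e, hσ, hc] at k1
    linarith
  set B1 := z ^ 4 * (z * (y * P) + z * c) + z * ((z ^ 2 - y) * P) + z * (m + 1) with hB1
  set B2 := (1 - z) * (z * (y * P)) with hB2
  set B3 := z * (z * (y * P) + z * c) with hB3
  set Bp2 := z ^ 2 * (z * (y * P) + z * c) with hBp2
  have a6 : (1 - z) * p1 ≤ z * (B1 + B2 + 1) := by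
    have k1 := mul_le_mul_of_nonneg_left hp1 hu.le
    have e : (1 - z) * (z * (g1 + g2 + c)) = z * ((1 - z) * g1 + (1 - z) * g2 + (1 - z) * c) := by
      ring
    rw [e, hc] at k1
    have k2 := mul_le_mul_of_nonneg_left (show (1 - z) * g1 + (1 - z) * g2 + 1 ≤ B1 + B2 + 1 by
      linarith) hz.le
    linarith
  have a7 : v * E ≤ z * g1 + z ^ 2 * (g2 + g3 + 2 * c) + (z + 1) * c := by
    have k1 : q ≤ z * (g2 + g3 + z * (z * E) + 2 * c) := by
      refine hq.trans (mul_le_mul_of_nonneg_left (by linarith) hz.le)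
    have k2 := mul_le_mul_of_nonneg_left k1 hz.le
    rw [hvdef]
    linarith
  have a7' : (1 - z) * (v * E) ≤ z * B1 + z ^ 2 * (B2 + B3 + 2) + (z + 1) := by
    have k1 := mul_le_mul_of_nonneg_left a7 hu.le
    have e : (1 - z) * (z * g1 + z ^ 2 * (g2 + g3 + 2 * c) + (z + 1) * c) =
        z * ((1 - z) * g1) + z ^ 2 * ((1 - z) * g2 + (1 - z) * g3 + 2 * ((1 - z) * c)) +
          (z + 1) * ((1 - z) * c) := by ring
    rw [e, hc] at k1
    have k2 := mul_le_mul_of_nonneg_left a5 hz.le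
    have k3 := mul_le_mul_of_nonneg_left (show (1 - z) * g2 + (1 - z) * g3 + 2 * 1 ≤ B2 + B3 + 2 by
      linarith) (show 0 ≤ z ^ 2 by positivity)
    linarith
  have a8 : (1 - z) * (v * p0) ≤ z ^ 2 * (z * B1 + z ^ 2 * (B2 + B3 + 2) + (z + 1)) := by
    have k1 := mul_le_mul_of_nonneg_left hp0 (show 0 ≤ (1 - z) * v by positivity)
    have k2 := mul_le_mul_of_nonneg_left a7' (show 0 ≤ z ^ 2 by positivity)
    have e : (1 - z) * v * (z * (z * E)) = z ^ 2 * ((1 - z) * (v * E)) := by ring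
    rw [e] at k1
    linarith
  have a9 : (1 - z) * v * P ≤ z ^ 2 * (z * B1 + z ^ 2 * (B2 + B3 + 2) + (z + 1)) +
      v * (z * (B1 + B2 + 1) + Bp2) + 2 * v := by
    have k1 := mul_le_mul_of_nonneg_left hP (show 0 ≤ (1 - z) * v by positivity)
    have k2 := mul_le_mul_of_nonneg_left a6 hv.le
    have k3 := mul_le_mul_of_nonneg_left a3 hv.le
    have e : (1 - z) * v * (p0 + p1 + p2 + 2 * c) = (1 - z) * (v * p0) + v * ((1 - z) * p1) +
        v * ((1 - z) * p2) + 2 * v * ((1 - z) * c) := by ring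
    rw [e, hc] at k1
    linarith
  -- crude bounds
  have hz20 : 0 ≤ z ^ 2 := by positivity
  have hz30 : 0 ≤ z ^ 3 := by positivity
  have hz40 : 0 ≤ z ^ 4 := by positivity
  have hu1 : 1 - z ≤ 1 := by linarith
  have zc : z * c ≤ 3 := shr hz.le hz1.le hc3 (by norm_num)
  have zc0 : 0 ≤ z * c := by positivity
  have zyP : z * (y * P) ≤ P := shr hz.le hz1.le hyP1 hP0
  have zyP0 : 0 ≤ z * (y * P) := by positivity
  have m1 : z ^ 4 * (z * c) ≤ 3 := shr hz40 hz4 zc (by norm_num)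
  have m2 : z * (m + 1) ≤ m + 1 := shr hz.le hz1.le le_rfl (by linarith)
  have b1 : B1 ≤ P + m + 4 := by
    have e : B1 = z ^ 3 * P - (1 - z ^ 4) * (z * (y * P)) + z ^ 4 * (z * c) + z * (m + 1) := by
      rw [hB1]; ring
    have k1 : z ^ 3 * P ≤ P := shr hz30 hz3 le_rfl hP0
    have k2 : 0 ≤ (1 - z ^ 4) * (z * (y * P)) := mul_nonneg (by linarith) zyP0
    rw [e]
    linarith
  have b2 : B2 ≤ P := shr hu.le hu1 zyP hP0
  have b3' : z * (y * P) + z * c ≤ P + 3 := by linarith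
  have b3 : B3 ≤ P + 3 := shr hz.le hz1.le b3' (by linarith)
  have c7 : (1 - z) * (v * E) ≤ 3 * P + m + 11 := by
    have B1n : z * B1 ≤ P + m + 4 := shr hz.le hz1.le b1 (by linarith)
    have k2 : z ^ 2 * (B2 + B3 + 2) ≤ 2 * P + 5 := shr hz20 hz2 (by linarith) (by linarith)
    linarith
  refine ⟨?_, c7, ?_, by linarith, by linarith, by linarith, by linarith⟩
  · -- the main one
    have hconst : z ^ 2 * (z * (z ^ 4 * (z * c) + z * (m + 1)) + z ^ 2 * (z * (z * c) + 2) +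
        (z + 1)) + v * (z * (z ^ 4 * (z * c) + z * (m + 1) + 1) + z ^ 2 * (z * c)) + 2 * v ≤
        2 * m + 21 := by
      have m3 : z * (z ^ 4 * (z * c) + z * (m + 1)) ≤ m + 4 :=
        shr hz.le hz1.le (by linarith) (by linarith)
      have m4 : z * (z * c) ≤ 3 := shr hz.le hz1.le zc (by norm_num)
      have m5 : z ^ 2 * (z * (z * c) + 2) ≤ 5 := shr hz20 hz2 (by linarith) (by norm_num)
      have m6 : z ^ 2 * (z * (z ^ 4 * (z * c) + z * (m + 1)) + z ^ 2 * (z * (z * c) + 2) +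
        (z + 1)) ≤ m + 11 := shr hz20 hz2 (by linarith) (by linarith)
      have m7 : z * (z ^ 4 * (z * c) + z * (m + 1) + 1) ≤ m + 5 :=
        shr hz.le hz1.le (by linarith) (by linarith)
      have m8 : z ^ 2 * (z * c) ≤ 3 := shr hz20 hz2 zc (by norm_num)
      have m9 : v * (z * (z ^ 4 * (z * c) + z * (m + 1) + 1) + z ^ 2 * (z * c)) ≤ m + 8 :=
        shr hv.le hv1 (by linarith) (by linarith)
      linarith
    have e : FF z y * P = (1 - z) * v * P - (z ^ 2 * (z * B1 + z ^ 2 * (B2 + B3 + 2) + (z + 1)) +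
      v * (z * (B1 + B2 + 1) + Bp2) + 2 * v) + (z ^ 2 * (z * (z ^ 4 * (z * c) + z * (m + 1)) +
        z ^ 2 * (z * (z * c) + 2) + (z + 1)) + v * (z * (z ^ 4 * (z * c) + z * (m + 1) + 1) +
        z ^ 2 * (z * c)) + 2 * v) := by
      rw [hB1, hB2, hB3, hBp2, hvdef]
      unfold FF
      ring
    rw [e]
    linarith
  · have k0 : p0 ≤ E := by
      have : z * (z * E) ≤ E := shr hz.le hz1.le (shr hz.le hz1.le le_rfl hE0) hE0
      linarith
    have k1 : (1 - z) * (v * q) ≤ (1 - z) * (v * (z * (g2 + g3 + E + 2 * c))) := by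
      have : q ≤ z * (g2 + g3 + E + 2 * c) :=
        hq.trans (mul_le_mul_of_nonneg_left (by linarith) hz.le)
      exact mul_le_mul_of_nonneg_left (mul_le_mul_of_nonneg_left this hv.le) hu.le
    have e : (1 - z) * (v * (z * (g2 + g3 + E + 2 * c))) = z * (v * ((1 - z) * g2 + (1 - z) * g3 +
        2 * ((1 - z) * c)) + (1 - z) * (v * E)) := by ring
    rw [e, hc] at k1
    have k2 : v * ((1 - z) * g2 + (1 - z) * g3 + 2 * 1) ≤ v * (2 * P + 5) :=
      mul_le_mul_of_nonneg_left (by linarith) hv.le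
    have k3 : v * (2 * P + 5) ≤ 2 * P + 5 := shr hv.le hv1 le_rfl (by linarith)
    have k4 : z * (v * ((1 - z) * g2 + (1 - z) * g3 + 2 * 1) + (1 - z) * (v * E)) ≤
        z * (5 * P + m + 16) := mul_le_mul_of_nonneg_left (by linarith) hz.le
    have k5 : z * (5 * P + m + 16) ≤ 5 * P + m + 16 := shr hz.le hz1.le le_rfl (by linarith)
    linarith

end Pool.Agent.H16E
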