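import Pool.Agent.H16E.Flat

/-!
# Exponential flatness of the entropy near `ab = 0` and at infinity
-/

set_option autoImplicit false

namespace Pool.Agent.H16E

open Filter Topology Set Pool.Agent.R660.CF Pool.Agent.R294.CF

theorem orbits_K (M : ℕ) :
    f (1 / ((M : ℝ) + 3) - 1) (1 / ((M : ℝ) + 3)) 0 = 0 ∧
    (f (1 / ((M : ℝ) + 3) - 1) (1 / ((M : ℝ) + 3)))^[3 * (M + 2) + 1] (1 / ((M : ℝ) + 3) - 1) = 0 ∧
    (f (1 / ((M : ℝ) + 3) - 1) (1 / ((M : ℝ) + 3)))^[3 * (M + 2) + 1] (1 / ((M : ℝ) + 3)) = 0 := by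
  have hab := InP_K M
  have hM : (0 : ℝ) ≤ M := by positivity
  have hM3 : (0 : ℝ) < (M : ℝ) + 3 := by positivity
  set b : ℝ := 1 / ((M : ℝ) + 3) with hb
  set a : ℝ := b - 1 with ha
  have hb0 : 0 < b := by rw [hb]; positivity
  have hb13 : b ≤ 1 / 3 := by
    rw [hb]
    exact one_div_le_one_div_of_le (by norm_num) (by linarith)
  have f0 : f a b 0 = 0 := by
    rw [f_mid (by linarith) hb0]; norm_num
  have key : ∀ j : ℕ, j ≤ M + 2 → (f a b)^[3 * j] (-(j : ℝ) / (j + 1)) = 0 := by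
    intro j
    induction j with
    | zero => intro _; simp
    | succ j ih =>
      intro hj
      have h0 := ih (by omega)
      have hj0 : (0 : ℝ) ≤ j := by positivity
      have hj1 : (0 : ℝ) < (j : ℝ) + 1 := by positivity
      have hj2 : (0 : ℝ) < (j : ℝ) + 1 + 1 := by positivity
      have hjM : (j : ℝ) + 1 ≤ M + 2 := by exact_mod_cast hj
      have e1 : a ≤ -((j : ℝ) + 1) / (j + 1 + 1) := by
        rw [ha, hb, le_div_iff₀ hj2]
        have e : (1 / ((M : ℝ) + 3) - 1) = -((M + 2) / (M + 3)) := by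
          field_simp; ring
        rw [e, neg_mul, neg_le_neg_iff, div_mul_eq_mul_div, le_div_iff₀ hM3]
        nlinarith
      have e2 : -((j : ℝ) + 1) / (j + 1 + 1) < b := by
        have : -((j : ℝ) + 1) / (j + 1 + 1) < 0 := div_neg_of_neg_of_pos (by linarith) hj2
        linarith
      have e3 : -1 / (-((j : ℝ) + 1) / (j + 1 + 1)) = 1 + 1 / (j + 1) := by
        field_simp
      have e4 : b ≤ 1 / ((j : ℝ) + 1) := by
        rw [hb]
        exact one_div_le_one_div_of_le hj1 (by linarith)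
      rw [show 3 * (j + 1) = 3 * j + 1 + 1 + 1 by ring, Function.iterate_succ_apply,
        Function.iterate_succ_apply, Function.iterate_succ_apply]
      have s1 : f a b (-((j : ℝ) + 1) / (j + 1 + 1)) = 1 + 1 / (j + 1) := by
        rw [f_mid e1 e2, e3]
      have s2 : f a b (1 + 1 / ((j : ℝ) + 1)) = 1 / (j + 1) := by
        rw [f_ge hab (by linarith)]; ring
      have s3 : f a b (1 / ((j : ℝ) + 1)) = -(j : ℝ) / (j + 1) := by
        rw [f_ge hab e4]; field_simp; ring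
      push_cast
      rw [s1, s2, s3]
      exact h0
  have hA : (f a b)^[3 * (M + 2)] a = 0 := by
    have h1 := key (M + 2) le_rfl
    have e : -(((M + 2 : ℕ) : ℝ)) / (((M + 2 : ℕ) : ℝ) + 1) = a := by
      rw [ha, hb]
      push_cast
      field_simp
      ring
    rwa [e] at h1
  refine ⟨f0, ?_, ?_⟩
  · rw [Function.iterate_succ_apply', hA, f0]
  · rw [Function.iterate_succ_apply, f_ge hab le_rfl]
    exact hA

/-- The upper bound at `(1/K - 1, 1/K)`, `K = M + 3`. -/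
theorem flat_point (M : ℕ) {κ : ℝ} (hκ : κ ^ 3 = κ ^ 2 + 1) (hκ1 : 1 ≤ κ) :
    ent (1 / ((M : ℝ) + 3) - 1) (1 / ((M : ℝ) + 3)) ≤ Real.log κ + 14 / κ ^ (M + 5) := by
  have hab := InP_K M
  have hκ0 : 0 < κ := by linarith
  set H := ent (1 / ((M : ℝ) + 3) - 1) (1 / ((M : ℝ) + 3)) with hH
  set ζ := 1 / κ with hζ
  have hζ0 : 0 < ζ := by positivity
  have hζ3 : ζ ^ 3 = 1 - ζ := by
    rw [hζ]
    field_simp
    nlinarith
  have hζ7 : ζ < 7 / 10 := by
    by_contra hh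
    push Not at hh
    have : (7 / 10 : ℝ) ^ 3 ≤ ζ ^ 3 := pow_le_pow_left₀ (by norm_num) hh 3
    norm_num at this
    linarith
  have hζ6 : 6 / 10 < ζ := by
    by_contra hh
    push Not at hh
    have : ζ ^ 3 ≤ (6 / 10 : ℝ) ^ 3 := pow_le_pow_left₀ hζ0.le hh 3
    norm_num at this
    linarith
  have hζκ : ∀ n : ℕ, 1 / κ ^ n = ζ ^ n := fun n => by rw [hζ, one_div_pow]
  have e14 : 14 / κ ^ (M + 5) = 14 * ζ ^ (M + 5) := by
    rw [← hζκ]; ring
  rw [e14]
  have hpz : 0 < ζ ^ (M + 5) := by positivity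
  rcases le_or_gt (7 * ζ ^ (M + 5)) (1 / 2) with hx | hx
  swap
  · -- trivial case
    have h1 : H ≤ Real.log ((1 + √5) / 2) := entropy_le hab (ent_spec hab)
    have hs5 : √5 ^ 2 = 5 := Real.sq_sqrt (by norm_num)
    have hs50 : 0 ≤ √5 := Real.sqrt_nonneg _
    have h2 : Real.log ((1 + √5) / 2) ≤ (1 + √5) / 2 - 1 := Real.log_le_sub_one_of_pos (by positivity)
    have h3 : √5 ≤ 3 := by nlinarith
    have h4 : 0 ≤ Real.log κ := Real.log_nonneg hκ1
    linarith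
  -- the main estimate
  have main : ζ * (1 - 7 * ζ ^ (M + 5)) ≤ Real.exp (-H) := by
    by_contra hcon
    push Not at hcon
    set g : ℝ := Real.exp H with hg
    have hg0 : 0 < g := Real.exp_pos _
    set ξ := Real.exp (-H) with hξ
    have hξ0 : 0 < ξ := Real.exp_pos _
    have hξg : ξ * g = 1 := by
      rw [hξ, hg, ← Real.exp_add]; simp
    have hgap : ξ < ζ - 7 * ζ ^ (M + 6) := by
      have : ζ * (1 - 7 * ζ ^ (M + 5)) = ζ - 7 * ζ ^ (M + 6) := by
        rw [pow_succ ζ (M + 5)]; ring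
      linarith
    have hp6 : 0 < ζ ^ (M + 6) := by positivity
    have hξζ : ξ < ζ := by linarith
    -- bounds valid for `0 < z ≤ ζ`
    have wb : ∀ z : ℝ, 0 < z → z ≤ ζ → 1 / 7 ≤ 1 - z - z ^ 2 * z ^ (M + 3) := by
      intro z hz hzζ
      have h1 : z ^ 2 * z ^ (M + 3) ≤ ζ ^ 2 * ζ ^ 3 := by
        have k1 : z ^ 2 ≤ ζ ^ 2 := pow_le_pow_left₀ hz.le hzζ 2
        have k2 : z ^ (M + 3) ≤ ζ ^ (M + 3) := pow_le_pow_left₀ hz.le hzζ _
        have k3 : ζ ^ (M + 3) ≤ ζ ^ 3 := pow_le_pow_of_le_one hζ0.le (by linarith) (by omega)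
        exact mul_le_mul k1 (k2.trans k3) (by positivity) (by positivity)
      rw [hζ3] at h1
      have h2 : ζ ^ 2 * (1 - ζ) ≤ (7 / 10) ^ 2 * (1 - ζ) := by
        have : ζ ^ 2 ≤ (7 / 10) ^ 2 := pow_le_pow_left₀ hζ0.le hζ7.le 2
        exact mul_le_mul_of_nonneg_right this (by linarith)
      norm_num at h2
      linarith
    have hF : 0 < (1 - ξ - ξ ^ 2 * ξ ^ (M + 3)) * (1 - ξ - ξ ^ 3) - ξ ^ 3 * ξ ^ (M + 3) := by
      have h1 := wb ξ hξ0 hξζ.le
      have h2 : ξ ^ 3 ≤ ζ ^ 3 := pow_le_pow_left₀ hξ0.le hξζ.le 3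
      have h3 : 7 * ζ ^ (M + 6) < 1 - ξ - ξ ^ 3 := by linarith
      have h4 : ξ ^ 3 * ξ ^ (M + 3) ≤ ζ ^ (M + 6) := by
        have : ξ ^ 3 * ξ ^ (M + 3) = ξ ^ (M + 6) := by ring
        rw [this]
        exact pow_le_pow_left₀ hξ0.le hξζ.le _
      have h5 : 1 / 7 * (1 - ξ - ξ ^ 3) ≤ (1 - ξ - ξ ^ 2 * ξ ^ (M + 3)) * (1 - ξ - ξ ^ 3) :=
        mul_le_mul_of_nonneg_right h1 (by linarith)
      linarith
    have hcont : Continuous fun z : ℝ =>
        (1 - z - z ^ 2 * z ^ (M + 3)) * (1 - z - z ^ 3) - z ^ 3 * z ^ (M + 3) := by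
      fun_prop
    set δ := ((1 - ξ - ξ ^ 2 * ξ ^ (M + 3)) * (1 - ξ - ξ ^ 3) - ξ ^ 3 * ξ ^ (M + 3)) / 2 with hδ
    have hδ0 : 0 < δ := by positivity
    have hev : ∀ᶠ z in 𝓝 ξ,
        δ < (1 - z - z ^ 2 * z ^ (M + 3)) * (1 - z - z ^ 3) - z ^ 3 * z ^ (M + 3) :=
      hcont.continuousAt.eventually (lt_mem_nhds (by rw [hδ]; linarith))
    obtain ⟨ε, hε, hε'⟩ := Metric.eventually_nhds_iff.1 hev
    set z0 := max 0 (ξ - ε) with hz0
    have hz0ξ : z0 < ξ := max_lt hξ0 (by linarith)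
    set C2 := (160 / δ + 120) * 24 + 4 with hC2
    obtain ⟨o1, o2, o3⟩ := orbits_K M
    have hall : ∀ z ∈ Ioo z0 ξ, z ^ (3 * (M + 2) + 1) ≤ C2 * (1 - z * g) := by
      intro z hz
      obtain ⟨hz1, hz2⟩ := hz
      have hzp : 0 < z := (le_max_left _ _).trans_lt hz1
      have hzl : z < 1 := by linarith
      have hzε : ξ - ε < z := (le_max_right _ _).trans_lt hz1
      have hFz : δ < (1 - z - z ^ 2 * z ^ (M + 3)) * (1 - z - z ^ 3) - z ^ 3 * z ^ (M + 3) :=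
        hε' (by
          rw [Real.dist_eq, abs_lt]
          constructor <;> linarith)
      have hzg : z * Real.exp (ent (1 / ((M : ℝ) + 3) - 1) (1 / ((M : ℝ) + 3))) < 1 := by
        rw [← hH, ← hg, ← hξg]
        exact mul_lt_mul_of_pos_right hz2 hg0
      have hw := wb z hzp (by linarith)
      have hu : 3 / 10 ≤ 1 - z := by linarith
      have hc4 : (1 - z)⁻¹ ≤ 4 := by
        rw [inv_le_comm₀ (by linarith) (by norm_num)]
        linarith
      obtain ⟨k1, k2⟩ := flat_estimates M hzp hzl (by linarith) hzg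
      have hB0 : 0 ≤ G (1 / ((M : ℝ) + 3) - 1) (1 / ((M : ℝ) + 3)) z
        (Ioo (1 / ((M : ℝ) + 3) - 1) 0) := G_nonneg hzp _
      have hT0 : 0 ≤ G (1 / ((M : ℝ) + 3) - 1) (1 / ((M : ℝ) + 3)) z univ := G_nonneg hzp _
      have k6 := G_univ_ge hab hzp hzl hzg (3 * (M + 2) + 1) o1 o2 o3
      rw [← hH, ← hg] at k6 hzg
      generalize G (1 / ((M : ℝ) + 3) - 1) (1 / ((M : ℝ) + 3)) z
        (Ioo (1 / ((M : ℝ) + 3) - 1) 0) = B at *
      generalize G (1 / ((M : ℝ) + 3) - 1) (1 / ((M : ℝ) + 3)) z univ = T at *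
      have k3 : B ≤ 16 / δ := by
        rw [le_div_iff₀ hδ0]
        have := mul_le_mul_of_nonneg_right hFz.le hB0
        linarith
      have k4 : T ≤ (160 / δ + 120) * 24 := by
        have q1 : 1 / 7 * (3 / 10 * T) ≤
            (1 - z - z ^ 2 * z ^ (M + 3)) * ((1 - z) * T) :=
          mul_le_mul hw (mul_le_mul_of_nonneg_right hu hT0) (by positivity) (by linarith)
        have q2 : 10 * B ≤ 160 / δ := by
          have : 160 / δ = 10 * (16 / δ) := by ring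
          rw [this]
          linarith
        have q3 : 0 ≤ 160 / δ := by positivity
        linarith
      have hpos : 0 < 1 - z * g := by linarith
      have k7 : z ^ (3 * (M + 2) + 1) * (1 - z * g)⁻¹ ≤ C2 := by
        rw [hC2]
        linarith
      rw [← div_eq_mul_inv, div_le_iff₀ hpos] at k7
      exact k7
    have hclosed : IsClosed {z : ℝ | z ^ (3 * (M + 2) + 1) ≤ C2 * (1 - z * g)} :=
      isClosed_le (by fun_prop) (by fun_prop)
    have hmem : ξ ∈ {z : ℝ | z ^ (3 * (M + 2) + 1) ≤ C2 * (1 - z * g)} := by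
      have h1 : closure (Ioo z0 ξ) ⊆ _ := hclosed.closure_subset_iff.2 hall
      rw [closure_Ioo hz0ξ.ne] at h1
      exact h1 ⟨hz0ξ.le, le_rfl⟩
    have hfin : ξ ^ (3 * (M + 2) + 1) ≤ C2 * (1 - ξ * g) := hmem
    rw [hξg, sub_self, mul_zero] at hfin
    have : 0 < ξ ^ (3 * (M + 2) + 1) := by positivity
    linarith
  have hy : 0 < 1 - 7 * ζ ^ (M + 5) := by linarith
  have h3 := Real.log_le_log (by positivity) main
  rw [Real.log_exp, Real.log_mul hζ0.ne' hy.ne', hζ, one_div, Real.log_inv, ← one_div, ← hζ] at h3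
  have h4 := Real.one_sub_inv_le_log_of_pos hy
  have h5 : -(14 * ζ ^ (M + 5)) ≤ 1 - (1 - 7 * ζ ^ (M + 5))⁻¹ := by
    have h6 : (1 - 7 * ζ ^ (M + 5))⁻¹ ≤ 1 + 14 * ζ ^ (M + 5) := by
      rw [inv_le_iff_one_le_mul₀ hy]
      nlinarith
    linarith
  linarith

/-- The exponential flatness: near `b = 0`, near `a = 0` and at infinity. -/
theorem flat_all {a b κ : ℝ} (hκ : κ ^ 3 = κ ^ 2 + 1) (hκ1 : 1 ≤ κ) (hab : InP a b) (K : ℕ)
    (hK : 3 ≤ K) (h : b ≤ 1 / K ∨ -a ≤ 1 / K ∨ (K : ℝ) ≤ -a ∨ (K : ℝ) ≤ b) :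
    Real.log κ ≤ ent a b ∧ ent a b ≤ Real.log κ + 14 / κ ^ (K + 2) := by
  refine ⟨entropy_ge hab hκ hκ1 (ent_spec hab), ?_⟩
  obtain ⟨M, rfl⟩ : ∃ M, K = M + 3 := ⟨K - 3, by omega⟩
  have hM : (0 : ℝ) ≤ M := by positivity
  have hM3 : (0 : ℝ) < (M : ℝ) + 3 := by positivity
  have hb13 : 1 / ((M : ℝ) + 3) ≤ 1 / 3 :=
    one_div_le_one_div_of_le (by norm_num) (by linarith)
  have key : ∀ a b : ℝ, InP a b → b ≤ 1 / ((M : ℝ) + 3) →
      ent a b ≤ Real.log κ + 14 / κ ^ (M + 5) := by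
    intro a b hab hb
    have h3 := hab.2.2.1
    exact (left_mono (InP_K M) hab (by linarith) hb (by linarith) (by linarith)).trans
      (flat_point M hκ hκ1)
  push_cast at h
  rw [show M + 3 + 2 = M + 5 by ring]
  have inv : ∀ a b : ℝ, InP a b → (M : ℝ) + 3 ≤ -a → b ≤ 1 / ((M : ℝ) + 3) := by
    intro a b hab ha
    rw [le_div_iff₀ hM3]
    have h1 := hab.2.1
    have h2 := hab.2.2.2
    nlinarith
  rcases h with h | h | h | h
  · exact key a b hab h
  · rw [← ent_symm hab]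
    exact key _ _ (InP_symm hab) h
  · exact key a b hab (inv a b hab h)
  · rw [← ent_symm hab]
    exact key _ _ (InP_symm hab) (inv _ _ (InP_symm hab) (by linarith))

end Pool.Agent.H16E
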