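import Pool.Agent.H16E.Quant

/-!
# The explicit lower bound of the entropy at `(-N, 1/N)`
-/

set_option autoImplicit false

namespace Pool.Agent.H16E.LowPoint

open Filter Topology Set Pool.Agent.R660.CF Pool.Agent.R294.CF Pool.Agent.H16E

theorem log_half {x : ℝ} (h0 : 0 ≤ x) (h1 : x ≤ 1) : x / 2 ≤ Real.log (1 + x) := by
  have h2 := Real.one_sub_inv_le_log_of_pos (show 0 < 1 + x by linarith)
  have h3 : x / 2 ≤ 1 - (1 + x)⁻¹ := by
    have h4 : 1 - (1 + x)⁻¹ = x / (1 + x) := by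
      field_simp
      ring
    rw [h4]
    gcongr
    linarith
  linarith

/-- the golden ratio -/
theorem golden : ∃ g : ℝ, g = (1 + √5) / 2 ∧ g ^ 2 = g + 1 ∧ 8 / 5 < g ∧ g < 81 / 50 := by
  have hs5 : √5 ^ 2 = 5 := Real.sq_sqrt (by norm_num)
  have hs50 : 0 ≤ √5 := Real.sqrt_nonneg _
  refine ⟨_, rfl, by nlinarith, ?_, ?_⟩
  · have : 11 / 5 < √5 := by
      by_contra h
      push Not at h
      nlinarith
    linarith
  · have : √5 < 112 / 50 := by
      by_contra h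
      push Not at h
      nlinarith
    linarith

/-- the lower bound at `(-N, 1/N)` -/
theorem low_point (N : ℕ) (hN : 2 ≤ N) {κ : ℝ} (hκ : κ ^ 3 = κ ^ 2 + 1) (hκ1 : 1 ≤ κ) :
    Real.log κ + 1 / (10 * ((1 + √5) / 2) ^ (3 * N)) ≤ ent (-(N : ℝ)) (1 / N) := by
  obtain ⟨g, hg, hg2, hg3, hg4⟩ := golden
  rw [← hg]
  obtain ⟨M, rfl⟩ : ∃ M, N = M + 2 := ⟨N - 2, by omega⟩
  have e : ent (-((M + 2 : ℕ) : ℝ)) (1 / ((M + 2 : ℕ) : ℝ)) =
      ent (-((M : ℝ) + 2)) (1 / ((M : ℝ) + 2)) := by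
    push_cast
    rfl
  rw [e]
  have hgt := ent_gt_M M hκ hκ1
  have hle : ent (-((M : ℝ) + 2)) (1 / ((M : ℝ) + 2)) ≤ Real.log g := by
    rw [hg]
    exact entropy_le (InP_M M) (ent_spec (InP_M M))
  have himp := low_implicit M rfl
  set h := ent (-((M : ℝ) + 2)) (1 / ((M : ℝ) + 2)) with hh
  set l := Real.exp h with hl
  have hl0 : 0 < l := Real.exp_pos _
  have hκ0 : 0 < κ := by linarith
  have hg0 : 0 < g := by linarith
  have hκl : κ < l := by
    rw [hl, ← Real.exp_log hκ0]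
    exact Real.exp_lt_exp.2 hgt
  have hlg : l ≤ g := by
    rw [hl, ← Real.exp_log hg0]
    exact Real.exp_le_exp.2 hle
  have himp' := himp (by linarith)
  have hgp : (0 : ℝ) < g ^ (3 * M + 6) := by positivity
  have hlp : (0 : ℝ) < l ^ (3 * M + 6) := by positivity
  have h1 : 2 / g ^ (3 * M + 6) ≤ (l + 1) / l ^ (3 * M + 6) := by
    have : l ^ (3 * M + 6) ≤ g ^ (3 * M + 6) := pow_le_pow_left₀ hl0.le hlg _
    rw [div_le_div_iff₀ hgp hlp]
    have h3 : 2 * l ^ (3 * M + 6) ≤ 2 * g ^ (3 * M + 6) := by linarith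
    have h4 : 2 * g ^ (3 * M + 6) ≤ (l + 1) * g ^ (3 * M + 6) :=
      mul_le_mul_of_nonneg_right (by linarith) hgp.le
    linarith
  have h2 : l ^ 3 - l ^ 2 - 1 ≤ 5 * (l - κ) := by
    have e2 : l ^ 3 - l ^ 2 - 1 = (l - κ) * ((l ^ 2 - l) + (κ ^ 2 - κ) + l * κ) := by
      linear_combination hκ
    rw [e2, mul_comm]
    refine mul_le_mul_of_nonneg_right ?_ (by linarith)
    have k1 : l ^ 2 - l ≤ 1 := by nlinarith
    have k2 : κ ^ 2 - κ ≤ 1 := by nlinarith
    have k3 : l * κ ≤ g * g := mul_le_mul hlg (by linarith) hκ0.le hg0.le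
    nlinarith
  set x := 2 / 5 / g ^ (3 * M + 6) / κ with hx
  have hg1 : 1 ≤ g ^ (3 * M + 6) := one_le_pow₀ (by linarith)
  have hx0 : 0 ≤ x := by positivity
  have hx1 : x ≤ 1 := by
    rw [hx, div_div, div_le_one (by positivity)]
    nlinarith
  have h5 : κ * (1 + x) ≤ l := by
    have e3 : κ * (1 + x) = κ + 2 / g ^ (3 * M + 6) / 5 := by
      rw [hx]
      field_simp
    rw [e3]
    linarith
  have h6 : Real.log κ + Real.log (1 + x) ≤ h := by
    rw [← Real.log_mul hκ0.ne' (by linarith), ← Real.log_exp h]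
    exact Real.log_le_log (by positivity) h5
  have h7 := log_half hx0 hx1
  have h8 : 1 / (10 * g ^ (3 * (M + 2))) ≤ x / 2 := by
    rw [hx, show 3 * (M + 2) = 3 * M + 6 by ring]
    have e4 : 2 / 5 / g ^ (3 * M + 6) / κ / 2 = 1 / (5 * κ * g ^ (3 * M + 6)) := by
      field_simp
    rw [e4]
    apply one_div_le_one_div_of_le (by positivity)
    apply mul_le_mul_of_nonneg_right _ hgp.le
    linarith
  linarith


end Pool.Agent.H16E.LowPoint
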