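import Pool.Agent.H16E.Value
import Pool.Agent.H16E.LowPoint

/-!
# Explicit bounds for the entropy at `(-N, 1/N)`, of the exact order `κ^(-3N)`
-/

set_option autoImplicit false

namespace Pool.Agent.H16E

open Filter Topology Set Pool.Agent.R660.CF Pool.Agent.R294.CF

theorem kappa_gt {κ : ℝ} (hκ : κ ^ 3 = κ ^ 2 + 1) (hκ1 : 1 ≤ κ) : 29 / 20 < κ := by
  by_contra h
  push Not at h
  have h1 : κ ^ 2 * (κ - 1) = 1 := by linarith
  have h2 : κ ^ 2 ≤ (29 / 20) ^ 2 := pow_le_pow_left₀ (by linarith) h 2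
  have h3 : κ ^ 2 * (κ - 1) ≤ (29 / 20) ^ 2 * (9 / 20) :=
    mul_le_mul h2 (by linarith) (by linarith) (by norm_num)
  norm_num at h3
  linarith

theorem value_bounds {κ l : ℝ} (hκ : κ ^ 3 = κ ^ 2 + 1) (hκ1 : 1 ≤ κ) (N : ℕ) (hN : 1 ≤ N)
    (hκl : κ < l) (hl2 : l ≤ 81 / 50) (hl : l ^ (3 * N) * (l ^ 3 - l ^ 2 - 1) = l + 1) :
    Real.log κ + 1 / (10 * κ ^ (3 * N)) ≤ Real.log l ∧
    Real.log l ≤ Real.log κ + 2 / κ ^ (3 * N + 2) := by
  have hκg := kappa_gt hκ hκ1
  have hκ0 : 0 < κ := by linarith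
  have hl0 : 0 < l := by linarith
  have hκ2 : 2 ≤ κ ^ 2 := by nlinarith
  have hκ3 : 3 ≤ κ ^ 3 := by linarith
  set Q := (l ^ 2 - l) + (κ ^ 2 - κ) + l * κ with hQ
  have e2 : l ^ 3 - l ^ 2 - 1 = (l - κ) * Q := by
    rw [hQ]; linear_combination hκ
  rw [e2] at hl
  have hd : 0 < l - κ := by linarith
  have hQ1 : l * κ ≤ Q := by
    have k1 : 0 ≤ l ^ 2 - l := by nlinarith
    have k2 : 0 ≤ κ ^ 2 - κ := by nlinarith
    linarith
  have hQ5 : Q ≤ 5 := by
    have k1 : l ^ 2 ≤ (81 / 50) ^ 2 := pow_le_pow_left₀ hl0.le hl2 2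
    have k2 : κ ^ 2 ≤ (81 / 50) ^ 2 := pow_le_pow_left₀ hκ0.le (by linarith) 2
    have k3 : l * κ ≤ 81 / 50 * (81 / 50) := mul_le_mul hl2 (by linarith) hκ0.le (by norm_num)
    norm_num at k1 k2 k3
    linarith
  have hp : (0 : ℝ) < κ ^ (3 * N) := by positivity
  have hpl : κ ^ (3 * N) ≤ l ^ (3 * N) := pow_le_pow_left₀ hκ0.le hκl.le _
  -- `(l - κ) κ κ^(3N) ≤ 2`
  have u1 : (l - κ) * κ * κ ^ (3 * N) ≤ 2 := by
    have k1 : κ ^ (3 * N) * ((l - κ) * (l * κ)) ≤ l ^ (3 * N) * ((l - κ) * Q) :=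
      mul_le_mul hpl (mul_le_mul_of_nonneg_left hQ1 hd.le) (by positivity) (by positivity)
    rw [hl] at k1
    have k2 : l * ((l - κ) * κ * κ ^ (3 * N)) ≤ l * 2 := by
      have : κ ^ (3 * N) * ((l - κ) * (l * κ)) = l * ((l - κ) * κ * κ ^ (3 * N)) := by ring
      rw [← this]
      linarith
    exact le_of_mul_le_mul_left k2 hl0
  set t := (l - κ) / κ with ht
  have ht0 : 0 ≤ t := by positivity
  have hlt : l = κ * (1 + t) := by
    rw [ht]; field_simp; ring
  have u2 : t ≤ 2 / κ ^ (3 * N + 2) := by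
    rw [ht, div_le_div_iff₀ hκ0 (by positivity), pow_add]
    have : (l - κ) * (κ ^ (3 * N) * κ ^ 2) = κ * ((l - κ) * κ * κ ^ (3 * N)) := by ring
    rw [this]
    have := mul_le_mul_of_nonneg_left u1 hκ0.le
    linarith
  have hlog : Real.log l = Real.log κ + Real.log (1 + t) := by
    rw [hlt, Real.log_mul hκ0.ne' (by linarith)]
  constructor
  · -- lower bound
    have h3N : 6 * (N : ℝ) ≤ κ ^ (3 * N + 2) := by
      have k1 : (3 : ℝ) ^ N ≤ κ ^ (3 * N) := by
        rw [pow_mul]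
        exact pow_le_pow_left₀ (by norm_num) hκ3 N
      have k2 : 3 * (N : ℝ) ≤ 3 ^ N := by
        obtain ⟨m, rfl⟩ : ∃ m, N = m + 1 := ⟨N - 1, by omega⟩
        have k3 : m + 1 ≤ 3 ^ m := Nat.lt_pow_self (by norm_num)
        have k4 : ((m : ℝ) + 1) ≤ 3 ^ m := by exact_mod_cast k3
        push_cast
        rw [pow_succ]
        linarith
      rw [pow_add]
      nlinarith
    have h3t : (3 * N : ℕ) * t ≤ 1 := by
      have k1 : ((3 * N : ℕ) : ℝ) * t ≤ (3 * N : ℕ) * (2 / κ ^ (3 * N + 2)) :=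
        mul_le_mul_of_nonneg_left u2 (by positivity)
      have k2 : ((3 * N : ℕ) : ℝ) * (2 / κ ^ (3 * N + 2)) ≤ 1 := by
        push_cast
        rw [mul_div_assoc', div_le_one (by positivity)]
        linarith
      linarith
    have hpow : (1 + t) ^ (3 * N) ≤ 3 := by
      have k1 : 1 + t ≤ Real.exp t := by
        have := Real.add_one_le_exp t
        linarith
      have k2 : (1 + t) ^ (3 * N) ≤ Real.exp t ^ (3 * N) := pow_le_pow_left₀ (by linarith) k1 _
      rw [← Real.exp_nat_mul] at k2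
      have k3 : Real.exp ((3 * N : ℕ) * t) ≤ Real.exp 1 := Real.exp_le_exp.2 h3t
      have k4 := Real.exp_one_lt_d9
      linarith
    have hlN : l ^ (3 * N) ≤ 3 * κ ^ (3 * N) := by
      rw [hlt, mul_pow]
      nlinarith
    have u3 : l + 1 ≤ 15 * κ ^ (3 * N) * (l - κ) := by
      rw [← hl]
      have k1 : l ^ (3 * N) * ((l - κ) * Q) ≤ 3 * κ ^ (3 * N) * ((l - κ) * 5) :=
        mul_le_mul hlN (mul_le_mul_of_nonneg_left hQ5 hd.le)
          (mul_nonneg hd.le (by nlinarith)) (by positivity)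
      linarith
    have h4 := Real.one_sub_inv_le_log_of_pos (show 0 < 1 + t by linarith)
    have h5 : 1 - (1 + t)⁻¹ = (l - κ) / l := by
      have : (1 + t) = l / κ := by rw [hlt]; field_simp
      rw [this]
      field_simp
    have h6 : 1 / (10 * κ ^ (3 * N)) ≤ (l - κ) / l := by
      rw [div_le_div_iff₀ (by positivity) hl0]
      linarith
    linarith
  · have h4 := Real.log_le_sub_one_of_pos (show 0 < 1 + t by linarith)
    linarith

/-- `H(-N, b) = log l` for `b` in `[1/(N+1), 1/N]`, with `l` the solution of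
`l^(3N) (l^3 - l^2 - 1) = l + 1`. -/
theorem value_all {κ : ℝ} (hκ : κ ^ 3 = κ ^ 2 + 1) (hκ1 : 1 ≤ κ) (N : ℕ) (hN : 1 ≤ N) :
    ∃ l : ℝ, κ < l ∧ l ≤ 81 / 50 ∧ l ^ (3 * N) * (l ^ 3 - l ^ 2 - 1) = l + 1 ∧
      ∀ b ∈ Icc (1 / ((N : ℝ) + 1)) (1 / N), InP (-(N : ℝ)) b ∧ ent (-(N : ℝ)) b = Real.log l := by
  obtain ⟨g, hg, hg2, hg3, hg4⟩ := LowPoint.golden
  have hg0 : 0 < g := by linarith
  have hN0 : (0 : ℝ) < N := by exact_mod_cast hN
  have hInP : ∀ b ∈ Icc (1 / ((N : ℝ) + 1)) (1 / N), InP (-(N : ℝ)) b := by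
    intro b hb
    obtain ⟨hb1, hb2⟩ := hb
    rw [div_le_iff₀ (by linarith)] at hb1
    rw [le_div_iff₀ hN0] at hb2
    have hb0 : 0 < b := by
      by_contra h
      push Not at h
      nlinarith
    refine ⟨by linarith, hb0.le, ?_, by linarith⟩
    have h1 : (1 : ℝ) ≤ N := by exact_mod_cast hN
    linarith
  rcases hN.eq_or_lt with h1 | h1
  · -- `N = 1`
    subst h1
    have hκg : κ < g := by
      by_contra h
      push Not at h
      have k1 : κ ^ 2 * (κ - 1) = 1 := by linarith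
      have k2 : g ^ 2 ≤ κ ^ 2 := pow_le_pow_left₀ hg0.le h 2
      have k3 : g ^ 2 * (g - 1) ≤ κ ^ 2 * (κ - 1) :=
        mul_le_mul k2 (by linarith) (by linarith) (by positivity)
      have k4 : g ^ 2 * (g - 1) = g := by linear_combination g * hg2
      linarith
    refine ⟨g, hκg, hg4.le, ?_, fun b hb => ⟨hInP b hb, ?_⟩⟩
    · norm_num
      have g3 : g ^ 3 = 2 * g + 1 := by linear_combination (g + 1) * hg2
      rw [g3, hg2]
      linear_combination 2 * hg2
    · have hb' : (1 : ℝ) / 2 ≤ b ∧ b ≤ 1 := by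
        constructor
        · have := hb.1
          norm_num at this ⊢
          exact this
        · have := hb.2
          norm_num at this ⊢
          exact this
      rw [hg]
      have := ent_square (a := -1) (b := b) le_rfl (by norm_num) hb'.1 hb'.2
      simpa using this
  · obtain ⟨M, rfl⟩ : ∃ M, N = M + 2 := ⟨N - 2, by omega⟩
    obtain ⟨k1, k2⟩ := value_N M hκ hκ1 rfl
    have hle : Real.exp (ent (-((M : ℝ) + 2)) (1 / ((M : ℝ) + 2))) ≤ g := by
      rw [← Real.exp_log hg0]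
      apply Real.exp_le_exp.2
      rw [hg]
      exact entropy_le (InP_M M) (ent_spec (InP_M M))
    refine ⟨_, k1, hle.trans hg4.le, ?_, fun b hb => ⟨hInP b hb, ?_⟩⟩
    · rw [show 3 * (M + 2) = 3 * M + 6 by ring]
      exact k2
    · rw [Real.log_exp]
      have hP := hInP b hb
      have hQ := InP_M M
      push_cast at hP hb ⊢
      have hM2 : (0 : ℝ) < (M : ℝ) + 2 := by positivity
      have hM0 : (0 : ℝ) ≤ M := by positivity
      have e : -1 / (1 + ((M : ℝ) + 2)) = -(1 / ((M : ℝ) + 2 + 1)) := by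
        rw [show 1 + ((M : ℝ) + 2) = (M : ℝ) + 2 + 1 by ring, neg_div]
      have hi : 1 / ((M : ℝ) + 2) ≤ 1 := by
        rw [div_le_one hM2]; linarith
      have hii : 1 / ((M : ℝ) + 2 + 1) ≤ 1 / ((M : ℝ) + 2) :=
        one_div_le_one_div_of_le hM2 (by linarith)
      rw [← ent_symm hP, ← ent_symm hQ]
      refine plateau_all (InP_symm hP) (InP_symm hQ) (by linarith [hb.2]) ?_ (by linarith) ?_
      · rw [neg_neg, e]
        linarith [hb.1]
      · rw [neg_neg, e]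
        linarith

end Pool.Agent.H16E
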