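import Pool.Agent.H16E.Strict
import Pool.Agent.H16E.Value2
import Pool.Agent.H16E.Flat2

/-!
# A lower bound for the entropy at `(-1, 1/K)`, of the exact order `κ^(-K)`
-/

set_option autoImplicit false

namespace Pool.Agent.H16E

open Filter Topology Set Pool.Agent.R660.CF Pool.Agent.R294.CF

theorem edge_implicit (M : ℕ) {l : ℝ}
    (hl : l = Real.exp (ent (-1) (1 / ((M : ℝ) + 3)))) (hl1 : 1 < l) :
    1 / l ^ (M + 3) ≤ l ^ 3 - l ^ 2 - 1 := by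
  have hl0 : 0 < l := by linarith
  set ζ := 1 / l with hζ
  have hζ0 : 0 < ζ := by positivity
  have hζ1 : ζ < 1 := by
    rw [hζ, div_lt_one hl0]; exact hl1
  have hζl : ζ * l = 1 := by rw [hζ]; field_simp
  have hall : ∀ z ∈ Ioo (0 : ℝ) ζ,
      z ^ (M + 6) + (1 - z) * z ^ 4 * ∑ j ∈ Finset.range (M + 2), z ^ (3 * j) ≤ (1 - z) ^ 2 := by
    intro z hz
    refine key_lower M hz.1 (lt_trans hz.2 hζ1) ?_
    rw [← hl, ← hζl]
    exact mul_lt_mul_of_pos_right hz.2 hl0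
  have hclosed : IsClosed {z : ℝ | z ^ (M + 6) +
      (1 - z) * z ^ 4 * ∑ j ∈ Finset.range (M + 2), z ^ (3 * j) ≤ (1 - z) ^ 2} :=
    isClosed_le (by fun_prop) (by fun_prop)
  have hmem : ζ ∈ {z : ℝ | z ^ (M + 6) +
      (1 - z) * z ^ 4 * ∑ j ∈ Finset.range (M + 2), z ^ (3 * j) ≤ (1 - z) ^ 2} := by
    have h1 : closure (Ioo (0 : ℝ) ζ) ⊆ _ := hclosed.closure_subset_iff.2 hall
    rw [closure_Ioo hζ0.ne] at h1
    exact h1 ⟨hζ0.le, le_rfl⟩
  have hfin : ζ ^ (M + 6) +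
      (1 - ζ) * ζ ^ 4 * ∑ j ∈ Finset.range (M + 2), ζ ^ (3 * j) ≤ (1 - ζ) ^ 2 := hmem
  have hgeom : (1 - ζ ^ 3) * ∑ j ∈ Finset.range (M + 2), ζ ^ (3 * j) = 1 - ζ ^ (3 * M) * ζ ^ 6 := by
    have h1 : (∑ j ∈ Finset.range (M + 2), (ζ ^ 3) ^ j) * (ζ ^ 3 - 1) = (ζ ^ 3) ^ (M + 2) - 1 :=
      geom_sum_mul _ _
    have h2 : ∑ j ∈ Finset.range (M + 2), ζ ^ (3 * j) = ∑ j ∈ Finset.range (M + 2), (ζ ^ 3) ^ j :=
      Finset.sum_congr rfl fun j _ => by rw [pow_mul]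
    rw [h2]
    have h3 : (ζ ^ 3) ^ (M + 2) = ζ ^ (3 * M) * ζ ^ 6 := by
      rw [pow_add, ← pow_mul, ← pow_mul]
    rw [h3] at h1
    linarith
  have h3 : 0 < 1 - ζ ^ 3 := by
    have : ζ ^ 3 < 1 := pow_lt_one₀ hζ0.le hζ1 (by norm_num)
    linarith
  have hu : 0 < 1 - ζ := by linarith
  have hmul := mul_le_mul_of_nonneg_left hfin h3.le
  have e1 : (1 - ζ ^ 3) * (ζ ^ (M + 6) +
      (1 - ζ) * ζ ^ 4 * ∑ j ∈ Finset.range (M + 2), ζ ^ (3 * j)) =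
      (1 - ζ ^ 3) * ζ ^ (M + 6) + (1 - ζ) * ζ ^ 4 * (1 - ζ ^ (3 * M) * ζ ^ 6) := by
    rw [← hgeom]; ring
  rw [e1] at hmul
  have hdiv : (1 - ζ) * ((1 + ζ + ζ ^ 2) * ζ ^ (M + 6) - ζ ^ (3 * M) * ζ ^ 10) ≤
      (1 - ζ) * (1 - ζ - ζ ^ 3) := by
    linarith
  have hfinal := le_of_mul_le_mul_left hdiv hu
  have h10 : ζ ^ (3 * M) * ζ ^ 10 ≤ ζ * ζ ^ (M + 6) := by
    rw [← pow_add, ← pow_succ']
    exact pow_le_pow_of_le_one hζ0.le hζ1.le (by omega)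
  have hp : 0 ≤ ζ ^ 2 * ζ ^ (M + 6) := by positivity
  have hmain : ζ ^ (M + 6) ≤ 1 - ζ - ζ ^ 3 := by linarith
  have e2 : l ^ 3 * ζ ^ (M + 6) = 1 / l ^ (M + 3) := by
    rw [show M + 6 = (M + 3) + 3 by ring, pow_add, hζ, one_div_pow, one_div_pow]
    field_simp
  have e3 : l ^ 3 * (1 - ζ - ζ ^ 3) = l ^ 3 - l ^ 2 - 1 := by
    rw [hζ]
    field_simp
  have hm2 := mul_le_mul_of_nonneg_left hmain (show 0 ≤ l ^ 3 by positivity)
  rw [e2, e3] at hm2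
  exact hm2

theorem edge_low {κ : ℝ} (hκ : κ ^ 3 = κ ^ 2 + 1) (hκ1 : 1 ≤ κ) (K : ℕ) (hK : 3 ≤ K) :
    InP (-1) (1 / (K : ℝ)) ∧
      Real.log κ + 1 / (10 ^ 4 * κ ^ K) ≤ ent (-1) (1 / (K : ℝ)) := by
  obtain ⟨M, rfl⟩ : ∃ M, K = M + 3 := ⟨K - 3, by omega⟩
  push_cast
  have hP := InP_one_M M
  refine ⟨hP, ?_⟩
  obtain ⟨g, hg, hg2, hg3, hg4⟩ := LowPoint.golden
  have hκg := kappa_gt hκ hκ1
  have hκ0 : 0 < κ := by linarith
  have hM0 : (0 : ℝ) ≤ M := by positivity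
  have hM3 : (0 : ℝ) < (M : ℝ) + 3 := by positivity
  have hflat := (flat_all hκ hκ1 hP (M + 3) (by omega) (Or.inl (by push_cast; exact le_rfl)))
  set H := ent (-1) (1 / ((M : ℝ) + 3)) with hH
  have hlt : Real.log κ < H := by
    refine lt_of_le_of_ne hflat.1 fun h => ?_
    rcases (ent_eq_min_iff hκ hκ1 hP).1 h.symm with h' | h'
    · norm_num at h'
    · have : 0 < 1 / ((M : ℝ) + 3) := by positivity
      linarith
  set l := Real.exp H with hl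
  have hl0 : 0 < l := Real.exp_pos _
  have hκl : κ < l := by
    rw [hl, ← Real.exp_log hκ0]
    exact Real.exp_lt_exp.2 hlt
  have hlg : l ≤ 81 / 50 := by
    have hg0 : 0 < g := by linarith
    have : l ≤ g := by
      rw [hl, ← Real.exp_log hg0]
      apply Real.exp_le_exp.2
      rw [hg]
      exact entropy_le hP (ent_spec hP)
    linarith
  have himp := edge_implicit M hl (by linarith)
  set Q := (l ^ 2 - l) + (κ ^ 2 - κ) + l * κ with hQ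
  have e2 : l ^ 3 - l ^ 2 - 1 = (l - κ) * Q := by
    rw [hQ]; linear_combination hκ
  rw [e2] at himp
  have hd : 0 < l - κ := by linarith
  have hQ5 : Q ≤ 5 := by
    have k1 : l ^ 2 ≤ (81 / 50) ^ 2 := pow_le_pow_left₀ hl0.le hlg 2
    have k2 : κ ^ 2 ≤ (81 / 50) ^ 2 := pow_le_pow_left₀ hκ0.le (by linarith) 2
    have k3 : l * κ ≤ 81 / 50 * (81 / 50) := mul_le_mul hlg (by linarith) hκ0.le (by norm_num)
    norm_num at k1 k2 k3
    linarith
  have hgrow : ∀ m : ℕ, 2 * ((m : ℝ) + 3) ≤ κ ^ (m + 5) := by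
    intro m
    induction m with
    | zero =>
      have : (29 / 20 : ℝ) ^ 5 ≤ κ ^ 5 := pow_le_pow_left₀ (by norm_num) hκg.le 5
      norm_num at this ⊢
      linarith
    | succ m ih =>
      have hm : (0 : ℝ) ≤ m := by positivity
      rw [show m + 1 + 5 = (m + 5) + 1 by ring, pow_succ]
      push_cast
      have h1 : κ ^ (m + 5) * (29 / 20) ≤ κ ^ (m + 5) * κ :=
        mul_le_mul_of_nonneg_left hκg.le (by positivity)
      linarith
  have h7 : ((M + 3 : ℕ) : ℝ) * (14 / κ ^ (M + 5)) ≤ 7 := by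
    push_cast
    rw [mul_div_assoc', div_le_iff₀ (by positivity)]
    linarith [hgrow M]
  have hlK : l ^ (M + 3) ≤ 1100 * κ ^ (M + 3) := by
    have k1 : l ^ (M + 3) = Real.exp ((M + 3 : ℕ) * H) := by
      rw [hl, ← Real.exp_nat_mul]
    have k2 : ((M + 3 : ℕ) : ℝ) * H ≤ (M + 3 : ℕ) * Real.log κ + 7 := by
      have := mul_le_mul_of_nonneg_left hflat.2 (show (0 : ℝ) ≤ (M + 3 : ℕ) by positivity)
      rw [show M + 3 + 2 = M + 5 by ring, mul_add] at this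
      linarith
    have k3 : Real.exp ((M + 3 : ℕ) * Real.log κ + 7) = κ ^ (M + 3) * Real.exp 7 := by
      rw [Real.exp_add, Real.exp_nat_mul, Real.exp_log hκ0]
    have k4 : Real.exp 7 ≤ 1100 := by
      have e7 : Real.exp 7 = Real.exp 1 ^ 7 := by
        rw [← Real.exp_nat_mul]; norm_num
      rw [e7]
      have := Real.exp_one_lt_d9
      calc Real.exp 1 ^ 7 ≤ (2.7182818286 : ℝ) ^ 7 :=
            pow_le_pow_left₀ (Real.exp_pos _).le this.le 7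
        _ ≤ 1100 := by norm_num
    rw [k1]
    calc Real.exp ((M + 3 : ℕ) * H) ≤ Real.exp ((M + 3 : ℕ) * Real.log κ + 7) :=
          Real.exp_le_exp.2 k2
      _ = κ ^ (M + 3) * Real.exp 7 := k3
      _ ≤ κ ^ (M + 3) * 1100 := mul_le_mul_of_nonneg_left k4 (by positivity)
      _ = 1100 * κ ^ (M + 3) := by ring
  have hp : 0 < κ ^ (M + 3) := by positivity
  have u1 : 1 ≤ 5500 * κ ^ (M + 3) * (l - κ) := by
    rw [div_le_iff₀ (by positivity)] at himp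
    have k1 : (l - κ) * Q * l ^ (M + 3) ≤ (l - κ) * 5 * (1100 * κ ^ (M + 3)) :=
      mul_le_mul (mul_le_mul_of_nonneg_left hQ5 hd.le) hlK (by positivity) (by positivity)
    linarith
  have h4 := Real.one_sub_inv_le_log_of_pos (show 0 < l / κ by positivity)
  rw [Real.log_div hl0.ne' hκ0.ne', hl, Real.log_exp, ← hl, inv_div] at h4
  have h5 : 1 - κ / l = (l - κ) / l := by
    field_simp
  have h6 : 1 / (10 ^ 4 * κ ^ (M + 3)) ≤ (l - κ) / l := by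
    rw [div_le_div_iff₀ (by positivity) hl0]
    linarith
  linarith

end Pool.Agent.H16E
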