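import Pool.Agent.H16E.Gen

/-!
# The parameters with the least entropy
-/

set_option autoImplicit false

namespace Pool.Agent.H16E

open Filter Topology Set Pool.Agent.R660.CF Pool.Agent.R294.CF

variable {z : ℝ}

/-- The parameter `(-(M+2), 1/(M+2))`. -/
theorem InP_M (M : ℕ) : InP (-((M : ℝ) + 2)) (1 / ((M : ℝ) + 2)) := by
  have h : (0 : ℝ) < (M : ℝ) + 2 := by positivity
  have h1 : (0 : ℝ) < 1 / ((M : ℝ) + 2) := by positivity
  have hM : (0 : ℝ) ≤ M := by positivity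
  refine ⟨by linarith, h1.le, by linarith, ?_⟩
  have : -((M : ℝ) + 2) * (1 / ((M : ℝ) + 2)) = -1 := by field_simp
  linarith

theorem key_ineq (M : ℕ) (hz : 0 < z) (hz1 : z < 1)
    (h : z * Real.exp (ent (-((M : ℝ) + 2)) (1 / ((M : ℝ) + 2))) < 1) :
    z ^ (3 * M + 7) + (1 - z) * z ^ 4 * ∑ j ∈ Finset.range (M + 1), z ^ (3 * j) ≤ (1 - z) ^ 2 := by
  have hab := InP_M M
  have hM : (0 : ℝ) ≤ M := by positivity
  set a : ℝ := -((M : ℝ) + 2) with ha
  set b : ℝ := 1 / ((M : ℝ) + 2) with hb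
  have ha2 : a ≤ -2 := by rw [ha]; linarith
  have hb0 : 0 < b := by rw [hb]; positivity
  have hb12 : b ≤ 1 / 2 := by
    rw [hb]
    exact one_div_le_one_div_of_le (by norm_num) (by linarith)
  have hM1 : (0 : ℝ) < (M : ℝ) + 1 := by positivity
  have hM2 : (0 : ℝ) < (M : ℝ) + 2 := by positivity
  -- basic preimages
  have fsub : ∀ y : ℝ, b ≤ y + 1 → f a b (y + 1) = y := by
    intro y hy
    rw [f_ge hab hy]; ring
  have fadd : ∀ y : ℝ, y - 1 < a → f a b (y - 1) = y := by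
    intro y hy
    rw [f_lt hy]; ring
  have finv : ∀ y : ℝ, y ≠ 0 → a ≤ -1 / y → -1 / y < b → f a b (-1 / y) = y := by
    intro y hy h1 h2
    rw [f_mid h1 h2]; field_simp
  set A := G a b z (Ioo (-1 / 2) 0) with hA
  -- positivity
  have hApos : 0 < A := by
    refine G_pos hab hz h (x := -1 / 3) ⟨by norm_num, by norm_num⟩ (n := 4) ?_
    have e1 : f a b (-1 / 3) = 3 := finv 3 (by norm_num) (by linarith) (by linarith)
    have e2 : f a b 3 = 2 := by
      have := fsub 2 (by linarith); norm_num at this; exact this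
    have e3 : f a b 2 = 1 := by
      have := fsub 1 (by linarith); norm_num at this; exact this
    have e4 : f a b 1 = 0 := by
      have := fsub 0 (by linarith); norm_num at this; exact this
    rw [show 4 = 0 + 1 + 1 + 1 + 1 from rfl, Function.iterate_succ_apply,
      Function.iterate_succ_apply, Function.iterate_succ_apply, Function.iterate_succ_apply,
      Function.iterate_zero, id, e1, e2, e3, e4]
  -- (h1)
  have h1 : z ^ 1 * G a b z (Ioi 2) ≤ A := by
    refine G_step hab hz h (fun y => -1 / y) 1 ?_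
    intro y hy
    have hy2 : 2 < y := hy
    have hy0 : 0 < y := by linarith
    have k1 : -1 / 2 < -1 / y := by
      rw [neg_div, neg_div, neg_lt_neg_iff]
      exact one_div_lt_one_div_of_lt (by norm_num) hy2
    have k2 : -1 / y < 0 := div_neg_of_neg_of_pos (by norm_num) hy0
    refine ⟨⟨k1, k2⟩, ?_⟩
    rw [Function.iterate_one]
    exact finv y hy0.ne' (by linarith) (by linarith)
  have h2 : G a b z (Ioo 2 3) + G a b z (Ioi 3) ≤ G a b z (Ioi 2) := by
    refine G_add hab hz h ?_ (fun x hx => hx.1) (fun x hx => ?_)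
    · rw [Set.disjoint_left]
      intro x hx hx'
      exact absurd hx.2 (not_lt.2 (le_of_lt hx'))
    · have : 3 < x := hx
      exact lt_trans (by norm_num) this
  have h3 : z ^ 1 * G a b z (Ioi 2) ≤ G a b z (Ioi 3) := by
    refine G_step hab hz h (fun y => y + 1) 1 ?_
    intro y hy
    have hy2 : 2 < y := hy
    refine ⟨show 3 < y + 1 by linarith, ?_⟩
    rw [Function.iterate_one]
    exact fsub y (by linarith)
  have h4 : z ^ 2 * G a b z (Ioo 0 1) ≤ G a b z (Ioo 2 3) := by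
    refine G_step hab hz h (fun y => y + 1 + 1) 2 ?_
    intro y hy
    obtain ⟨hy1, hy2⟩ := hy
    refine ⟨⟨by linarith, by linarith⟩, ?_⟩
    rw [show 2 = 0 + 1 + 1 from rfl, Function.iterate_succ_apply, Function.iterate_succ_apply,
      Function.iterate_zero, id, fsub (y + 1) (by linarith), fsub y (by linarith)]
  have h5 : G a b z (Ioo 0 b) + G a b z (Ioo b 1) ≤ G a b z (Ioo 0 1) := by
    refine G_add hab hz h ?_ (fun x hx => ⟨hx.1, by linarith [hx.2]⟩)
      (fun x hx => ⟨by linarith [hx.1], hx.2⟩)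
    rw [Set.disjoint_left]
    intro x hx hx'
    exact absurd hx.2 (not_lt.2 hx'.1.le)
  have h6 : z ^ 1 * G a b z (Ioo (b - 1) 0) ≤ G a b z (Ioo b 1) := by
    refine G_step hab hz h (fun y => y + 1) 1 ?_
    intro y hy
    obtain ⟨hy1, hy2⟩ := hy
    refine ⟨⟨by linarith, by linarith⟩, ?_⟩
    rw [Function.iterate_one]
    exact fsub y (by linarith)
  have h7 : z ^ 1 * G a b z (Iio a) ≤ G a b z (Ioo 0 b) := by
    refine G_step hab hz h (fun y => -1 / y) 1 ?_
    intro y hy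
    have hy2 : y < a := hy
    have hy0 : y < 0 := by linarith
    have k1 : 0 < -1 / y := div_pos_of_neg_of_neg (by norm_num) hy0
    have k2 : -1 / y < b := by
      rw [hb, div_lt_iff_of_neg hy0, one_div, inv_mul_lt_iff₀ hM2]
      linarith
    refine ⟨⟨k1, k2⟩, ?_⟩
    rw [Function.iterate_one]
    exact finv y hy0.ne (by linarith) k2
  have h8 : G a b z (Ioo (a - 1) a) + G a b z (Iio (a - 1)) ≤ G a b z (Iio a) := by
    refine G_add hab hz h ?_ (fun x hx => hx.2) (fun x hx => ?_)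
    · rw [Set.disjoint_left]
      intro x hx hx'
      exact absurd hx.1 (not_lt.2 (le_of_lt hx'))
    · have : x < a - 1 := hx
      show x < a
      linarith
  have h9 : z ^ 1 * G a b z (Iio a) ≤ G a b z (Iio (a - 1)) := by
    refine G_step hab hz h (fun y => y - 1) 1 ?_
    intro y hy
    have hy2 : y < a := hy
    refine ⟨show y - 1 < a - 1 by linarith, ?_⟩
    rw [Function.iterate_one]
    exact fadd y (by linarith)
  -- the intervals `I i`
  have h10 : z ^ 3 * G a b z (Ioo (-((M : ℝ) + 1) / (M + 2)) (-(M : ℝ) / (M + 1))) ≤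
      G a b z (Ioo (a - 1) a) := by
    refine G_step hab hz h (fun y => -1 / (y + 1) - 1) 3 ?_
    intro y hy
    obtain ⟨hy1, hy2⟩ := hy
    rw [div_lt_iff₀ hM2] at hy1
    rw [lt_div_iff₀ hM1] at hy2
    have hy0 : 0 < y + 1 := by nlinarith
    have k1 : a < -1 / (y + 1) := by
      rw [lt_div_iff₀ hy0, ha]; nlinarith
    have k2 : -1 / (y + 1) < a + 1 := by
      rw [div_lt_iff₀ hy0, ha]; nlinarith
    have k3 : b ≤ y + 1 := by
      rw [hb, div_le_iff₀ hM2]; nlinarith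
    refine ⟨⟨by linarith, by linarith⟩, ?_⟩
    rw [show 3 = 0 + 1 + 1 + 1 from rfl, Function.iterate_succ_apply, Function.iterate_succ_apply,
      Function.iterate_succ_apply, Function.iterate_zero, id, fadd _ (by linarith),
      finv (y + 1) hy0.ne' k1.le (by linarith), fsub y k3]
  have h11 : ∀ i : ℕ, i ≤ M → z ^ (3 * i) * A ≤
      G a b z (Ioo (-((i : ℝ) + 1) / (i + 2)) (-(i : ℝ) / (i + 1))) := by
    intro i
    induction i with
    | zero =>
      intro _
      rw [mul_zero, pow_zero, one_mul, hA]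
      norm_num
    | succ i ih =>
      intro hi
      have h0 := ih (by omega)
      have hiM : (i : ℝ) + 1 ≤ M := by exact_mod_cast hi
      have hi0 : (0 : ℝ) ≤ i := by positivity
      have hi1 : (0 : ℝ) < (i : ℝ) + 1 := by positivity
      have hi2 : (0 : ℝ) < (i : ℝ) + 2 := by positivity
      have hi3 : (0 : ℝ) < (i : ℝ) + 1 + 2 := by positivity
      have hi4 : (0 : ℝ) < (i : ℝ) + 1 + 1 := by positivity
      have hs : z ^ 3 * G a b z (Ioo (-((i : ℝ) + 1) / (i + 2)) (-(i : ℝ) / (i + 1))) ≤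
          G a b z (Ioo (-(((i + 1 : ℕ) : ℝ) + 1) / ((i + 1 : ℕ) + 2))
            (-((i + 1 : ℕ) : ℝ) / ((i + 1 : ℕ) + 1))) := by
        refine G_step hab hz h (fun y => -1 / (y + 1 + 1)) 3 ?_
        intro y hy
        obtain ⟨hy1, hy2⟩ := hy
        rw [div_lt_iff₀ hi2] at hy1
        rw [lt_div_iff₀ hi1] at hy2
        have hy0 : 0 < y + 1 := by nlinarith
        have hy00 : 0 < y + 1 + 1 := by linarith
        have k3 : b ≤ y + 1 := by
          rw [hb, div_le_iff₀ hM2]; nlinarith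
        have k4 : -1 / (y + 1 + 1) < 0 := div_neg_of_neg_of_pos (by norm_num) hy00
        have k5 : -1 ≤ -1 / (y + 1 + 1) := by
          rw [le_div_iff₀ hy00]; linarith
        refine ⟨⟨?_, ?_⟩, ?_⟩
        · push_cast
          rw [div_lt_div_iff₀ hi3 hy00]
          nlinarith
        · push_cast
          rw [div_lt_div_iff₀ hy00 hi4]
          nlinarith
        · rw [show 3 = 0 + 1 + 1 + 1 from rfl, Function.iterate_succ_apply,
            Function.iterate_succ_apply, Function.iterate_succ_apply, Function.iterate_zero, id,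
            finv (y + 1 + 1) hy00.ne' (by linarith) (by linarith), fsub (y + 1) (by linarith),
            fsub y k3]
      refine le_trans ?_ hs
      calc z ^ (3 * (i + 1)) * A = z ^ 3 * (z ^ (3 * i) * A) := by
            rw [show 3 * (i + 1) = 3 + 3 * i by ring, pow_add]; ring
        _ ≤ _ := by gcongr
  have h12 : ∀ i : ℕ, i ≤ M → (∑ j ∈ Finset.range (i + 1), z ^ (3 * j)) * A ≤
      G a b z (Ioo (-((i : ℝ) + 1) / (i + 2)) 0) := by
    intro i
    induction i with
    | zero =>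
      intro _
      rw [hA]
      norm_num
    | succ i ih =>
      intro hi
      have h0 := ih (by omega)
      have h1' := h11 (i + 1) hi
      rw [Finset.sum_range_succ, add_mul]
      have hi1 : (0 : ℝ) < (i : ℝ) + 1 := by positivity
      have hi2 : (0 : ℝ) < (i : ℝ) + 2 := by positivity
      have hi3 : (0 : ℝ) < (i : ℝ) + 1 + 2 := by positivity
      have e : (-((i + 1 : ℕ) : ℝ) / ((i + 1 : ℕ) + 1)) = -((i : ℝ) + 1) / (i + 2) := by
        push_cast
        congr 1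
        ring
      rw [e] at h1'
      have e1 : -(((i + 1 : ℕ) : ℝ) + 1) / ((i + 1 : ℕ) + 2) < -((i : ℝ) + 1) / (i + 2) := by
        push_cast
        rw [div_lt_div_iff₀ hi3 hi2]
        nlinarith
      have e2 : -((i : ℝ) + 1) / (i + 2) < 0 := div_neg_of_neg_of_pos (by linarith) hi2
      have hadd := G_add hab hz h
        (S := Ioo (-((i : ℝ) + 1) / (i + 2)) 0)
        (T := Ioo (-(((i + 1 : ℕ) : ℝ) + 1) / ((i + 1 : ℕ) + 2)) (-((i : ℝ) + 1) / (i + 2)))
        (U := Ioo (-(((i + 1 : ℕ) : ℝ) + 1) / ((i + 1 : ℕ) + 2)) 0) (by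
          rw [Set.disjoint_left]
          intro x hx hx'
          exact absurd hx.1 (not_lt.2 hx'.2.le)) (fun x hx => ⟨by linarith [hx.1], hx.2⟩)
        (fun x hx => ⟨hx.1, by linarith [hx.2]⟩)
      linarith
  have h13 : z ^ 3 * (z ^ (3 * M) * A) ≤ G a b z (Ioo (a - 1) a) :=
    (mul_le_mul_of_nonneg_left (h11 M le_rfl) (by positivity)).trans h10
  have h14 : (∑ j ∈ Finset.range (M + 1), z ^ (3 * j)) * A ≤ G a b z (Ioo (b - 1) 0) := by
    have := h12 M le_rfl
    have e : -((M : ℝ) + 1) / (M + 2) = b - 1 := by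
      rw [hb]; field_simp; ring
    rwa [e] at this
  -- combine
  set Sg := ∑ j ∈ Finset.range (M + 1), z ^ (3 * j) with hSg
  have hz1' : 0 < 1 - z := by linarith
  have c1 : z ^ 2 * G a b z (Ioo 0 1) ≤ (1 - z) * G a b z (Ioi 2) := by linarith
  have c2 : z * G a b z (Iio a) + z * (Sg * A) ≤ G a b z (Ioo 0 1) := by
    have : z * (Sg * A) ≤ z * G a b z (Ioo (b - 1) 0) := mul_le_mul_of_nonneg_left h14 hz.le
    linarith
  have c3 : z ^ 3 * (z ^ (3 * M) * A) ≤ (1 - z) * G a b z (Iio a) := by linarith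
  have d1 : (1 - z) * (z * G a b z (Ioi 2)) ≤ (1 - z) * A := by
    have : z * G a b z (Ioi 2) ≤ A := by linarith
    exact mul_le_mul_of_nonneg_left this hz1'.le
  have d2 : z * (z ^ 2 * (z * G a b z (Iio a) + z * (Sg * A))) ≤ (1 - z) * A := by
    have k1 : z ^ 2 * (z * G a b z (Iio a) + z * (Sg * A)) ≤ (1 - z) * G a b z (Ioi 2) :=
      (mul_le_mul_of_nonneg_left c2 (by positivity)).trans c1
    have k2 := mul_le_mul_of_nonneg_left k1 hz.le
    linarith
  have d3 : (1 - z) * (z * (z ^ 2 * (z * G a b z (Iio a) + z * (Sg * A)))) ≤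
      (1 - z) * ((1 - z) * A) := mul_le_mul_of_nonneg_left d2 hz1'.le
  have d4 : z ^ 4 * (z ^ 3 * (z ^ (3 * M) * A)) ≤ z ^ 4 * ((1 - z) * G a b z (Iio a)) :=
    mul_le_mul_of_nonneg_left c3 (by positivity)
  have d5 : (z ^ (3 * M + 7) + (1 - z) * z ^ 4 * Sg) * A ≤ (1 - z) ^ 2 * A := by
    have e : z ^ (3 * M + 7) = z ^ 4 * (z ^ 3 * z ^ (3 * M)) := by
      rw [pow_add]; ring
    rw [e]
    nlinarith
  exact le_of_mul_le_mul_right d5 hApos

/-- The entropy at `(-(M+2), 1/(M+2))` is larger than `log κ`. -/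
theorem ent_gt_M (M : ℕ) {κ : ℝ} (hκ : κ ^ 3 = κ ^ 2 + 1) (hκ1 : 1 ≤ κ) :
    Real.log κ < ent (-((M : ℝ) + 2)) (1 / ((M : ℝ) + 2)) := by
  by_contra hcon
  push Not at hcon
  have hκ2 : 1 < κ := by
    rcases hκ1.lt_or_eq with h | h
    · exact h
    · rw [← h] at hκ; norm_num at hκ
  have hκ0 : 0 < κ := by linarith
  set ζ := 1 / κ with hζ
  have hζ0 : 0 < ζ := by positivity
  have hζ1 : ζ < 1 := by
    rw [hζ, div_lt_one hκ0]; exact hκ2
  have hζ3 : ζ ^ 3 = 1 - ζ := by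
    rw [hζ]
    field_simp
    nlinarith
  have hexp : Real.exp (ent (-((M : ℝ) + 2)) (1 / ((M : ℝ) + 2))) ≤ κ := by
    rw [← Real.exp_log hκ0]
    exact Real.exp_le_exp.2 hcon
  have hall : ∀ z ∈ Ioo (0 : ℝ) ζ,
      z ^ (3 * M + 7) + (1 - z) * z ^ 4 * ∑ j ∈ Finset.range (M + 1), z ^ (3 * j) ≤ (1 - z) ^ 2 := by
    intro z hz
    refine key_ineq M hz.1 (lt_trans hz.2 hζ1) ?_
    calc z * Real.exp (ent (-((M : ℝ) + 2)) (1 / ((M : ℝ) + 2))) ≤ z * κ :=
          mul_le_mul_of_nonneg_left hexp hz.1.le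
      _ < ζ * κ := mul_lt_mul_of_pos_right hz.2 hκ0
      _ = 1 := by rw [hζ]; field_simp
  have hclosed : IsClosed {z : ℝ | z ^ (3 * M + 7) +
      (1 - z) * z ^ 4 * ∑ j ∈ Finset.range (M + 1), z ^ (3 * j) ≤ (1 - z) ^ 2} :=
    isClosed_le (by fun_prop) (by fun_prop)
  have hmem : ζ ∈ {z : ℝ | z ^ (3 * M + 7) +
      (1 - z) * z ^ 4 * ∑ j ∈ Finset.range (M + 1), z ^ (3 * j) ≤ (1 - z) ^ 2} := by
    have h1 : closure (Ioo (0 : ℝ) ζ) ⊆ _ := hclosed.closure_subset_iff.2 hall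
    rw [closure_Ioo hζ0.ne] at h1
    exact h1 ⟨hζ0.le, le_rfl⟩
  have hfin : ζ ^ (3 * M + 7) +
      (1 - ζ) * ζ ^ 4 * ∑ j ∈ Finset.range (M + 1), ζ ^ (3 * j) ≤ (1 - ζ) ^ 2 := hmem
  have hgeom : ζ * ∑ j ∈ Finset.range (M + 1), ζ ^ (3 * j) = 1 - ζ ^ (3 * M + 3) := by
    have h1 : (∑ j ∈ Finset.range (M + 1), (ζ ^ 3) ^ j) * (ζ ^ 3 - 1) = (ζ ^ 3) ^ (M + 1) - 1 :=
      geom_sum_mul _ _
    have h2 : ∑ j ∈ Finset.range (M + 1), ζ ^ (3 * j) = ∑ j ∈ Finset.range (M + 1), (ζ ^ 3) ^ j :=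
      Finset.sum_congr rfl fun j _ => by rw [pow_mul]
    rw [h2]
    have h3 : (ζ ^ 3) ^ (M + 1) = ζ ^ (3 * M + 3) := by
      rw [← pow_mul]; congr 1
    rw [h3, hζ3] at h1
    rw [hζ3]
    linarith
  have e1 : (1 - ζ) * ζ ^ 4 * ∑ j ∈ Finset.range (M + 1), ζ ^ (3 * j) =
      ζ ^ 6 * (1 - ζ ^ (3 * M + 3)) := by
    rw [← hgeom, ← hζ3]; ring
  rw [e1, ← hζ3] at hfin
  have e2 : ζ ^ (3 * M + 7) = ζ ^ (3 * M) * ζ ^ 7 := pow_add _ _ _
  have e3 : ζ ^ (3 * M + 3) = ζ ^ (3 * M) * ζ ^ 3 := pow_add _ _ _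
  rw [e2, e3] at hfin
  have e4 : ζ ^ (3 * M) * ζ ^ 7 ≤ ζ ^ (3 * M) * ζ ^ 9 := by nlinarith
  have e5 : ζ ^ 7 ≤ ζ ^ 9 := le_of_mul_le_mul_left e4 (by positivity)
  have e6 : ζ ^ 9 < ζ ^ 7 := pow_lt_pow_right_of_lt_one₀ hζ0 hζ1 (by norm_num)
  linarith

/-- On the left part the entropy is larger than `log κ` unless `b = 0`. -/
theorem ent_gt_left {a b κ : ℝ} (hκ : κ ^ 3 = κ ^ 2 + 1) (hκ1 : 1 ≤ κ) (hab : InP a b)
    (ha : a ≤ -1 / 2) (hb1 : b ≤ 1) (hb : 0 < b) : Real.log κ < ent a b := by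
  obtain ⟨M, hM⟩ := exists_nat_gt (max (-a) (1 / b))
  have h1 : -a ≤ M := (le_max_left _ _).trans hM.le
  have h2 : 1 / b ≤ M := (le_max_right _ _).trans hM.le
  have hM0 : (0 : ℝ) < (M : ℝ) + 2 := by positivity
  have h3 : 1 / ((M : ℝ) + 2) ≤ b := by
    rw [div_le_iff₀ hM0]
    rw [div_le_iff₀ hb] at h2
    nlinarith
  exact (ent_gt_M M hκ hκ1).trans_le
    (left_mono hab (InP_M M) (by linarith) h3 ha hb1)

/-- The entropy is `log κ` exactly on the two half-lines `b = 0` and `a = 0`. -/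
theorem ent_eq_min_iff {a b κ : ℝ} (hκ : κ ^ 3 = κ ^ 2 + 1) (hκ1 : 1 ≤ κ) (hab : InP a b) :
    ent a b = Real.log κ ↔ a = 0 ∨ b = 0 := by
  constructor
  · intro he
    by_contra hcon
    push Not at hcon
    obtain ⟨hcon1, hcon2⟩ := hcon
    have ha : a < 0 := lt_of_le_of_ne hab.1 hcon1
    have hb : 0 < b := lt_of_le_of_ne hab.2.1 (Ne.symm hcon2)
    rcases cover hab with h | h
    · have := ent_gt_left hκ hκ1 hab h.1 h.2 hb
      linarith
    · have := ent_gt_left hκ hκ1 (InP_symm hab) (by linarith) (by linarith) (by linarith)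
      rw [ent_symm hab] at this
      linarith
  · have key : ∀ a : ℝ, InP a 0 → ent a 0 = Real.log κ := by
      intro a ha
      apply le_antisymm
      · rw [← ent_g hκ hκ1]
        have h1 : a ≤ -1 := by linarith [ha.2.2.1]
        exact left_a (InP_neg_one le_rfl (by norm_num)) ha h1 (by norm_num) (by norm_num)
      · exact entropy_ge ha hκ hκ1 (ent_spec ha)
    rintro (h | h)
    · subst h
      rw [← ent_symm hab, neg_zero]
      exact key _ (by simpa using InP_symm hab)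
    · subst h
      exact key _ hab

end Pool.Agent.H16E
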