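import Pool.Agent.H16E.Max
import Pool.Agent.H16E.Min

/-!
# The parameters with the largest entropy
-/

set_option autoImplicit false

namespace Pool.Agent.H16E

open Filter Topology Set Pool.Agent.R660.CF Pool.Agent.R294.CF

/-- the orbits of `a` and `b` end at `0` -/
theorem orbits (M : ℕ) {a b r s : ℝ} (d : Dat M a b r s) :
    f a b 0 = 0 ∧ (f a b)^[M + 8] a = 0 ∧ (f a b)^[M + 8] b = 0 := by
  have hab := d.inP
  obtain ⟨m0, dab, b0, b12, r0, rs, sa, br, s1, ib, ia, ir, is⟩ := d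
  have a0 : a < 0 := by linarith
  have f0 : f a b 0 = 0 := by
    rw [f_mid a0.le b0]; norm_num
  have nat0 : ∀ j : ℕ, (f a b)^[j] (j : ℝ) = 0 := by
    intro j
    induction j with
    | zero => simp
    | succ j ih =>
      rw [Function.iterate_succ_apply]
      have hj : (0 : ℝ) ≤ j := by positivity
      have : f a b ((j + 1 : ℕ) : ℝ) = j := by
        rw [f_ge hab (by push_cast; linarith)]
        push_cast
        ring
      rw [this, ih]
  have e0 : (f a b)^[M + 3] ((M : ℝ) + 3) = 0 := by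
    have := nat0 (M + 3)
    push_cast at this
    exact this
  have e1 : (f a b)^[M + 4] r = 0 := by
    rw [show M + 4 = (M + 3) + 1 from rfl, Function.iterate_succ_apply,
      f_mid (by linarith) (by linarith), ir]
    exact e0
  have e2 : (f a b)^[M + 5] (1 + r) = 0 := by
    rw [show M + 5 = (M + 4) + 1 from rfl, Function.iterate_succ_apply, f_ge hab (by linarith),
      show 1 + r - 1 = r by ring]
    exact e1
  have e3 : (f a b)^[M + 6] (r + 2) = 0 := by
    rw [show M + 6 = (M + 5) + 1 from rfl, Function.iterate_succ_apply, f_ge hab (by linarith),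
      show r + 2 - 1 = 1 + r by ring]
    exact e2
  have e4 : (f a b)^[M + 7] a = 0 := by
    rw [show M + 7 = (M + 6) + 1 from rfl, Function.iterate_succ_apply,
      f_mid le_rfl (by linarith), ia]
    exact e3
  refine ⟨f0, ?_, ?_⟩
  · rw [show M + 8 = (M + 7) + 1 from rfl, Function.iterate_succ_apply', e4, f0]
  · rw [show M + 8 = (M + 7) + 1 from rfl, Function.iterate_succ_apply, f_ge hab le_rfl, ← dab]
    exact e4

/-- The entropy is less than `log φ` at the parameters `(b - 1, b)` with `b = (M+2)/(2M+5)`. -/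
theorem ent_lt_M (M : ℕ) {a b r s : ℝ} (d : Dat M a b r s) :
    ent a b < Real.log ((1 + √5) / 2) := by
  by_contra hcon
  push Not at hcon
  have hab := d.inP
  have hle : ent a b ≤ Real.log ((1 + √5) / 2) := entropy_le hab (ent_spec hab)
  have heq : ent a b = Real.log ((1 + √5) / 2) := le_antisymm hle hcon
  set g : ℝ := (1 + √5) / 2 with hg
  have hs5 : √5 ^ 2 = 5 := Real.sq_sqrt (by norm_num)
  have hs50 : 0 ≤ √5 := Real.sqrt_nonneg _
  have hg0 : 0 < g := by rw [hg]; positivity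
  have hg2 : g ^ 2 = g + 1 := by rw [hg]; nlinarith
  have hexp : Real.exp (ent a b) = g := by rw [heq, Real.exp_log hg0]
  set ζ := 1 / g with hζ
  have hζ0 : 0 < ζ := by positivity
  have hζg : ζ * g = 1 := by rw [hζ]; field_simp
  have hζ2 : ζ ^ 2 = 1 - ζ := by
    rw [hζ]
    field_simp
    linarith
  have hζ12 : 1 / 2 < ζ := by
    by_contra hh
    push Not at hh
    nlinarith
  have hζ23 : ζ < 2 / 3 := by
    by_contra hh
    push Not at hh
    nlinarith
  have hF : 0 < FF ζ (ζ ^ (M + 2)) := by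
    rw [FF_root hζ2]; positivity
  have hcont : Continuous fun z : ℝ => FF z (z ^ (M + 2)) := by
    unfold FF
    fun_prop
  set δ := FF ζ (ζ ^ (M + 2)) / 2 with hδ
  have hδ0 : 0 < δ := by positivity
  have hev : ∀ᶠ z in 𝓝 ζ, δ < FF z (z ^ (M + 2)) :=
    hcont.continuousAt.eventually (lt_mem_nhds (by rw [hδ]; linarith))
  obtain ⟨ε, hε, hε'⟩ := Metric.eventually_nhds_iff.1 hev
  set z0 := max (1 / 2) (ζ - ε) with hz0
  have hz0ζ : z0 < ζ := max_lt hζ12 (by linarith)
  have hv0 : ζ ^ 3 = 1 - ζ - ζ ^ 4 := by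
    linear_combination (ζ ^ 2 + 1) * hζ2
  have hM0 : (0 : ℝ) ≤ M := by positivity
  set C2 := (15 * ((2 * (M : ℝ) + 21) / δ) + (4 * M + 46)) / ζ ^ 5 + 3 with hC2
  obtain ⟨o1, o2, o3⟩ := orbits M d
  have hall : ∀ z ∈ Ioo z0 ζ, z ^ (M + 8) ≤ C2 * (1 - z * g) := by
    intro z hz
    obtain ⟨hz1, hz2⟩ := hz
    have hzh : 1 / 2 < z := (le_max_left _ _).trans_lt hz1
    have hzp : 0 < z := by linarith
    have hzl : z < 1 := by linarith
    have hzε : ζ - ε < z := (le_max_right _ _).trans_lt hz1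
    have hFz : δ < FF z (z ^ (M + 2)) := hε' (by
      rw [Real.dist_eq, abs_lt]
      constructor <;> linarith)
    have hzg : z * Real.exp (ent a b) < 1 := by
      rw [hexp, ← hζg]
      exact mul_lt_mul_of_pos_right hz2 hg0
    have hz4 : z ^ 4 ≤ ζ ^ 4 := pow_le_pow_left₀ hzp.le hz2.le 4
    have hvz : ζ ^ 3 ≤ 1 - z - z ^ 4 := by linarith
    have hζ3 : 0 < ζ ^ 3 := by positivity
    have hu : ζ ^ 2 ≤ 1 - z := by linarith
    have hζ2p : 0 < ζ ^ 2 := by positivity
    have hc3 : (1 - z)⁻¹ ≤ 3 := by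
      rw [inv_le_comm₀ (by linarith) (by norm_num)]
      linarith
    obtain ⟨k1, k2⟩ := estimates M d hzp hzl (by linarith) hc3 hzg
    have hP0 : 0 ≤ G a b z (Ioo 0 1) := G_nonneg hzp _
    have hT0 : 0 ≤ G a b z univ := G_nonneg hzp _
    have k3 : G a b z (Ioo 0 1) ≤ (2 * (M : ℝ) + 21) / δ := by
      rw [le_div_iff₀ hδ0]
      have := mul_le_mul_of_nonneg_right hFz.le hP0
      linarith
    have k4 : ζ ^ 5 * G a b z univ ≤ 15 * ((2 * (M : ℝ) + 21) / δ) + (4 * M + 46) := by
      have q1 : ζ ^ 2 * (ζ ^ 3 * G a b z univ) ≤ (1 - z) * ((1 - z - z ^ 4) * G a b z univ) :=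
        mul_le_mul hu (mul_le_mul_of_nonneg_right hvz hT0) (by positivity) (by linarith)
      have q2 : ζ ^ 5 * G a b z univ = ζ ^ 2 * (ζ ^ 3 * G a b z univ) := by ring
      rw [q2]
      linarith
    have k5 : G a b z univ ≤ (15 * ((2 * (M : ℝ) + 21) / δ) + (4 * M + 46)) / ζ ^ 5 := by
      rw [le_div_iff₀ (by positivity)]
      linarith
    have k6 := G_univ_ge hab hzp hzl hzg (M + 8) o1 o2 o3
    rw [hexp] at k6 hzg
    have hpos : 0 < 1 - z * g := by linarith
    have k7 : z ^ (M + 8) * (1 - z * g)⁻¹ ≤ C2 := by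
      rw [hC2]
      linarith
    rw [← div_eq_mul_inv, div_le_iff₀ hpos] at k7
    exact k7
  have hclosed : IsClosed {z : ℝ | z ^ (M + 8) ≤ C2 * (1 - z * g)} :=
    isClosed_le (by fun_prop) (by fun_prop)
  have hmem : ζ ∈ {z : ℝ | z ^ (M + 8) ≤ C2 * (1 - z * g)} := by
    have h1 : closure (Ioo z0 ζ) ⊆ _ := hclosed.closure_subset_iff.2 hall
    rw [closure_Ioo hz0ζ.ne] at h1
    exact h1 ⟨hz0ζ.le, le_rfl⟩
  have hfin : ζ ^ (M + 8) ≤ C2 * (1 - ζ * g) := hmem
  rw [hζg, sub_self, mul_zero] at hfin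
  have : 0 < ζ ^ (M + 8) := by positivity
  linarith

/-- On the left part the entropy is less than `log φ` for `b < 1/2`. -/
theorem ent_lt_left {a b : ℝ} (hab : InP a b) (hb : b < 1 / 2) :
    ent a b < Real.log ((1 + √5) / 2) := by
  obtain ⟨M, hM⟩ := exists_nat_gt (1 / (1 - 2 * b))
  have d := dat M
  have h1 : 0 < 1 - 2 * b := by linarith
  rw [div_lt_iff₀ h1] at hM
  have h5 : (0 : ℝ) < 2 * (M : ℝ) + 5 := by positivity
  have hMn : (0 : ℝ) ≤ M := by positivity
  have h2 : b ≤ ((M : ℝ) + 2) / (2 * M + 5) := by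
    rw [le_div_iff₀ h5]
    nlinarith
  have h3 := hab.2.2.1
  have h4 := d.ab
  have h6 := d.b12
  exact lt_of_le_of_lt (left_mono d.inP hab (by linarith) h2 (by linarith) (by linarith))
    (ent_lt_M M d)

/-- On the left part the entropy is less than `log φ` for `a < -1`. -/
theorem ent_lt_left' {a b : ℝ} (hab : InP a b) (ha : a < -1) :
    ent a b < Real.log ((1 + √5) / 2) := by
  obtain ⟨h1, h2, h3, h4⟩ := id hab
  have ha1 : 0 < 1 - a := by linarith
  have hb1 : b ≤ 1 := by nlinarith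
  rcases lt_or_ge b (1 / 2) with hb | hb
  · exact ent_lt_left hab hb
  have hb0 : 1 / (1 - a) < 1 / 2 := by
    rw [div_lt_div_iff₀ ha1 (by norm_num)]; linarith
  have hb00 : 0 < 1 / (1 - a) := by positivity
  have hP : InP a (1 / (1 - a)) := by
    refine ⟨h1, hb00.le, by linarith, ?_⟩
    rw [mul_one_div, ← neg_div, div_le_one ha1]
    linarith
  have e : -1 / (1 + -a) = -(1 / (1 - a)) := by
    rw [show 1 + -a = 1 - a by ring, neg_div]
  have key := plateau_all (InP_symm hab) (InP_symm hP) (by linarith) (by rw [e]; linarith)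
    (by linarith) (by rw [e])
  rw [ent_symm hab, ent_symm hP] at key
  rw [key]
  exact ent_lt_left hP hb0

/-- The entropy is `log φ` exactly on the square `[-1, -1/2] × [1/2, 1]`. -/
theorem ent_eq_max_iff {a b : ℝ} (hab : InP a b) : ent a b = Real.log ((1 + √5) / 2) ↔
    (-1 ≤ a ∧ a ≤ -1 / 2) ∧ (1 / 2 ≤ b ∧ b ≤ 1) := by
  constructor
  · intro he
    rcases lt_or_ge a (-1) with h1 | h1
    · exact absurd he (ent_lt_left' hab h1).ne
    rcases lt_or_ge b (1 / 2) with h2 | h2
    · exact absurd he (ent_lt_left hab h2).ne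
    have hs := ent_symm hab
    rcases lt_or_ge (-1 / 2) a with h3 | h3
    · exact absurd (hs.trans he) (ent_lt_left (InP_symm hab) (by linarith)).ne
    rcases lt_or_ge 1 b with h4 | h4
    · exact absurd (hs.trans he) (ent_lt_left' (InP_symm hab) (by linarith)).ne
    exact ⟨⟨h1, h3⟩, h2, h4⟩
  · rintro ⟨⟨h1, h2⟩, h3, h4⟩
    exact ent_square h1 h2 h3 h4

end Pool.Agent.H16E
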