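import Pool.Agent.H16E.GenUp
import Pool.Agent.H16E.Alg
import Pool.Agent.H16E.Min

/-!
# The entropy is exponentially close to `log κ` near `ab = 0`
-/

set_option autoImplicit false

namespace Pool.Agent.H16E

open Filter Topology Set Pool.Agent.R660.CF Pool.Agent.R294.CF

variable {z : ℝ}

/-- The parameter `(1/K - 1, 1/K)`, `K = M + 3`. -/
theorem InP_K (M : ℕ) : InP (1 / ((M : ℝ) + 3) - 1) (1 / ((M : ℝ) + 3)) := by
  have h : (0 : ℝ) < (M : ℝ) + 3 := by positivity
  have h1 : (0 : ℝ) < 1 / ((M : ℝ) + 3) := by positivity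
  have h2 : 1 / ((M : ℝ) + 3) ≤ 1 := by
    rw [div_le_one h]
    have : (0 : ℝ) ≤ M := by positivity
    linarith
  exact ⟨by linarith, h1.le, by linarith, by nlinarith⟩

theorem flat_estimates (M : ℕ) (hz : 0 < z) (hz1 : z < 1)
    (hw : 0 < 1 - z - z ^ 2 * z ^ (M + 3))
    (h : z * Real.exp (ent (1 / ((M : ℝ) + 3) - 1) (1 / ((M : ℝ) + 3))) < 1) :
    ((1 - z - z ^ 2 * z ^ (M + 3)) * (1 - z - z ^ 3) - z ^ 3 * z ^ (M + 3)) *
      G (1 / ((M : ℝ) + 3) - 1) (1 / ((M : ℝ) + 3)) z (Ioo (1 / ((M : ℝ) + 3) - 1) 0) ≤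
        4 * (1 - z)⁻¹ ∧
    (1 - z - z ^ 2 * z ^ (M + 3)) * ((1 - z) *
      G (1 / ((M : ℝ) + 3) - 1) (1 / ((M : ℝ) + 3)) z univ) ≤
      10 * G (1 / ((M : ℝ) + 3) - 1) (1 / ((M : ℝ) + 3)) z (Ioo (1 / ((M : ℝ) + 3) - 1) 0) +
        30 * (1 - z)⁻¹ := by
  have hab := InP_K M
  have hM : (0 : ℝ) ≤ M := by positivity
  have hM3 : (0 : ℝ) < (M : ℝ) + 3 := by positivity
  set b : ℝ := 1 / ((M : ℝ) + 3) with hb
  set a : ℝ := b - 1 with ha
  have hb0 : 0 < b := by rw [hb]; positivity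
  have hb13 : b ≤ 1 / 3 := by
    rw [hb]
    exact one_div_le_one_div_of_le (by norm_num) (by linarith)
  have hu : 0 < 1 - z := by linarith
  set c := (1 - z)⁻¹ with hcdef
  have hc : (1 - z) * c = 1 := mul_inv_cancel₀ hu.ne'
  have hc0 : 0 < c := inv_pos.2 hu
  have stepL : ∀ {S T : Set ℝ}, (∀ x ∈ S, x < a ∧ x + 1 ∈ T) → G a b z S ≤ z * G a b z T := by
    intro S T hST
    refine G_le_step hab hz h (fun y => y - 1) fun x hx => ?_
    obtain ⟨h1, h2⟩ := hST x hx
    rw [f_lt h1]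
    exact ⟨by linarith, h2, by ring⟩
  have stepR : ∀ {S T : Set ℝ}, (∀ x ∈ S, b ≤ x ∧ x - 1 ∈ T) → G a b z S ≤ z * G a b z T := by
    intro S T hST
    refine G_le_step hab hz h (fun y => y + 1) fun x hx => ?_
    obtain ⟨h1, h2⟩ := hST x hx
    rw [f_ge hab h1]
    exact ⟨by linarith, h2, by ring⟩
  have stepM : ∀ {S T : Set ℝ}, (∀ x ∈ S, a ≤ x ∧ x < b ∧ x ≠ 0 ∧ -1 / x ∈ T) →
      G a b z S ≤ z * G a b z T := by
    intro S T hST
    refine G_le_step hab hz h (fun y => -1 / y) fun x hx => ?_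
    obtain ⟨h1, h2, h3, h4⟩ := hST x hx
    rw [f_mid h1 h2]
    refine ⟨h3, h4, ?_⟩
    show -1 / (-1 / x) = x
    field_simp
  -- (i)
  have i1 : G a b z (Ioo 0 1) ≤ G a b z (Ioo 0 b) + z * G a b z (Ioo a 0) + c := by
    have h1 := G_cover hab hz hz1 h [Ioo 0 b, Ioo b 1] [b] (Ioo 0 1) (by
      intro x hx
      rcases lt_trichotomy x b with h1 | h1 | h1
      · exact Or.inl ⟨Ioo 0 b, by simp, hx.1, h1⟩
      · exact Or.inr (by simp [h1])
      · exact Or.inl ⟨Ioo b 1, by simp, h1, hx.2⟩)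
    have h2 : G a b z (Ioo b 1) ≤ z * G a b z (Ioo a 0) :=
      stepR fun x hx => ⟨hx.1.le, by linarith [hx.1], by linarith [hx.2]⟩
    simp only [List.map_cons, List.map_nil, List.sum_cons, List.sum_nil, List.length_cons,
      List.length_nil] at h1
    push_cast at h1
    linarith
  have i2 : G a b z (Ioo a 0) ≤ z * G a b z (Ioi 1) := by
    refine stepM fun x hx => ⟨hx.1.le, by linarith [hx.2], hx.2.ne, ?_⟩
    show 1 < -1 / x
    rw [lt_div_iff_of_neg hx.2]
    linarith [hx.1]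
  have i3 : G a b z (Ioi 1) ≤ z * (G a b z (Ioo 0 1) + G a b z (Ioi 1) + c) := by
    have h1 : G a b z (Ioi 1) ≤ z * G a b z (Ioi 0) := by
      refine stepR fun x hx => ?_
      have hx' : 1 < x := hx
      refine ⟨by linarith, ?_⟩
      show 0 < x - 1
      linarith
    have h2 := G_cover hab hz hz1 h [Ioo 0 1, Ioi 1] [1] (Ioi 0) (by
      intro x hx
      have hx' : 0 < x := hx
      rcases lt_trichotomy x 1 with h1 | h1 | h1
      · exact Or.inl ⟨Ioo 0 1, by simp, hx', h1⟩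
      · exact Or.inr (by simp [h1])
      · exact Or.inl ⟨Ioi 1, by simp, h1⟩)
    simp only [List.map_cons, List.map_nil, List.sum_cons, List.sum_nil, List.length_cons,
      List.length_nil] at h2
    push_cast at h2
    exact h1.trans (mul_le_mul_of_nonneg_left (by linarith) hz.le)
  have i4 : ∀ j : ℕ, G a b z (Iio (-((j : ℝ) + 1))) ≤ z ^ j * G a b z (Iio (-1)) := by
    intro j
    induction j with
    | zero => simp
    | succ j ih =>
      have h1 : G a b z (Iio (-(((j + 1 : ℕ) : ℝ) + 1))) ≤ z * G a b z (Iio (-((j : ℝ) + 1))) := by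
        refine stepL fun x hx => ?_
        have hj : (0 : ℝ) ≤ j := by positivity
        have hx' : x < -(((j + 1 : ℕ) : ℝ) + 1) := hx
        push_cast at hx'
        refine ⟨by linarith, ?_⟩
        show x + 1 < -((j : ℝ) + 1)
        linarith
      calc G a b z (Iio (-(((j + 1 : ℕ) : ℝ) + 1))) ≤ z * G a b z (Iio (-((j : ℝ) + 1))) := h1
        _ ≤ z * (z ^ j * G a b z (Iio (-1))) := mul_le_mul_of_nonneg_left ih hz.le
        _ = z ^ (j + 1) * G a b z (Iio (-1)) := by rw [pow_succ]; ring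
  have i5 : G a b z (Ioo 0 b) ≤ z ^ (M + 3) * G a b z (Iio (-1)) := by
    have h1 : G a b z (Ioo 0 b) ≤ z * G a b z (Iio (-(((M + 2 : ℕ) : ℝ) + 1))) := by
      refine stepM fun x hx => ⟨by linarith [hx.1], hx.2, hx.1.ne', ?_⟩
      show -1 / x < -(((M + 2 : ℕ) : ℝ) + 1)
      push_cast
      rw [div_lt_iff₀ hx.1]
      have h3 := hx.2
      rw [hb, lt_div_iff₀ hM3] at h3
      nlinarith
    calc G a b z (Ioo 0 b) ≤ z * G a b z (Iio (-(((M + 2 : ℕ) : ℝ) + 1))) := h1
      _ ≤ z * (z ^ (M + 2) * G a b z (Iio (-1))) := mul_le_mul_of_nonneg_left (i4 _) hz.le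
      _ = z ^ (M + 3) * G a b z (Iio (-1)) := by rw [pow_succ z (M + 2)]; ring
  have i6 : G a b z (Iio (-1)) ≤ z * (G a b z (Iio (-1)) + G a b z (Ioo (-1) a) +
      G a b z (Ioo a 0) + 2 * c) := by
    have h1 : G a b z (Iio (-1)) ≤ z * G a b z (Iio 0) := by
      refine stepL fun x hx => ?_
      have hx' : x < -1 := hx
      refine ⟨by linarith, ?_⟩
      show x + 1 < 0
      linarith
    have h2 := G_cover hab hz hz1 h [Iio (-1), Ioo (-1) a, Ioo a 0] [-1, a] (Iio 0) (by
      intro x hx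
      have hx' : x < 0 := hx
      rcases lt_trichotomy x (-1) with h1 | h1 | h1
      · exact Or.inl ⟨Iio (-1), by simp, h1⟩
      · exact Or.inr (by simp [h1])
      rcases lt_trichotomy x a with h2 | h2 | h2
      · exact Or.inl ⟨Ioo (-1) a, by simp, h1, h2⟩
      · exact Or.inr (by simp [h2])
      · exact Or.inl ⟨Ioo a 0, by simp, h2, hx'⟩)
    simp only [List.map_cons, List.map_nil, List.sum_cons, List.sum_nil, List.length_cons,
      List.length_nil] at h2
    push_cast at h2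
    exact h1.trans (mul_le_mul_of_nonneg_left (by linarith) hz.le)
  have i7 : G a b z (Ioo (-1) a) ≤ z * G a b z (Ioo 0 b) :=
    stepL fun x hx => ⟨hx.2, by linarith [hx.1], by linarith [hx.2]⟩
  have j1 := G_cover hab hz hz1 h [Iio (-1), Ioo (-1) a, Ioo a 0, Ioo 0 1, Ioi 1] [-1, a, 0, 1]
    univ (by
      intro x _
      rcases lt_trichotomy x (-1) with h1 | h1 | h1
      · exact Or.inl ⟨Iio (-1), by simp, h1⟩
      · exact Or.inr (by simp [h1])
      rcases lt_trichotomy x a with h2 | h2 | h2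
      · exact Or.inl ⟨Ioo (-1) a, by simp, h1, h2⟩
      · exact Or.inr (by simp [h2])
      rcases lt_trichotomy x 0 with h3 | h3 | h3
      · exact Or.inl ⟨Ioo a 0, by simp, h2, h3⟩
      · exact Or.inr (by simp [h3])
      rcases lt_trichotomy x 1 with h4 | h4 | h4
      · exact Or.inl ⟨Ioo 0 1, by simp, h3, h4⟩
      · exact Or.inr (by simp [h4])
      · exact Or.inl ⟨Ioi 1, by simp, h4⟩)
  simp only [List.map_cons, List.map_nil, List.sum_cons, List.sum_nil, List.length_cons,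
    List.length_nil] at j1
  push_cast at j1
  rw [← hcdef] at j1
  have hB0 : 0 ≤ G a b z (Ioo a 0) := G_nonneg hz _
  have hE0 : 0 ≤ G a b z (Iio (-1)) := G_nonneg hz _
  generalize G a b z (Ioo a 0) = B at *
  generalize G a b z (Iio (-1)) = E at *
  generalize G a b z (Ioo 0 1) = P at *
  generalize G a b z (Ioo 0 b) = p0 at *
  generalize G a b z (Ioo (-1) a) = q at *
  generalize G a b z (Ioi 1) = g at *
  generalize G a b z univ = T at *
  clear_value c
  generalize ht : z ^ (M + 3) = t at *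
  have ht0 : 0 ≤ t := by rw [← ht]; positivity
  have ht1 : t ≤ 1 := by rw [← ht]; exact pow_le_one₀ hz.le hz1.le
  set w := 1 - z - z ^ 2 * t with hwdef
  have hw1 : w ≤ 1 := by
    have : 0 ≤ z ^ 2 * t := by positivity
    linarith
  -- `w E ≤ z B + 2 z c`
  have k1 : w * E ≤ z * B + 2 * z * c := by
    have h1 : z * q ≤ z * (z * p0) := mul_le_mul_of_nonneg_left i7 hz.le
    have h2 : z * (z * p0) ≤ z * (z * (t * E)) :=
      mul_le_mul_of_nonneg_left (mul_le_mul_of_nonneg_left i5 hz.le) hz.le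
    rw [hwdef]
    linarith
  have k2 : (1 - z) * g ≤ z * (P + c) := by linarith
  have k3 : P ≤ t * E + z * B + c := by linarith
  have k4 : (1 - z - z ^ 3) * B ≤ z ^ 2 * (t * E) + 2 * z ^ 2 * c := by
    have h1 : (1 - z) * B ≤ z * ((1 - z) * g) := by
      have := mul_le_mul_of_nonneg_left i2 hu.le
      linarith
    have h2 : z * ((1 - z) * g) ≤ z * (z * (P + c)) := mul_le_mul_of_nonneg_left k2 hz.le
    have h3 : z * (z * (P + c)) ≤ z * (z * (t * E + z * B + c + c)) :=
      mul_le_mul_of_nonneg_left (mul_le_mul_of_nonneg_left (by linarith) hz.le) hz.le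
    linarith
  have z20 : 0 ≤ z ^ 2 := by positivity
  have z21 : z ^ 2 ≤ 1 := pow_le_one₀ hz.le hz1.le
  have z30 : 0 ≤ z ^ 3 := by positivity
  have z31 : z ^ 3 ≤ 1 := pow_le_one₀ hz.le hz1.le
  refine ⟨?_, ?_⟩
  · have h1 := mul_le_mul_of_nonneg_left k4 hw.le
    have h2 := mul_le_mul_of_nonneg_left k1 (show 0 ≤ z ^ 2 * t by positivity)
    have h3 : z ^ 2 * t * (2 * z * c) ≤ 2 * c := by
      have e : z ^ 2 * t * (2 * z * c) = z ^ 3 * (t * (2 * c)) := by ring
      rw [e]
      exact shr z30 z31 (shr ht0 ht1 le_rfl (by positivity)) (by positivity)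
    have h4 : w * (2 * z ^ 2 * c) ≤ 2 * c := by
      refine shr hw.le hw1 ?_ (by positivity)
      have : z ^ 2 * c ≤ c := shr z20 z21 le_rfl hc0.le
      linarith
    have e : (w * (1 - z - z ^ 3) - z ^ 3 * t) * B = w * ((1 - z - z ^ 3) * B) -
        z ^ 2 * t * (z * B) := by ring
    rw [e]
    linarith
  · -- the whole line
    have zB : z * B ≤ B := shr hz.le hz1.le le_rfl hB0
    have zc : z * c ≤ c := shr hz.le hz1.le le_rfl hc0.le
    have wE : w * E ≤ B + 2 * c := by linarith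
    have tE : t * E ≤ E := shr ht0 ht1 le_rfl hE0
    have qE : q ≤ E := by
      have h1 : z * p0 ≤ z * (t * E) := mul_le_mul_of_nonneg_left i5 hz.le
      have h2 : z * (t * E) ≤ E := shr hz.le hz1.le tE hE0
      linarith
    have PE : P ≤ E + B + c := by linarith
    have gE : (1 - z) * g ≤ E + B + 2 * c := by
      have h1 : z * (P + c) ≤ z * (E + B + c + c) := mul_le_mul_of_nonneg_left (by linarith) hz.le
      have h2 : z * (E + B + c + c) ≤ E + B + c + c := shr hz.le hz1.le le_rfl (by positivity)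
      linarith
    have h1 : (1 - z) * T ≤ 4 * E + 3 * B + 8 * c := by
      have h2 := mul_le_mul_of_nonneg_left j1 hu.le
      have h3 : (1 - z) * E ≤ E := shr hu.le (by linarith) le_rfl hE0
      have h4 : (1 - z) * q ≤ E := shr hu.le (by linarith) qE hE0
      have h5 : (1 - z) * B ≤ B := shr hu.le (by linarith) le_rfl hB0
      have h6 : (1 - z) * P ≤ E + B + c := shr hu.le (by linarith) PE (by positivity)
      have h7 : (1 - z) * c ≤ c := shr hu.le (by linarith) le_rfl hc0.le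
      linarith
    have h2 := mul_le_mul_of_nonneg_left h1 hw.le
    have h3 : w * (3 * B + 8 * c) ≤ 3 * B + 8 * c := shr hw.le hw1 le_rfl (by positivity)
    linarith

end Pool.Agent.H16E
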