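import Pool.Agent.H16E.Right

/-!
# Generating functions of the numbers of the points that reach `0`
-/

set_option autoImplicit false

namespace Pool.Agent.H16E

open Filter Topology Set Pool.Agent.R660.CF Pool.Agent.R294.CF

variable {a b z : ℝ}

/-- the number of the points of `S` which are mapped to `0` by `f^n` -/
noncomputable def cnt (a b : ℝ) (S : Set ℝ) (n : ℕ) : ℕ := (S ∩ {x | (f a b)^[n] x = 0}).ncard

theorem Z_finite (hab : InP a b) (n : ℕ) : {x | (f a b)^[n] x = 0}.Finite :=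
  (D_finite hab (n + 1)).subset fun _ hx => ⟨n, by omega, Or.inr (Or.inl hx)⟩

theorem cnt_le_laps (hab : InP a b) (S : Set ℝ) (n : ℕ) : cnt a b S n ≤ laps a b (n + 1) := by
  have h : (S ∩ {x | (f a b)^[n] x = 0}).ncard ≤ (D a b (n + 1)).ncard :=
    ncard_le_ncard (fun _ hx => ⟨n, by omega, Or.inr (Or.inl hx.2)⟩) (D_finite hab (n + 1))
  unfold cnt laps
  omega

theorem cnt_step (hab : InP a b) {S T : Set ℝ} (ψ : ℝ → ℝ) (k : ℕ)
    (h : ∀ y ∈ T, ψ y ∈ S ∧ (f a b)^[k] (ψ y) = y) (n : ℕ) : cnt a b T n ≤ cnt a b S (n + k) := by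
  refine ncard_le_ncard_of_injOn ψ ?_ ?_ ((Z_finite hab (n + k)).subset inter_subset_right)
  · intro y hy
    refine ⟨(h y hy.1).1, ?_⟩
    show (f a b)^[n + k] (ψ y) = 0
    rw [Function.iterate_add_apply, (h y hy.1).2]
    exact hy.2
  · intro y hy y' hy' he
    rw [← (h y hy.1).2, ← (h y' hy'.1).2, he]

theorem cnt_mono (hab : InP a b) {S T : Set ℝ} (h : S ⊆ T) (n : ℕ) : cnt a b S n ≤ cnt a b T n :=
  ncard_le_ncard (inter_subset_inter_left _ h) ((Z_finite hab n).subset inter_subset_right)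

theorem cnt_add (hab : InP a b) {S T U : Set ℝ} (hST : Disjoint S T) (hS : S ⊆ U) (hT : T ⊆ U)
    (n : ℕ) : cnt a b S n + cnt a b T n ≤ cnt a b U n := by
  unfold cnt
  have hf := Z_finite hab n
  rw [← ncard_union_eq (hST.mono inter_subset_left inter_subset_left)
    (hf.subset inter_subset_right) (hf.subset inter_subset_right)]
  refine ncard_le_ncard ?_ (hf.subset inter_subset_right)
  rintro x (hx | hx)
  · exact ⟨hS hx.1, hx.2⟩
  · exact ⟨hT hx.1, hx.2⟩

/-- the generating function of `cnt` -/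
noncomputable def G (a b z : ℝ) (S : Set ℝ) : ℝ := ∑' n, (cnt a b S n : ℝ) * z ^ n

theorem summable_laps (hab : InP a b) (hz : 0 < z) (h : z * Real.exp (ent a b) < 1) :
    Summable fun n : ℕ => (laps a b (n + 1) : ℝ) * z ^ n := by
  have hs : Summable fun n : ℕ => (laps a b n : ℝ) * z ^ n := by
    obtain ⟨h2, hh, hh2⟩ : ∃ h2, ent a b < h2 ∧ z * Real.exp h2 < 1 := by
      have hc : ContinuousAt (fun t : ℝ => z * Real.exp t) (ent a b) := by fun_prop
      have h1 : ∀ᶠ t in 𝓝 (ent a b), z * Real.exp t < 1 := hc.eventually (gt_mem_nhds h)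
      obtain ⟨t, ht1, ht2⟩ := ((h1.filter_mono nhdsWithin_le_nhds).and
        (self_mem_nhdsWithin : Ioi (ent a b) ∈ 𝓝[>] (ent a b))).exists
      exact ⟨t, ht2, ht1⟩
    have hev : ∀ᶠ n : ℕ in atTop, Real.log (laps a b n) / n < h2 :=
      (ent_spec hab).eventually (gt_mem_nhds hh)
    have hge : Summable fun n : ℕ => (z * Real.exp h2) ^ n :=
      summable_geometric_of_lt_one (by positivity) hh2
    refine Summable.of_norm_bounded_eventually_nat hge ?_
    filter_upwards [hev, eventually_gt_atTop 0] with n hn hn0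
    have hn' : (0 : ℝ) < n := by exact_mod_cast hn0
    have hl : (0 : ℝ) < laps a b n := by exact_mod_cast laps_pos a b n
    rw [Real.norm_of_nonneg (by positivity), mul_pow, mul_comm]
    have h3 : Real.log (laps a b n) ≤ n * h2 := by
      rw [div_lt_iff₀ hn'] at hn
      linarith
    have h4 : (laps a b n : ℝ) ≤ Real.exp h2 ^ n := by
      rw [← Real.exp_nat_mul, ← Real.exp_log hl]
      exact Real.exp_le_exp.2 h3
    gcongr
  have h5 := ((summable_nat_add_iff 1).2 hs).mul_left z⁻¹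
  refine h5.congr fun n => ?_
  rw [pow_succ]
  field_simp

theorem G_summable (hab : InP a b) (hz : 0 < z) (h : z * Real.exp (ent a b) < 1) (S : Set ℝ) :
    Summable fun n : ℕ => (cnt a b S n : ℝ) * z ^ n := by
  refine Summable.of_nonneg_of_le (fun n => by positivity) (fun n => ?_) (summable_laps hab hz h)
  have : (cnt a b S n : ℝ) ≤ laps a b (n + 1) := by exact_mod_cast cnt_le_laps hab S n
  gcongr

theorem G_nonneg (hz : 0 < z) (S : Set ℝ) : 0 ≤ G a b z S :=
  tsum_nonneg fun n => by positivity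

theorem G_step (hab : InP a b) (hz : 0 < z) (h : z * Real.exp (ent a b) < 1) {S T : Set ℝ}
    (ψ : ℝ → ℝ) (k : ℕ) (hψ : ∀ y ∈ T, ψ y ∈ S ∧ (f a b)^[k] (ψ y) = y) :
    z ^ k * G a b z T ≤ G a b z S := by
  have hs := G_summable hab hz h S
  have ht := G_summable hab hz h T
  unfold G
  rw [← tsum_mul_left, ← hs.sum_add_tsum_nat_add k]
  have h1 : 0 ≤ ∑ i ∈ Finset.range k, (cnt a b S i : ℝ) * z ^ i :=
    Finset.sum_nonneg fun i _ => by positivity
  have h2 : ∑' n, z ^ k * ((cnt a b T n : ℝ) * z ^ n) ≤ ∑' n, (cnt a b S (n + k) : ℝ) * z ^ (n + k) := by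
    refine Summable.tsum_le_tsum (fun n => ?_) (ht.mul_left _) ((summable_nat_add_iff k).2 hs)
    have h3 : (cnt a b T n : ℝ) ≤ cnt a b S (n + k) := by exact_mod_cast cnt_step hab ψ k hψ n
    calc z ^ k * ((cnt a b T n : ℝ) * z ^ n) = (cnt a b T n : ℝ) * z ^ (n + k) := by
          rw [pow_add]; ring
      _ ≤ _ := by gcongr
  linarith

theorem G_add (hab : InP a b) (hz : 0 < z) (h : z * Real.exp (ent a b) < 1) {S T U : Set ℝ}
    (hST : Disjoint S T) (hS : S ⊆ U) (hT : T ⊆ U) : G a b z S + G a b z T ≤ G a b z U := by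
  have hs := G_summable hab hz h S
  have ht := G_summable hab hz h T
  unfold G
  rw [← hs.tsum_add ht]
  refine Summable.tsum_le_tsum (fun n => ?_) (hs.add ht) (G_summable hab hz h U)
  have h3 : (cnt a b S n : ℝ) + cnt a b T n ≤ cnt a b U n := by
    exact_mod_cast cnt_add hab hST hS hT n
  have : 0 ≤ z ^ n := by positivity
  nlinarith

theorem G_pos (hab : InP a b) (hz : 0 < z) (h : z * Real.exp (ent a b) < 1) {S : Set ℝ} {x : ℝ}
    (hx : x ∈ S) {n : ℕ} (hn : (f a b)^[n] x = 0) : 0 < G a b z S := by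
  have hs := G_summable hab hz h S
  have h1 : (cnt a b S n : ℝ) * z ^ n ≤ G a b z S := hs.le_tsum n fun m _ => by positivity
  have h2 : 0 < cnt a b S n := by
    unfold cnt
    rw [ncard_pos ((Z_finite hab n).subset inter_subset_right)]
    exact ⟨x, hx, hn⟩
  have h3 : (0 : ℝ) < cnt a b S n := by exact_mod_cast h2
  have : 0 < (cnt a b S n : ℝ) * z ^ n := by positivity
  linarith

end Pool.Agent.H16E
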