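import Pool.Agent.H16E.Gen

/-!
# Upper estimates of the generating functions
-/

set_option autoImplicit false

namespace Pool.Agent.H16E

open Filter Topology Set Pool.Agent.R660.CF Pool.Agent.R294.CF

variable {a b z : ℝ}

theorem G_union_le (hab : InP a b) (hz : 0 < z) (h : z * Real.exp (ent a b) < 1) {S T U : Set ℝ}
    (hS : S ⊆ T ∪ U) : G a b z S ≤ G a b z T + G a b z U := by
  have ht := G_summable hab hz h T
  have hu := G_summable hab hz h U
  unfold G
  rw [← ht.tsum_add hu]
  refine Summable.tsum_le_tsum (fun n => ?_) (G_summable hab hz h S) (ht.add hu)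
  have h3 : cnt a b S n ≤ cnt a b T n + cnt a b U n := by
    unfold cnt
    have hf := Z_finite hab n
    refine le_trans (ncard_le_ncard (t := (T ∩ {x | (f a b)^[n] x = 0}) ∪
      (U ∩ {x | (f a b)^[n] x = 0})) ?_ (hf.subset ?_)) (ncard_union_le _ _)
    · rintro x ⟨hx1, hx2⟩
      rcases hS hx1 with h' | h'
      · exact Or.inl ⟨h', hx2⟩
      · exact Or.inr ⟨h', hx2⟩
    · rintro x (hx | hx)
      · exact hx.2
      · exact hx.2
  have h4 : (cnt a b S n : ℝ) ≤ cnt a b T n + cnt a b U n := by exact_mod_cast h3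
  have : 0 ≤ z ^ n := by positivity
  nlinarith

theorem G_point (hab : InP a b) (hz : 0 < z) (hz1 : z < 1) (h : z * Real.exp (ent a b) < 1)
    (p : ℝ) : G a b z {p} ≤ (1 - z)⁻¹ := by
  unfold G
  rw [← tsum_geometric_of_lt_one hz.le hz1]
  refine Summable.tsum_le_tsum (fun n => ?_) (G_summable hab hz h _)
    (summable_geometric_of_lt_one hz.le hz1)
  have h3 : cnt a b {p} n ≤ 1 := by
    unfold cnt
    refine (ncard_le_ncard inter_subset_left (finite_singleton p)).trans ?_
    rw [ncard_singleton]
  have h4 : (cnt a b {p} n : ℝ) ≤ 1 := by exact_mod_cast h3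
  have : 0 ≤ z ^ n := by positivity
  nlinarith

theorem G_empty (hab : InP a b) : G a b z ∅ = 0 := by
  unfold G cnt
  simp

theorem G_cover (hab : InP a b) (hz : 0 < z) (hz1 : z < 1) (h : z * Real.exp (ent a b) < 1)
    (L : List (Set ℝ)) (Fl : List ℝ) : ∀ S : Set ℝ, (∀ x ∈ S, (∃ T ∈ L, x ∈ T) ∨ x ∈ Fl) →
      G a b z S ≤ (L.map (G a b z)).sum + Fl.length * (1 - z)⁻¹ := by
  induction L with
  | nil =>
    induction Fl with
    | nil =>
      intro S hS
      have : S = ∅ := by
        ext x
        constructor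
        · intro hx
          have := hS x hx
          simp at this
        · exact fun hx => hx.elim
      rw [this, G_empty hab]
      simp
    | cons p Fl ih =>
      intro S hS
      have h1 := G_union_le hab hz h (S := S) (T := {p}) (U := S \ {p}) (fun x hx => by
        by_cases hp : x = p
        · exact Or.inl hp
        · exact Or.inr ⟨hx, hp⟩)
      have h2 := ih (S \ {p}) (fun x hx => by
        have := hS x hx.1
        simp only [List.not_mem_nil, false_and, exists_false, false_or, List.mem_cons] at this ⊢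
        rcases this with h' | h'
        · exact absurd h' hx.2
        · exact h')
      have h3 := G_point hab hz hz1 h p
      simp only [List.map_nil, List.sum_nil, List.length_cons] at h2 ⊢
      push_cast
      linarith
  | cons T L ih =>
    intro S hS
    have h1 := G_union_le hab hz h (S := S) (T := T) (U := S \ T) (fun x hx => by
      by_cases hp : x ∈ T
      · exact Or.inl hp
      · exact Or.inr ⟨hx, hp⟩)
    have h2 := ih (S \ T) (fun x hx => by
      rcases hS x hx.1 with ⟨T', hT', hx'⟩ | h'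
      · rcases List.mem_cons.1 hT' with h'' | h''
        · subst h''
          exact absurd hx' hx.2
        · exact Or.inl ⟨T', h'', hx'⟩
      · exact Or.inr h')
    simp only [List.map_cons, List.sum_cons] at h2 ⊢
    linarith

theorem G_le_step (hab : InP a b) (hz : 0 < z) (h : z * Real.exp (ent a b) < 1) {S T : Set ℝ}
    (ψ : ℝ → ℝ) (hST : ∀ x ∈ S, x ≠ 0 ∧ f a b x ∈ T ∧ ψ (f a b x) = x) :
    G a b z S ≤ z * G a b z T := by
  have hs := G_summable hab hz h S
  have ht := G_summable hab hz h T
  unfold G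
  rw [← tsum_mul_left, ← hs.sum_add_tsum_nat_add 1, Finset.sum_range_one]
  have h0 : cnt a b S 0 = 0 := by
    unfold cnt
    have : S ∩ {x | (f a b)^[0] x = 0} = ∅ := by
      ext x
      constructor
      · rintro ⟨h1, h2⟩
        exact (hST x h1).1 h2
      · exact fun hx => hx.elim
    rw [this, ncard_empty]
  rw [h0, Nat.cast_zero, zero_mul, zero_add]
  refine Summable.tsum_le_tsum (fun n => ?_) ((summable_nat_add_iff 1).2 hs) (ht.mul_left _)
  have h3 : cnt a b S (n + 1) ≤ cnt a b T n := by
    refine ncard_le_ncard_of_injOn (f a b) ?_ ?_ ((Z_finite hab n).subset inter_subset_right)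
    · intro x hx
      refine ⟨(hST x hx.1).2.1, ?_⟩
      have h5 : (f a b)^[n + 1] x = 0 := hx.2
      rw [Function.iterate_succ_apply] at h5
      exact h5
    · intro x hx y hy he
      rw [← (hST x hx.1).2.2, ← (hST y hy.1).2.2, he]
  have h4 : (cnt a b S (n + 1) : ℝ) ≤ cnt a b T n := by exact_mod_cast h3
  calc (cnt a b S (n + 1) : ℝ) * z ^ (n + 1) ≤ (cnt a b T n : ℝ) * z ^ (n + 1) := by gcongr
    _ = z * ((cnt a b T n : ℝ) * z ^ n) := by rw [pow_succ]; ring

/-- Lower estimate of the generating function of the whole line, if `a` and `b` are eventually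
mapped to the fixed point `0`. -/
theorem G_univ_ge (hab : InP a b) (hz : 0 < z) (hz1 : z < 1) (h : z * Real.exp (ent a b) < 1)
    (c0 : ℕ) (h0 : f a b 0 = 0) (ha : (f a b)^[c0] a = 0) (hb : (f a b)^[c0] b = 0) :
    z ^ c0 * (1 - z * Real.exp (ent a b))⁻¹ ≤ G a b z univ + (1 - z)⁻¹ := by
  have hfix : ∀ m : ℕ, (f a b)^[m] 0 = 0 := by
    intro m
    induction m with
    | zero => rfl
    | succ m ih => rw [Function.iterate_succ_apply, h0, ih]
  have hsub : ∀ n : ℕ, laps a b n ≤ cnt a b univ (n + c0) + 1 := by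
    intro n
    unfold laps cnt
    refine Nat.succ_le_succ (ncard_le_ncard ?_ ((Z_finite hab _).subset inter_subset_right))
    rintro x ⟨j, hj, hx⟩
    refine ⟨mem_univ _, ?_⟩
    have hj0 : (f a b)^[c0] ((f a b)^[j] x) = 0 := by
      rcases hx with hx | hx | hx
      · rw [hx]; exact ha
      · rw [hx]; exact hfix _
      · rw [hx]; exact hb
    show (f a b)^[n + c0] x = 0
    rw [show n + c0 = (n - j) + (c0 + j) by omega, Function.iterate_add_apply,
      Function.iterate_add_apply, hj0]
    exact hfix _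
  have hlow : ∀ n : ℕ, Real.exp (ent a b) ^ n ≤ laps a b n := by
    intro n
    rcases Nat.eq_zero_or_pos n with hn | hn
    · subst hn
      rw [pow_zero]
      exact_mod_cast laps_pos a b 0
    · have h1 := ent_le hab hn.ne'
      have hn' : (0 : ℝ) < n := by exact_mod_cast hn
      have hl : (0 : ℝ) < laps a b n := by exact_mod_cast laps_pos a b n
      rw [le_div_iff₀ hn'] at h1
      rw [← Real.exp_nat_mul, ← Real.exp_log hl, Real.exp_log hl]
      calc Real.exp (n * ent a b) ≤ Real.exp (Real.log (laps a b n)) :=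
            Real.exp_le_exp.2 (by linarith)
        _ = laps a b n := Real.exp_log hl
  have hE : 0 < Real.exp (ent a b) := Real.exp_pos _
  have hg1 : Summable fun n : ℕ => (z * Real.exp (ent a b)) ^ n :=
    summable_geometric_of_lt_one (by positivity) h
  have hg2 : Summable fun n : ℕ => z ^ n := summable_geometric_of_lt_one hz.le hz1
  have hs := G_summable hab hz h univ
  have hs' := (summable_nat_add_iff c0).2 hs
  have key : ∑' n : ℕ, z ^ c0 * (z * Real.exp (ent a b)) ^ n ≤
      ∑' n : ℕ, ((cnt a b univ (n + c0) : ℝ) * z ^ (n + c0) + z ^ c0 * z ^ n) := by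
    refine Summable.tsum_le_tsum (fun n => ?_) (hg1.mul_left _) (hs'.add (hg2.mul_left _))
    have h1 : (laps a b n : ℝ) ≤ cnt a b univ (n + c0) + 1 := by exact_mod_cast hsub n
    have h2 := hlow n
    have h3 : z ^ c0 * (z * Real.exp (ent a b)) ^ n = z ^ (n + c0) * Real.exp (ent a b) ^ n := by
      rw [mul_pow, pow_add]; ring
    have h4 : z ^ c0 * z ^ n = z ^ (n + c0) := by rw [pow_add]; ring
    rw [h3, h4]
    have h5 : 0 ≤ z ^ (n + c0) := by positivity
    nlinarith
  rw [tsum_mul_left, tsum_geometric_of_lt_one (by positivity) h,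
    hs'.tsum_add (hg2.mul_left _), tsum_mul_left, tsum_geometric_of_lt_one hz.le hz1] at key
  have h6 : ∑' n : ℕ, (cnt a b univ (n + c0) : ℝ) * z ^ (n + c0) ≤ G a b z univ := by
    unfold G
    rw [← hs.sum_add_tsum_nat_add c0]
    have : 0 ≤ ∑ i ∈ Finset.range c0, (cnt a b univ i : ℝ) * z ^ i :=
      Finset.sum_nonneg fun i _ => by positivity
    linarith
  have h7 : z ^ c0 * (1 - z)⁻¹ ≤ (1 - z)⁻¹ := by
    have : z ^ c0 ≤ 1 := pow_le_one₀ hz.le hz1.le
    have h8 : 0 ≤ (1 - z)⁻¹ := inv_nonneg.2 (by linarith)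
    nlinarith
  linarith

end Pool.Agent.H16E
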