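import Pool.Agent.H16E.GenUp
import Pool.Agent.H16E.Alg

/-!
# The parameters with the largest entropy
-/

set_option autoImplicit false

namespace Pool.Agent.H16E

open Filter Topology Set Pool.Agent.R660.CF Pool.Agent.R294.CF

variable {z : ℝ}

/-- data of the parameter `b = (m+2)/(2m+5)`, `a = b - 1` -/
structure Dat (m a b r s : ℝ) : Prop where
  m0 : 0 ≤ m
  ab : a = b - 1
  b0 : 0 < b
  b12 : b < 1 / 2
  r0 : r < 0
  rs : s < r
  sa : a < s
  br : b < 1 + r
  s1 : s - 1 < -1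
  ib : -1 / b = s - 2
  ia : -1 / a = r + 2
  ir : -1 / r = m + 3
  is : -1 / s = m + 2

theorem dat (M : ℕ) : Dat M (-((M : ℝ) + 3) / (2 * M + 5)) (((M : ℝ) + 2) / (2 * M + 5))
    (-1 / ((M : ℝ) + 3)) (-1 / ((M : ℝ) + 2)) := by
  have hM : (0 : ℝ) ≤ M := by positivity
  have h2 : (0 : ℝ) < (M : ℝ) + 2 := by positivity
  have h3 : (0 : ℝ) < (M : ℝ) + 3 := by positivity
  have h5 : (0 : ℝ) < 2 * (M : ℝ) + 5 := by positivity
  refine ⟨hM, ?_, by positivity, ?_, ?_, ?_, ?_, ?_, ?_, ?_, ?_, ?_, ?_⟩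
  · field_simp; ring
  · rw [div_lt_div_iff₀ h5 (by norm_num)]; linarith
  · exact div_neg_of_neg_of_pos (by norm_num) h3
  · rw [div_lt_div_iff₀ h2 h3]; linarith
  · rw [div_lt_div_iff₀ h5 h2]; nlinarith
  · rw [show 1 + -1 / ((M : ℝ) + 3) = (M + 2) / (M + 3) by field_simp; ring,
      div_lt_div_iff₀ h5 h3]
    nlinarith
  · have := div_neg_of_neg_of_pos (show (-1 : ℝ) < 0 by norm_num) h2
    linarith
  · field_simp; ring
  · rw [div_div_eq_mul_div, div_eq_iff (by linarith)]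
    field_simp; ring
  · field_simp
  · field_simp

theorem Dat.inP {m a b r s : ℝ} (d : Dat m a b r s) : InP a b :=
  ⟨by linarith [d.ab, d.b12], d.b0.le, by linarith [d.ab], by nlinarith [d.ab, d.b0, d.b12]⟩

theorem neg_inv_lt {x y : ℝ} (h : x < y) (hy : y < 0) : -1 / x < -1 / y := by
  rw [neg_div, neg_div, neg_lt_neg_iff]
  exact one_div_lt_one_div_of_neg_of_lt hy h

theorem neg_inv_lt' {x y : ℝ} (h : x < y) (hx : 0 < x) : -1 / x < -1 / y := by
  rw [neg_div, neg_div, neg_lt_neg_iff]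
  exact one_div_lt_one_div_of_lt hx h

theorem inv_inv' (x : ℝ) (hx : x ≠ 0) : -1 / (-1 / x) = x := by field_simp

/-- The estimates of the generating functions. -/
theorem estimates (M : ℕ) {a b r s : ℝ} (d : Dat M a b r s) (hz : 0 < z) (hz1 : z < 1)
    (hv : 0 < 1 - z - z ^ 4) (hc3 : (1 - z)⁻¹ ≤ 3) (h : z * Real.exp (ent a b) < 1) :
    FF z (z ^ (M + 2)) * G a b z (Ioo 0 1) ≤ 2 * M + 21 ∧
    (1 - z) * ((1 - z - z ^ 4) * G a b z univ) ≤ 15 * G a b z (Ioo 0 1) + (4 * M + 46) := by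
  have hab := d.inP
  obtain ⟨m0, dab, b0, b12, r0, rs, sa, br, s1, ib, ia, ir, is⟩ := d
  have a0 : a < 0 := by linarith
  have hu : 0 < 1 - z := by linarith
  set c := (1 - z)⁻¹ with hcdef
  have hc : (1 - z) * c = 1 := mul_inv_cancel₀ hu.ne'
  have hc0 : 0 < c := inv_pos.2 hu
  set P := G a b z (Ioo 0 1) with hPdef
  have hP0 : 0 ≤ P := G_nonneg hz _
  -- the branches
  have stepL : ∀ {S T : Set ℝ}, (∀ x ∈ S, x < a ∧ x + 1 ∈ T) → G a b z S ≤ z * G a b z T := by
    intro S T hST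
    refine G_le_step hab hz h (fun y => y - 1) fun x hx => ?_
    obtain ⟨h1, h2⟩ := hST x hx
    rw [f_lt h1]
    exact ⟨by linarith, h2, by ring⟩
  have stepR : ∀ {S T : Set ℝ}, (∀ x ∈ S, b ≤ x ∧ x - 1 ∈ T) → G a b z S ≤ z * G a b z T := by
    intro S T hST
    refine G_le_step hab hz h (fun y => y + 1) fun x hx => ?_
    obtain ⟨h1, h2⟩ := hST x hx
    rw [f_ge hab h1]
    exact ⟨by linarith, h2, by ring⟩
  have stepM : ∀ {S T : Set ℝ}, (∀ x ∈ S, a ≤ x ∧ x < b ∧ x ≠ 0 ∧ -1 / x ∈ T) →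
      G a b z S ≤ z * G a b z T := by
    intro S T hST
    refine G_le_step hab hz h (fun y => -1 / y) fun x hx => ?_
    obtain ⟨h1, h2, h3, h4⟩ := hST x hx
    rw [f_mid h1 h2]
    exact ⟨h3, h4, inv_inv' x h3⟩
  -- (i)
  have i1 : P ≤ G a b z (Ioo 0 b) + G a b z (Ioo b (1 + r)) + G a b z (Ioo (1 + r) 1) + 2 * c := by
    have := G_cover hab hz hz1 h [Ioo 0 b, Ioo b (1 + r), Ioo (1 + r) 1] [b, 1 + r] (Ioo 0 1) (by
      intro x hx
      rcases lt_trichotomy x b with h1 | h1 | h1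
      · exact Or.inl ⟨Ioo 0 b, by simp, hx.1, h1⟩
      · exact Or.inr (by simp [h1])
      rcases lt_trichotomy x (1 + r) with h2 | h2 | h2
      · exact Or.inl ⟨Ioo b (1 + r), by simp, h1, h2⟩
      · exact Or.inr (by simp [h2])
      · exact Or.inl ⟨Ioo (1 + r) 1, by simp, h2, hx.2⟩)
    simp only [List.map_cons, List.map_nil, List.sum_cons, List.sum_nil, List.length_cons,
      List.length_nil] at this
    push_cast at this
    linarith
  -- (ii)
  have i2 : ∀ j : ℕ, G a b z (Ioo (j : ℝ) (j + 1)) ≤ z ^ j * P := by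
    intro j
    induction j with
    | zero => simp [hPdef]
    | succ j ih =>
      have h1 : G a b z (Ioo ((j + 1 : ℕ) : ℝ) ((j + 1 : ℕ) + 1)) ≤
          z * G a b z (Ioo (j : ℝ) (j + 1)) := by
        refine stepR fun x hx => ?_
        have hj : (0 : ℝ) ≤ j := by positivity
        obtain ⟨h1, h2⟩ := hx
        push_cast at h1 h2
        exact ⟨by linarith, by linarith, by linarith⟩
      calc G a b z (Ioo ((j + 1 : ℕ) : ℝ) ((j + 1 : ℕ) + 1)) ≤
          z * G a b z (Ioo (j : ℝ) (j + 1)) := h1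
        _ ≤ z * (z ^ j * P) := mul_le_mul_of_nonneg_left ih hz.le
        _ = z ^ (j + 1) * P := by rw [pow_succ]; ring
  have i2' : G a b z (Ioo ((M : ℝ) + 2) (M + 3)) ≤ z ^ (M + 2) * P := by
    have := i2 (M + 2)
    push_cast at this
    rwa [show (M : ℝ) + 2 + 1 = M + 3 by ring] at this
  -- (iii)
  have i3 : G a b z (Ioi ((M : ℝ) + 3)) ≤ z * (z ^ (M + 2) * P + G a b z (Ioi ((M : ℝ) + 3)) + c) := by
    have h1 : G a b z (Ioi ((M : ℝ) + 3)) ≤ z * G a b z (Ioi ((M : ℝ) + 2)) := by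
      refine stepR fun x hx => ?_
      have : (M : ℝ) + 3 < x := hx
      refine ⟨by linarith, ?_⟩
      show (M : ℝ) + 2 < x - 1
      linarith
    have h2 := G_cover hab hz hz1 h [Ioo ((M : ℝ) + 2) (M + 3), Ioi ((M : ℝ) + 3)] [(M : ℝ) + 3]
      (Ioi ((M : ℝ) + 2)) (by
      intro x hx
      have hx' : (M : ℝ) + 2 < x := hx
      rcases lt_trichotomy x ((M : ℝ) + 3) with h1 | h1 | h1
      · exact Or.inl ⟨Ioo ((M : ℝ) + 2) (M + 3), by simp, hx', h1⟩
      · exact Or.inr (by simp [h1])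
      · exact Or.inl ⟨Ioi ((M : ℝ) + 3), by simp, h1⟩)
    simp only [List.map_cons, List.map_nil, List.sum_cons, List.sum_nil, List.length_cons,
      List.length_nil] at h2
    push_cast at h2
    refine h1.trans (mul_le_mul_of_nonneg_left ?_ hz.le)
    linarith
  -- (iv)
  have i4 : G a b z (Ioo r 0) ≤ z * G a b z (Ioi ((M : ℝ) + 3)) := by
    refine stepM fun x hx => ⟨by linarith [hx.1], by linarith [hx.2], hx.2.ne, ?_⟩
    show (M : ℝ) + 3 < -1 / x
    rw [← ir]
    exact neg_inv_lt hx.1 hx.2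
  have i5 : G a b z (Ioo s r) ≤ z * (z ^ (M + 2) * P) := by
    have h1 : G a b z (Ioo s r) ≤ z * G a b z (Ioo ((M : ℝ) + 2) (M + 3)) := by
      refine stepM fun x hx => ⟨by linarith [hx.1], by linarith [hx.2], by linarith [hx.2], ?_⟩
      rw [← ir, ← is]
      exact ⟨neg_inv_lt hx.1 (by linarith [hx.2]), neg_inv_lt hx.2 r0⟩
    exact h1.trans (mul_le_mul_of_nonneg_left i2' hz.le)
  have i6 : G a b z (Ioo (1 + r) 1) ≤ z * G a b z (Ioo r 0) :=
    stepR fun x hx => ⟨by linarith [hx.1], by linarith [hx.1], by linarith [hx.2]⟩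
  have i7 : G a b z (Ioo (2 + r) 2) ≤ z * G a b z (Ioo (1 + r) 1) :=
    stepR fun x hx => ⟨by linarith [hx.1], by linarith [hx.1], by linarith [hx.2]⟩
  -- (viii)
  have i8 : ∀ i : ℕ, G a b z (Ioo 2 (2 + (i : ℝ))) ≤
      (∑ j ∈ Finset.range i, z ^ (2 + j)) * P + i * c := by
    intro i
    induction i with
    | zero =>
      have e : Ioo (2 : ℝ) (2 + ((0 : ℕ) : ℝ)) = ∅ := by simp
      rw [e, G_empty hab]
      simp
    | succ i ih =>
      have h1 := G_cover hab hz hz1 h [Ioo 2 (2 + (i : ℝ)), Ioo (2 + (i : ℝ)) (2 + i + 1)]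
        [2 + (i : ℝ)] (Ioo 2 (2 + ((i + 1 : ℕ) : ℝ))) (by
        intro x hx
        obtain ⟨hx1, hx2⟩ := hx
        push_cast at hx2
        rcases lt_trichotomy x (2 + (i : ℝ)) with h1 | h1 | h1
        · exact Or.inl ⟨Ioo 2 (2 + (i : ℝ)), by simp, hx1, h1⟩
        · exact Or.inr (by simp [h1])
        · exact Or.inl ⟨Ioo (2 + (i : ℝ)) (2 + i + 1), by simp, h1, by linarith⟩)
      have h2 := i2 (2 + i)
      push_cast at h2
      simp only [List.map_cons, List.map_nil, List.sum_cons, List.sum_nil, List.length_cons,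
        List.length_nil] at h1
      rw [Finset.sum_range_succ]
      push_cast at h1 ⊢
      linarith
  -- (ix)
  have i9 : G a b z (Ioo a s) ≤ z * (z * G a b z (Ioo (1 + r) 1) +
      ((∑ j ∈ Finset.range M, z ^ (2 + j)) * P + M * c) + c) := by
    have h1 : G a b z (Ioo a s) ≤ z * G a b z (Ioo (2 + r) ((M : ℝ) + 2)) := by
      refine stepM fun x hx => ⟨hx.1.le, by linarith [hx.2], by linarith [hx.2], ?_⟩
      rw [← is, show 2 + r = -1 / a by rw [ia]; ring]
      exact ⟨neg_inv_lt hx.1 (by linarith [hx.2]), neg_inv_lt hx.2 (by linarith)⟩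
    have h2 := G_cover hab hz hz1 h [Ioo (2 + r) 2, Ioo 2 (2 + (M : ℝ))] [2]
      (Ioo (2 + r) ((M : ℝ) + 2)) (by
      intro x hx
      rcases lt_trichotomy x 2 with h1 | h1 | h1
      · exact Or.inl ⟨Ioo (2 + r) 2, by simp, hx.1, h1⟩
      · exact Or.inr (by simp [h1])
      · exact Or.inl ⟨Ioo 2 (2 + (M : ℝ)), by simp, h1, by linarith [hx.2]⟩)
    simp only [List.map_cons, List.map_nil, List.sum_cons, List.sum_nil, List.length_cons,
      List.length_nil] at h2
    push_cast at h2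
    have h3 := i8 M
    refine h1.trans (mul_le_mul_of_nonneg_left ?_ hz.le)
    linarith
  -- (x)
  have i10 : G a b z (Ioo b (1 + r)) ≤ z * (G a b z (Ioo a s) + G a b z (Ioo s r) + c) := by
    have h1 : G a b z (Ioo b (1 + r)) ≤ z * G a b z (Ioo a r) :=
      stepR fun x hx => ⟨hx.1.le, by linarith [hx.1], by linarith [hx.2]⟩
    have h2 := G_cover hab hz hz1 h [Ioo a s, Ioo s r] [s] (Ioo a r) (by
      intro x hx
      rcases lt_trichotomy x s with h1 | h1 | h1
      · exact Or.inl ⟨Ioo a s, by simp, hx.1, h1⟩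
      · exact Or.inr (by simp [h1])
      · exact Or.inl ⟨Ioo s r, by simp, h1, hx.2⟩)
    simp only [List.map_cons, List.map_nil, List.sum_cons, List.sum_nil, List.length_cons,
      List.length_nil] at h2
    push_cast at h2
    refine h1.trans (mul_le_mul_of_nonneg_left ?_ hz.le)
    linarith
  -- (xi)
  have i11 : G a b z (Iio (s - 2)) ≤ z * G a b z (Iio (s - 1)) := by
    refine stepL fun x hx => ?_
    have : x < s - 2 := hx
    refine ⟨by linarith, ?_⟩
    show x + 1 < s - 1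
    linarith
  have i12 : G a b z (Iio (s - 1)) ≤ z * G a b z (Iio (s - 1)) +
      z * (G a b z (Ioo (s - 1) a) + G a b z (Ioo a s) + c) + c := by
    have h1 := G_cover hab hz hz1 h [Iio (s - 2), Ioo (s - 2) (s - 1)] [s - 2] (Iio (s - 1)) (by
      intro x hx
      have hx' : x < s - 1 := hx
      rcases lt_trichotomy x (s - 2) with h1 | h1 | h1
      · exact Or.inl ⟨Iio (s - 2), by simp, h1⟩
      · exact Or.inr (by simp [h1])
      · exact Or.inl ⟨Ioo (s - 2) (s - 1), by simp, h1, hx'⟩)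
    have h2 : G a b z (Ioo (s - 2) (s - 1)) ≤ z * G a b z (Ioo (s - 1) s) :=
      stepL fun x hx => ⟨by linarith [hx.2], by linarith [hx.1], by linarith [hx.2]⟩
    have h3 := G_cover hab hz hz1 h [Ioo (s - 1) a, Ioo a s] [a] (Ioo (s - 1) s) (by
      intro x hx
      rcases lt_trichotomy x a with h1 | h1 | h1
      · exact Or.inl ⟨Ioo (s - 1) a, by simp, hx.1, h1⟩
      · exact Or.inr (by simp [h1])
      · exact Or.inl ⟨Ioo a s, by simp, h1, hx.2⟩)
    simp only [List.map_cons, List.map_nil, List.sum_cons, List.sum_nil, List.length_cons,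
      List.length_nil] at h1 h3
    push_cast at h1 h3
    have h4 : z * G a b z (Ioo (s - 1) s) ≤
        z * (G a b z (Ioo (s - 1) a) + G a b z (Ioo a s) + c) :=
      mul_le_mul_of_nonneg_left (by linarith) hz.le
    linarith
  -- (xii)
  have i13 : G a b z (Ioo (s - 1) a) ≤ z * (G a b z (Ioo s r) + G a b z (Ioo r 0) +
      G a b z (Ioo 0 b) + 2 * c) := by
    have h1 : G a b z (Ioo (s - 1) a) ≤ z * G a b z (Ioo s b) :=
      stepL fun x hx => ⟨hx.2, by linarith [hx.1], by linarith [hx.2]⟩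
    have h2 := G_cover hab hz hz1 h [Ioo s r, Ioo r 0, Ioo 0 b] [r, 0] (Ioo s b) (by
      intro x hx
      rcases lt_trichotomy x r with h1 | h1 | h1
      · exact Or.inl ⟨Ioo s r, by simp, hx.1, h1⟩
      · exact Or.inr (by simp [h1])
      rcases lt_trichotomy x 0 with h2 | h2 | h2
      · exact Or.inl ⟨Ioo r 0, by simp, h1, h2⟩
      · exact Or.inr (by simp [h2])
      · exact Or.inl ⟨Ioo 0 b, by simp, h2, hx.2⟩)
    simp only [List.map_cons, List.map_nil, List.sum_cons, List.sum_nil, List.length_cons,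
      List.length_nil] at h2
    push_cast at h2
    refine h1.trans (mul_le_mul_of_nonneg_left ?_ hz.le)
    linarith
  -- (xiii)
  have i14 : G a b z (Ioo 0 b) ≤ z * (z * G a b z (Iio (s - 1))) := by
    have h1 : G a b z (Ioo 0 b) ≤ z * G a b z (Iio (s - 2)) := by
      refine stepM fun x hx => ⟨by linarith [hx.1], hx.2, hx.1.ne', ?_⟩
      show -1 / x < s - 2
      rw [← ib]
      exact neg_inv_lt' hx.2 hx.1
    exact h1.trans (mul_le_mul_of_nonneg_left i11 hz.le)
  -- the sum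
  have hσ : (1 - z) * ∑ j ∈ Finset.range M, z ^ (2 + j) = z ^ 2 - z ^ (M + 2) := by
    have h1 : (∑ j ∈ Finset.range M, z ^ j) * (z - 1) = z ^ M - 1 := geom_sum_mul _ _
    have h2 : ∑ j ∈ Finset.range M, z ^ (2 + j) = z ^ 2 * ∑ j ∈ Finset.range M, z ^ j := by
      rw [Finset.mul_sum]
      exact Finset.sum_congr rfl fun j _ => by rw [pow_add]
    rw [h2, pow_add]
    linear_combination (-z ^ 2) * h1
  have hσ' : (1 - z) * ∑ j ∈ Finset.range (M + 1), z ^ (2 + j) ≤ 1 := by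
    have h1 : (∑ j ∈ Finset.range (M + 1), z ^ j) * (z - 1) = z ^ (M + 1) - 1 := geom_sum_mul _ _
    have h2 : ∑ j ∈ Finset.range (M + 1), z ^ (2 + j) =
        z ^ 2 * ∑ j ∈ Finset.range (M + 1), z ^ j := by
      rw [Finset.mul_sum]
      exact Finset.sum_congr rfl fun j _ => by rw [pow_add]
    have h3 : (1 - z) * ∑ j ∈ Finset.range (M + 1), z ^ (2 + j) = z ^ 2 * (1 - z ^ (M + 1)) := by
      rw [h2]
      linear_combination (-z ^ 2) * h1
    rw [h3]
    refine shr (by positivity) (pow_le_one₀ hz.le hz1.le) ?_ (by norm_num)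
    have : 0 ≤ z ^ (M + 1) := by positivity
    linarith
  have hy : z ^ (M + 2) ≤ z ^ 2 := pow_le_pow_of_le_one hz.le hz1.le (by omega)
  obtain ⟨k1, k2, k3, k4, k5, k6, k7⟩ := alg hz hz1 hv hc hc3 hP0 hσ (by positivity) hy m0
    (G_nonneg hz _) i1 i3 i4 i5 i6 i9 i10 i12 i13 i14
  refine ⟨k1, ?_⟩
  -- the whole line
  have j1 := G_cover hab hz hz1 h [Iio (s - 1), Ioo (s - 1) a, Ioo a s, Ioo s r, Ioo r 0, Ioo 0 1,
    Ioo 1 2, Ioo 2 (2 + ((M + 1 : ℕ) : ℝ)), Ioi ((M : ℝ) + 3)]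
    [s - 1, a, s, r, 0, 1, 2, (M : ℝ) + 3] univ (by
      intro x _
      rcases lt_trichotomy x (s - 1) with h1 | h1 | h1
      · exact Or.inl ⟨Iio (s - 1), by simp, h1⟩
      · exact Or.inr (by simp [h1])
      rcases lt_trichotomy x a with h2 | h2 | h2
      · exact Or.inl ⟨Ioo (s - 1) a, by simp, h1, h2⟩
      · exact Or.inr (by simp [h2])
      rcases lt_trichotomy x s with h3 | h3 | h3
      · exact Or.inl ⟨Ioo a s, by simp, h2, h3⟩
      · exact Or.inr (by simp [h3])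
      rcases lt_trichotomy x r with h4 | h4 | h4
      · exact Or.inl ⟨Ioo s r, by simp, h3, h4⟩
      · exact Or.inr (by simp [h4])
      rcases lt_trichotomy x 0 with h5 | h5 | h5
      · exact Or.inl ⟨Ioo r 0, by simp, h4, h5⟩
      · exact Or.inr (by simp [h5])
      rcases lt_trichotomy x 1 with h6 | h6 | h6
      · exact Or.inl ⟨Ioo 0 1, by simp, h5, h6⟩
      · exact Or.inr (by simp [h6])
      rcases lt_trichotomy x 2 with h7 | h7 | h7
      · exact Or.inl ⟨Ioo 1 2, by simp, h6, h7⟩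
      · exact Or.inr (by simp [h7])
      rcases lt_trichotomy x ((M : ℝ) + 3) with h8 | h8 | h8
      · exact Or.inl ⟨Ioo 2 (2 + ((M + 1 : ℕ) : ℝ)), by simp, h7, by push_cast; linarith⟩
      · exact Or.inr (by simp [h8])
      · exact Or.inl ⟨Ioi ((M : ℝ) + 3), by simp, h8⟩)
  simp only [List.map_cons, List.map_nil, List.sum_cons, List.sum_nil, List.length_cons,
    List.length_nil] at j1
  push_cast at j1
  have j2 : G a b z (Ioo 1 2) ≤ P := by
    have := i2 1
    norm_num at this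
    exact this.trans (mul_le_of_le_one_left hP0 hz1.le)
  have j3 := i8 (M + 1)
  push_cast at j3
  generalize G a b z (Iio (s - 1)) = E at *
  generalize G a b z (Ioo (s - 1) a) = q at *
  generalize G a b z (Ioo a s) = g1 at *
  generalize G a b z (Ioo s r) = g2 at *
  generalize G a b z (Ioo r 0) = g3 at *
  generalize G a b z (Ioo 1 2) = G12 at *
  generalize G a b z (Ioo 2 (2 + ((M : ℝ) + 1))) = G2K at *
  generalize G a b z (Ioi ((M : ℝ) + 3)) = w at *
  generalize G a b z univ = T at *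
  have hv1 : 1 - z - z ^ 4 ≤ 1 := by
    have : 0 ≤ z ^ 4 := by positivity
    linarith
  set v := 1 - z - z ^ 4 with hvdef
  have hm0 : (0 : ℝ) ≤ M := m0
  have n1 : v * ((1 - z) * g1) ≤ P + M + 4 := shr hv.le hv1 k4 (by linarith)
  have n2 : v * ((1 - z) * g2) ≤ P := shr hv.le hv1 k5 hP0
  have n3 : v * ((1 - z) * g3) ≤ P + 3 := shr hv.le hv1 k6 (by linarith)
  have n4 : v * ((1 - z) * w) ≤ P + 3 := shr hv.le hv1 k7 (by linarith)
  have n5 : v * ((1 - z) * P) ≤ P := shr hv.le hv1 (shr hu.le (by linarith) le_rfl hP0) hP0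
  have n6 : v * ((1 - z) * G12) ≤ P := shr hv.le hv1 (shr hu.le (by linarith) j2 hP0) hP0
  have n7 : v * ((1 - z) * G2K) ≤ P + (M + 1) := by
    refine shr hv.le hv1 ?_ (by linarith)
    have q1 := mul_le_mul_of_nonneg_left j3 hu.le
    have e : (1 - z) * ((∑ j ∈ Finset.range (M + 1), z ^ (2 + j)) * P + ((M : ℝ) + 1) * c) =
        ((1 - z) * ∑ j ∈ Finset.range (M + 1), z ^ (2 + j)) * P + (M + 1) * ((1 - z) * c) := by
      ring
    rw [e, hc] at q1
    have q2 := mul_le_mul_of_nonneg_right hσ' hP0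
    linarith
  have n8 : v * ((1 - z) * c) ≤ 1 := by rw [hc]; linarith
  have j4 := mul_le_mul_of_nonneg_left j1 (show 0 ≤ (1 - z) * v by positivity)
  linarith

end Pool.Agent.H16E
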