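import Pool.Agent.H16E.MonoB

/-!
# Monotonicity of the entropy of `f_{a,b}` in `a`, for `a ≤ -1`
-/

set_option autoImplicit false

namespace Pool.Agent.H16E

open Filter Topology Set Pool.Agent.R660.CF

variable {a b a' b' : ℝ}

/-- the exceptional set for the comparison in `a` -/
noncomputable def EM (a b a' : ℝ) : Finset ℝ := {a', a, 0, b, -1 / b}

theorem mem_EM {x : ℝ} : x ∈ EM a b a' ↔ x = a' ∨ x = a ∨ x = 0 ∨ x = b ∨ x = -1 / b := by
  simp [EM]

theorem M_claims (hab : InP a b) (hab' : InP a' b) (haa : a' < a) (ha1 : a ≤ -1) (n : ℕ) :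
    (∀ q, q ∈ D a' b n → q ∈ DE a b (EM a b a') n) ∧
    (∀ u, u < a → -1 / u ∈ D a' b n → u ∈ DE a b (EM a b a') (n + 1)) := by
  have hab0 := hab
  have hab0' := hab'
  obtain ⟨h1, h2, h3, h4⟩ := hab0
  obtain ⟨h1', h2', h3', h4'⟩ := hab0'
  have hb1 : b < 1 := by nlinarith
  -- `-1/x` for `x < 0`
  have pos_inv : ∀ x : ℝ, x < 0 → 0 < -1 / x := fun x hx =>
    div_pos_of_neg_of_neg (by norm_num) hx
  induction n using Nat.strong_induction_on with
  | _ n ih =>
    refine ⟨?_, ?_⟩
    · -- A
      intro q hq
      by_cases hqE : q ∈ EM a b a'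
      · rcases n with _ | m
        · exact absurd hq (D_zero' _ _ _)
        · rw [DE_succ]; exact Or.inl hqE
      have hqE' := hqE
      rw [mem_EM] at hqE'
      push Not at hqE'
      obtain ⟨e1, e2, e3, e4, e5⟩ := hqE'
      obtain ⟨m, rfl, hm⟩ := step_D hq e1 e3 e4 rfl
      have same : f a' b q = f a b q → q ∈ DE a b (EM a b a') (m + 1) := by
        intro hs
        rw [hs] at hm
        rw [DE_succ]
        exact Or.inr ((ih m (by omega)).1 _ hm)
      rcases lt_or_ge q a' with hc1 | hc1
      · exact same (by rw [f_lt hc1, f_lt (by linarith)])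
      rcases lt_or_ge q a with hc2 | hc2
      swap
      · rcases lt_or_ge q b with hc3 | hc3
        · exact same (by rw [f_mid hc1 hc3, f_mid hc2 hc3])
        · exact same (by rw [f_ge hab' hc3, f_ge hab hc3])
      have hqn1 : q < -1 := by linarith
      have hq0 : q < 0 := by linarith
      have hqne : q ≠ 0 := hq0.ne
      have hq1 : q + 1 < 0 := by linarith
      have hq1ne : q + 1 ≠ 0 := hq1.ne
      have hp0 : 0 < -1 / q := pos_inv q hq0
      have hpb : b ≤ -1 / q := by
        rw [le_div_iff_of_neg hq0]
        nlinarith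
      have hpb' : -1 / q ≠ b := by
        intro h
        apply e5
        rw [← h]
        field_simp
      have hplt : b < -1 / q := lt_of_le_of_ne hpb (Ne.symm hpb')
      have hp1 : -1 / q < 1 := by
        rw [div_lt_iff_of_neg hq0]; linarith
      rw [f_mid hc1 (by linarith)] at hm
      obtain ⟨k, rfl, hk⟩ := step_D (y := -1 / q - 1) hm (by intro h; linarith) hp0.ne' hpb'
        (f_ge hab' hpb)
      obtain ⟨l, rfl, hl⟩ := step_D (y := 1 - 1 / (q + 1)) hk (by intro h; linarith)
        (by intro h; linarith) (by intro h; linarith) (by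
          rw [f_mid (by linarith) (by linarith)]
          have h5 : -1 / q - 1 ≠ 0 := by intro h; linarith
          have h6 : -1 / q - 1 = -(q + 1) / q := by field_simp; ring
          rw [h6, div_div_eq_mul_div]
          field_simp
          ring)
      have hi : 0 < -(1 / (q + 1)) := by
        rw [neg_pos]; exact one_div_neg.2 hq1
      obtain ⟨r, rfl, hr⟩ := step_D (y := -1 / (q + 1)) hl (by intro h; linarith)
        (by intro h; linarith) (by intro h; linarith) (by
          rw [f_ge hab' (by linarith)]; ring)
      rw [DE_succ, f_lt hc2]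
      right
      rcases lt_or_ge (q + 1) a with hu | hu
      · exact DE_mono _ _ _ (by omega) ((ih r (by omega)).2 _ hu hr)
      · rw [DE_succ, f_mid hu (by linarith)]
        right
        exact DE_mono _ _ _ (by omega) ((ih r (by omega)).1 _ hr)
    · -- B
      intro u hu hh
      by_cases huE : u ∈ EM a b a'
      · rw [DE_succ]
        exact Or.inl huE
      have huE' := huE
      rw [mem_EM] at huE'
      push Not at huE'
      obtain ⟨e1, e2, e3, e4, e5⟩ := huE'
      have hu0 : u < 0 := by linarith
      have hune : u ≠ 0 := hu0.ne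
      have hp : 0 < -1 / u := pos_inv u hu0
      have hpb : -1 / u ≠ b := by
        intro h
        apply e5
        rw [← h]
        field_simp
      obtain ⟨m, rfl, hm⟩ := step_D hh (by intro h; linarith) hp.ne' hpb rfl
      rcases lt_or_ge (-1 / u) b with hc1 | hc1
      · rw [f_mid (by linarith) hc1] at hm
        have e : -1 / (-1 / u) = u := by field_simp
        rw [e] at hm
        exact DE_mono _ _ _ (by omega) ((ih m (by omega)).1 _ hm)
      · rw [f_ge hab' hc1] at hm
        have hw : u + 1 < 0 := by linarith
        have hwne : u + 1 ≠ 0 := hw.ne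
        have hp1 : -1 / u < 1 := by
          rw [div_lt_iff_of_neg hu0]; linarith
        obtain ⟨k, rfl, hk⟩ := step_D (y := 1 - 1 / (u + 1)) hm (by intro h; linarith)
          (by intro h; linarith) (by intro h; linarith) (by
            rw [f_mid (by linarith) (by linarith)]
            have h6 : -1 / u - 1 = -(u + 1) / u := by field_simp; ring
            rw [h6, div_div_eq_mul_div]
            field_simp
            ring)
        have hi : 0 < -(1 / (u + 1)) := by
          rw [neg_pos]; exact one_div_neg.2 hw
        obtain ⟨l, rfl, hl⟩ := step_D (y := -1 / (u + 1)) hk (by intro h; linarith)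
          (by intro h; linarith) (by intro h; linarith) (by
            rw [f_ge hab' (by linarith)]; ring)
        rw [DE_succ, f_lt hu]
        right
        rcases lt_or_ge (u + 1) a with hwa | hwa
        · exact DE_mono _ _ _ (by omega) ((ih l (by omega)).2 _ hwa hl)
        · rw [DE_succ, f_mid hwa (by linarith)]
          right
          exact DE_mono _ _ _ (by omega) ((ih l (by omega)).1 _ hl)

/-- monotonicity in `a` for `a ≤ -1` -/
theorem mono_a (hab : InP a b) (hab' : InP a' b) (haa : a' ≤ a) (ha1 : a ≤ -1)
    {h h' : ℝ} (h1 : IsEntropy a' b h') (h2 : IsEntropy a b h) : h' ≤ h := by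
  rcases haa.lt_or_eq with hlt | heq
  · exact compare_maps hab (EM a b a') (fun n x hx => (M_claims hab hab' hlt ha1 n).1 x hx) h1 h2
  · subst heq
    exact (tendsto_nhds_unique h1 h2).le

end Pool.Agent.H16E
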