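import Pool.Graph.R_seed8.R660.CF.Basic
import Pool.Graph.R_seed8.R660.CF.Mono

/-!
# Monotonicity of the entropy of `f_{a,b}` in `b`, and in `a` for `a ≤ -1`
-/

set_option autoImplicit false

namespace Pool.Agent.H16E

open Filter Topology Set Pool.Agent.R660.CF

variable {a b a' b' : ℝ}

theorem DE_succ (a b : ℝ) (E : Finset ℝ) (n : ℕ) (x : ℝ) :
    x ∈ DE a b E (n + 1) ↔ x ∈ E ∨ f a b x ∈ DE a b E n := by
  constructor
  · rintro ⟨j, hj, h⟩
    rcases j with _ | j
    · exact Or.inl h
    · right
      exact ⟨j, by omega, by simpa [Function.iterate_succ_apply] using h⟩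
  · rintro (h | ⟨j, hj, h⟩)
    · exact ⟨0, by omega, h⟩
    · exact ⟨j + 1, by omega, by simpa [Function.iterate_succ_apply] using h⟩

theorem DE_mono (a b : ℝ) (E : Finset ℝ) {m n : ℕ} (h : m ≤ n) : DE a b E m ⊆ DE a b E n := by
  rintro x ⟨j, hj, h'⟩
  exact ⟨j, by omega, h'⟩

theorem D_zero' (a b x : ℝ) : ¬ x ∈ D a b 0 := by rw [D_zero]; exact fun h => h.elim

/-- `q ∈ D (n + 1)`, `q` is not one of the three points: then `n ≥ 0` and the image is in `D n`. -/
theorem step_D {n : ℕ} {x y : ℝ} (h : x ∈ D a b n) (h1 : x ≠ a) (h2 : x ≠ 0) (h3 : x ≠ b)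
    (hf : f a b x = y) : ∃ m, n = m + 1 ∧ y ∈ D a b m := by
  rcases n with _ | m
  · exact absurd h (D_zero' _ _ _)
  · refine ⟨m, rfl, ?_⟩
    rw [D_succ] at h
    rcases h with (h | h | h) | h
    · exact absurd h h1
    · exact absurd h h2
    · exact absurd h h3
    · rwa [hf] at h

/-- the exceptional set for the comparison in `b` -/
noncomputable def ET (a b b' : ℝ) : Finset ℝ :=
  {a, 0, b, b', -1 / b', a / (1 + a), b' / (1 + b')}

theorem mem_ET {x : ℝ} : x ∈ ET a b b' ↔ x = a ∨ x = 0 ∨ x = b ∨ x = b' ∨ x = -1 / b' ∨
    x = a / (1 + a) ∨ x = b' / (1 + b') := by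
  simp [ET]

theorem T_claims (hab : InP a b) (hab' : InP a b') (hbb : b' < b) (hc : b ≤ 1 / 2 ∨ a ≤ -1)
    (n : ℕ) :
    (∀ q, q ∈ D a b' n → q ∈ DE a b (ET a b b') n) ∧
    (∀ u, u < a → -1 / u ∈ D a b' n → u ∈ DE a b (ET a b b') (n + 1)) ∧
    (∀ w, w < a + 1 → w / (1 - w) ∈ D a b' n → w ∈ DE a b (ET a b b') (n + 1)) := by
  have hab0 := hab
  have hab0' := hab'
  obtain ⟨h1, h2, h3, h4⟩ := hab0
  obtain ⟨h1', h2', h3', h4'⟩ := hab0'
  have ha12 : a < -1 / 2 := by
    rcases hc with h | h <;> linarith
  have hb1 : b ≤ 1 := by
    rcases hc with h | h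
    · linarith
    · nlinarith
  have hb0 : 0 < b := lt_of_le_of_lt h2' hbb
  -- points of `(0, b)` are mapped below `a`
  have below : ∀ x : ℝ, 0 < x → x < b → -1 / x < a := by
    intro x hx hxb
    have h5 : -1 / x < -1 / b := by
      rw [neg_div, neg_div, neg_lt_neg_iff]
      exact one_div_lt_one_div_of_lt hx hxb
    have h6 : -1 / b ≤ a := by
      rw [div_le_iff₀ hb0]; linarith
    linarith
  induction n using Nat.strong_induction_on with
  | _ n ih =>
    refine ⟨?_, ?_, ?_⟩
    · -- A
      intro q hq
      by_cases hqE : q ∈ ET a b b'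
      · rcases n with _ | m
        · exact absurd hq (D_zero' _ _ _)
        · rw [DE_succ]; exact Or.inl hqE
      have hqE' := hqE
      rw [mem_ET] at hqE'
      push Not at hqE'
      obtain ⟨e1, e2, e3, e4, e5, e6, e7⟩ := hqE'
      obtain ⟨m, rfl, hm⟩ := step_D hq e1 e2 e4 rfl
      have same : f a b' q = f a b q → q ∈ DE a b (ET a b b') (m + 1) := by
        intro hs
        rw [hs] at hm
        rw [DE_succ]
        exact Or.inr ((ih m (by omega)).1 _ hm)
      rcases lt_or_ge q a with hc1 | hc1
      · exact same (by rw [f_lt hc1, f_lt hc1])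
      rcases lt_or_ge q b' with hc2 | hc2
      · exact same (by rw [f_mid hc1 hc2, f_mid hc1 (by linarith)])
      rcases lt_or_ge q b with hc3 | hc3
      swap
      · exact same (by rw [f_ge hab' hc2, f_ge hab hc3])
      have hq0 : 0 < q := lt_of_le_of_ne (by linarith) (Ne.symm e2)
      have hq1 : q < 1 := by linarith
      have hqb' : b' < q := lt_of_le_of_ne hc2 (Ne.symm e4)
      rw [f_ge hab' hc2] at hm
      obtain ⟨k, rfl, hk⟩ := step_D (y := 1 / (1 - q)) hm (by intro h; linarith)
        (by intro h; linarith) (by intro h; linarith) (by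
          rw [f_mid (by linarith) (by linarith)]
          have : 1 - q ≠ 0 := by intro h; linarith
          have : q - 1 ≠ 0 := by intro h; linarith
          rw [div_eq_div_iff (by assumption) (by assumption)]; ring)
      have hi1 : 1 < 1 / (1 - q) := by
        rw [lt_div_iff₀ (by linarith)]; linarith
      obtain ⟨l, rfl, hl⟩ := step_D (y := q / (1 - q)) hk (by intro h; linarith)
        (by intro h; linarith) (by intro h; linarith) (by
          rw [f_ge hab' (by linarith)]
          have : 1 - q ≠ 0 := by intro h; linarith
          field_simp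
          ring)
      -- the orbit under `f a b`
      have g1 : f a b q = -1 / q := f_mid (by linarith) hc3
      have g2 : f a b (-1 / q) = 1 - 1 / q := by
        rw [f_lt (below q hq0 hc3)]; ring
      have hu0 : 1 - 1 / q < 0 := by
        have : 1 < 1 / q := by rw [lt_div_iff₀ hq0]; linarith
        linarith
      have e : -1 / (1 - 1 / q) = q / (1 - q) := by
        have h7 : 1 - q ≠ 0 := by intro h; linarith
        have h8 : 1 - 1 / q ≠ 0 := hu0.ne
        have h9 : q ≠ 0 := hq0.ne'
        have h10 : q - 1 ≠ 0 := by intro h; apply h7; linarith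
        rw [div_eq_div_iff h8 h7]
        field_simp
        ring
      rw [DE_succ, g1, DE_succ, g2]
      right; right
      rcases lt_or_ge (1 - 1 / q) a with hu | hu
      · exact (ih l (by omega)).2.1 _ hu (by rwa [e])
      · rw [DE_succ, f_mid hu (by linarith), e]
        right
        exact (ih l (by omega)).1 _ hl
    · -- B
      intro u hu hh
      rw [DE_succ]
      by_cases huE : u ∈ ET a b b'
      · exact Or.inl huE
      right
      rw [mem_ET] at huE
      push Not at huE
      obtain ⟨e1, e2, e3, e4, e5, e6, e7⟩ := huE
      have hu0 : u < 0 := by linarith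
      have hp : 0 < -1 / u := div_pos_of_neg_of_neg (by norm_num) hu0
      obtain ⟨m, rfl, hm⟩ := step_D hh (by intro h; linarith) hp.ne' (by
        intro h
        apply e5
        rw [← h]
        have := hu0.ne
        field_simp) rfl
      rcases lt_or_ge (-1 / u) b' with hc1 | hc1
      · rw [f_mid (by linarith) hc1] at hm
        have e : -1 / (-1 / u) = u := by
          have := hu0.ne
          field_simp
        rw [e] at hm
        have h5 := (ih m (by omega)).1 _ hm
        rcases m with _ | m
        · exact absurd hm (D_zero' _ _ _)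
        rw [DE_succ] at h5
        rcases h5 with h5 | h5
        · exfalso
          rw [mem_ET] at h5
          rcases h5 with h | h | h | h | h | h | h
          exacts [e1 h, e2 h, e3 h, e4 h, e5 h, e6 h, e7 h]
        · exact DE_mono _ _ _ (by omega) h5
      · rw [f_ge hab' hc1] at hm
        rw [f_lt hu]
        refine (ih m (by omega)).2.2 (u + 1) (by linarith) ?_
        have e : (u + 1) / (1 - (u + 1)) = -1 / u - 1 := by
          have h5 := hu0.ne
          have h6 : (1 - (u + 1)) ≠ 0 := by intro h; linarith
          rw [div_eq_iff h6]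
          field_simp
          ring
        rwa [e]
    · -- C
      intro w hw hh
      rw [DE_succ]
      by_cases hwE : w ∈ ET a b b'
      · exact Or.inl hwE
      have hwE' := hwE
      rw [mem_ET] at hwE'
      push Not at hwE'
      obtain ⟨e1, e2, e3, e4, e5, e6, e7⟩ := hwE'
      have hw1 : 0 < 1 - w := by linarith
      have hw1' : 1 - w ≠ 0 := hw1.ne'
      have hc_gt : -1 < w / (1 - w) := by
        rw [lt_div_iff₀ hw1]; linarith
      have hne_b' : w / (1 - w) ≠ b' := by
        intro h
        apply e7
        have h5 : (1 + b') ≠ 0 := by positivity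
        rw [eq_div_iff h5]
        rw [div_eq_iff hw1'] at h
        linarith
      have hne_a : w / (1 - w) ≠ a := by
        intro h
        rw [div_eq_iff hw1'] at h
        by_cases ha : 1 + a = 0
        · have : a = -1 := by linarith
          rw [this] at h; linarith
        · apply e6
          rw [eq_div_iff ha]; linarith
      have hne_0 : w / (1 - w) ≠ 0 := div_ne_zero e2 hw1'
      obtain ⟨m, rfl, hm⟩ := step_D hh hne_a hne_0 hne_b' rfl
      have hmid : w < 0 → f a b' (w / (1 - w)) = 1 - 1 / w → ∃ k, m = k + 1 ∧ -1 / w ∈ D a b' k := by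
        intro hw0 hf
        rw [hf] at hm
        have h5 : 0 < -(1 / w) := by
          rw [neg_pos]; exact one_div_neg.2 hw0
        exact step_D hm (by intro h; linarith) (by intro h; linarith) (by intro h; linarith)
          (by rw [f_ge hab' (by linarith)]; ring)
      have hfc : w < 0 → a ≤ w / (1 - w) → f a b' (w / (1 - w)) = 1 - 1 / w := by
        intro hw0 hca
        rw [f_mid hca (by
          have : w / (1 - w) < 0 := div_neg_of_neg_of_pos hw0 hw1
          linarith)]
        field_simp
        ring
      rcases lt_or_ge w a with hwa | hwa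
      · have hw0 : w < 0 := by linarith
        rcases lt_or_ge (w / (1 - w)) a with hca | hca
        · -- c < a
          rw [f_lt hca] at hm
          have e : w / (1 - w) + 1 = 1 / (1 - w) := by field_simp; ring
          have hpos : 0 < 1 / (1 - w) := one_div_pos.2 hw1
          have hlt : 1 / (1 - w) < b' := by rw [← e]; linarith
          rw [e] at hm
          obtain ⟨k, rfl, hk⟩ := step_D (y := w - 1) hm (by intro h; linarith) hpos.ne'
            hlt.ne (by
              rw [f_mid (by linarith) hlt]
              field_simp
              ring)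
          obtain ⟨l, rfl, hl⟩ := step_D (y := w) hk (by intro h; linarith)
            (by intro h; linarith) (by intro h; linarith) (by
              rw [f_lt (by linarith)]; ring)
          have h5 := (ih l (by omega)).1 _ hl
          rcases l with _ | l
          · exact absurd hl (D_zero' _ _ _)
          rw [DE_succ] at h5
          rcases h5 with h5 | h5
          · exact Or.inl h5
          · right
            exact DE_mono _ _ _ (by omega) h5
        · obtain ⟨k, rfl, hk⟩ := hmid hw0 (hfc hw0 hca)
          have h5 := (ih k (by omega)).2.1 w hwa hk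
          rw [DE_succ] at h5
          rcases h5 with h5 | h5
          · exact Or.inl h5
          · right
            exact DE_mono _ _ _ (by omega) h5
      rcases lt_trichotomy w 0 with hw0 | hw0 | hw0
      · have hca : a ≤ w / (1 - w) := by
          rw [le_div_iff₀ hw1]; nlinarith
        obtain ⟨k, rfl, hk⟩ := hmid hw0 (hfc hw0 hca)
        right
        rw [f_mid hwa (by linarith)]
        exact DE_mono _ _ _ (by omega) ((ih k (by omega)).1 _ hk)
      · exact absurd hw0 e2
      · -- w > 0
        have ha1 : -1 < a := by linarith
        have hbh : b ≤ 1 / 2 := by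
          rcases hc with h | h
          · exact h
          · linarith
        have hwb : w < b' := by linarith
        have hwb2 : w < b := by linarith
        have hwh : w < 1 / 2 := by linarith
        have g1 : f a b w = -1 / w := f_mid (by linarith) hwb2
        have g2 : f a b (-1 / w) = 1 - 1 / w := by
          rw [f_lt (below w hw0 hwb2)]; ring
        have hw2 : 2 < 1 / w := by rw [lt_div_iff₀ hw0]; linarith
        have hcpos : 0 < w / (1 - w) := div_pos hw0 hw1
        have hclt : w / (1 - w) < 1 := by
          rw [div_lt_iff₀ hw1]; linarith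
        right
        rw [g1, DE_succ, g2]
        right
        rcases lt_or_ge (w / (1 - w)) b' with hcb | hcb
        · rw [f_mid (by linarith) hcb] at hm
          have e : -1 / (w / (1 - w)) = 1 - 1 / w := by
            field_simp
            ring
          rw [e] at hm
          exact (ih m (by omega)).1 _ hm
        · rw [f_ge hab' hcb] at hm
          have hcb' : b' < w / (1 - w) := lt_of_le_of_ne hcb (Ne.symm hne_b')
          obtain ⟨k, rfl, hk⟩ := step_D (y := 1 / (1 - w / (1 - w))) hm
            (by intro h; linarith) (by intro h; linarith) (by intro h; linarith) (by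
              rw [f_mid (by linarith) (by linarith)]
              have h5 : 1 - w / (1 - w) ≠ 0 := by intro h; linarith
              have h6 : w / (1 - w) - 1 ≠ 0 := by intro h; linarith
              rw [div_eq_div_iff h6 h5]; ring)
          have hi1 : 1 < 1 / (1 - w / (1 - w)) := by
            rw [lt_div_iff₀ (by linarith)]; linarith
          have hv2 : 2 - 1 / w < 0 := by linarith
          have e9 : 1 / (1 - w / (1 - w)) - 1 = -1 / (2 - 1 / w) := by
            have h5 : 1 - w / (1 - w) ≠ 0 := by intro h; linarith
            have h6 : 2 - 1 / w ≠ 0 := hv2.ne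
            have h7 : w ≠ 0 := hw0.ne'
            have h8 : 1 - 2 * w ≠ 0 := by intro h; linarith
            have e10 : 1 - w / (1 - w) = (1 - 2 * w) / (1 - w) := by
              field_simp; ring
            have e11 : 2 - 1 / w = -(1 - 2 * w) / w := by
              field_simp; ring
            rw [e10, e11, one_div_div, div_div_eq_mul_div, div_sub_one h8,
              div_eq_div_iff h8 (neg_ne_zero.2 h8)]
            ring
          obtain ⟨l, rfl, hl⟩ := step_D (y := -1 / (2 - 1 / w)) hk (by intro h; linarith)
            (by intro h; linarith) (by intro h; linarith) (by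
              rw [f_ge hab' (by linarith), e9])
          have hv1 : 1 - 1 / w < a := by
            have h5 : 1 / (a + 1) < 1 / w := one_div_lt_one_div_of_lt hw0 hw
            have h6 : 1 - a ≤ 1 / (a + 1) := by
              rw [le_div_iff₀ (by linarith)]; nlinarith
            linarith
          rw [DE_succ, f_lt hv1, show 1 - 1 / w + 1 = 2 - 1 / w by ring]
          right
          rcases lt_or_ge (2 - 1 / w) a with hva | hva
          · exact (ih l (by omega)).2.1 _ hva hl
          · rw [DE_succ, f_mid hva (by linarith)]
            right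
            exact (ih l (by omega)).1 _ hl

/-- monotonicity in `b` for `b ≤ 1/2` or `a ≤ -1` -/
theorem mono_b (hab : InP a b) (hab' : InP a b') (hbb : b' ≤ b) (hc : b ≤ 1 / 2 ∨ a ≤ -1)
    {h h' : ℝ} (h1 : IsEntropy a b' h') (h2 : IsEntropy a b h) : h' ≤ h := by
  rcases hbb.lt_or_eq with hlt | heq
  · exact compare_maps hab (ET a b b') (fun n x hx => (T_claims hab hab' hlt hc n).1 x hx) h1 h2
  · subst heq
    exact (tendsto_nhds_unique h1 h2).le

end Pool.Agent.H16E
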