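import Pool.Agent.H16E.Extremal

/-!
# Explicit margins in the bounds of the entropy
-/

set_option autoImplicit false

namespace Pool.Agent.H16E

open Filter Topology Set Pool.Agent.R660.CF Pool.Agent.R294.CF

/-- The implicit lower bound at `(-(M+2), 1/(M+2))`. -/
theorem low_implicit (M : ℕ) {l : ℝ}
    (hl : l = Real.exp (ent (-((M : ℝ) + 2)) (1 / ((M : ℝ) + 2)))) (hl1 : 1 < l) :
    (l + 1) / l ^ (3 * M + 6) ≤ l ^ 3 - l ^ 2 - 1 := by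
  have hl0 : 0 < l := by linarith
  set ζ := 1 / l with hζ
  have hζ0 : 0 < ζ := by positivity
  have hζ1 : ζ < 1 := by
    rw [hζ, div_lt_one hl0]; exact hl1
  have hζl : ζ * l = 1 := by rw [hζ]; field_simp
  have hall : ∀ z ∈ Ioo (0 : ℝ) ζ,
      z ^ (3 * M + 7) + (1 - z) * z ^ 4 * ∑ j ∈ Finset.range (M + 1), z ^ (3 * j) ≤ (1 - z) ^ 2 := by
    intro z hz
    refine key_ineq M hz.1 (lt_trans hz.2 hζ1) ?_
    rw [← hl, ← hζl]
    exact mul_lt_mul_of_pos_right hz.2 hl0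
  have hclosed : IsClosed {z : ℝ | z ^ (3 * M + 7) +
      (1 - z) * z ^ 4 * ∑ j ∈ Finset.range (M + 1), z ^ (3 * j) ≤ (1 - z) ^ 2} :=
    isClosed_le (by fun_prop) (by fun_prop)
  have hmem : ζ ∈ {z : ℝ | z ^ (3 * M + 7) +
      (1 - z) * z ^ 4 * ∑ j ∈ Finset.range (M + 1), z ^ (3 * j) ≤ (1 - z) ^ 2} := by
    have h1 : closure (Ioo (0 : ℝ) ζ) ⊆ _ := hclosed.closure_subset_iff.2 hall
    rw [closure_Ioo hζ0.ne] at h1
    exact h1 ⟨hζ0.le, le_rfl⟩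
  have hfin : ζ ^ (3 * M + 7) +
      (1 - ζ) * ζ ^ 4 * ∑ j ∈ Finset.range (M + 1), ζ ^ (3 * j) ≤ (1 - ζ) ^ 2 := hmem
  have hgeom : (1 - ζ ^ 3) * ∑ j ∈ Finset.range (M + 1), ζ ^ (3 * j) = 1 - ζ ^ (3 * M) * ζ ^ 3 := by
    have h1 : (∑ j ∈ Finset.range (M + 1), (ζ ^ 3) ^ j) * (ζ ^ 3 - 1) = (ζ ^ 3) ^ (M + 1) - 1 :=
      geom_sum_mul _ _
    have h2 : ∑ j ∈ Finset.range (M + 1), ζ ^ (3 * j) = ∑ j ∈ Finset.range (M + 1), (ζ ^ 3) ^ j :=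
      Finset.sum_congr rfl fun j _ => by rw [pow_mul]
    rw [h2]
    have h3 : (ζ ^ 3) ^ (M + 1) = ζ ^ (3 * M) * ζ ^ 3 := by
      rw [pow_succ, ← pow_mul]
    rw [h3] at h1
    linarith
  have h3 : 0 < 1 - ζ ^ 3 := by
    have : ζ ^ 3 < 1 := pow_lt_one₀ hζ0.le hζ1 (by norm_num)
    linarith
  have hu : 0 < 1 - ζ := by linarith
  have hmul := mul_le_mul_of_nonneg_left hfin h3.le
  have e1 : (1 - ζ ^ 3) * (ζ ^ (3 * M + 7) +
      (1 - ζ) * ζ ^ 4 * ∑ j ∈ Finset.range (M + 1), ζ ^ (3 * j)) =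
      (1 - ζ ^ 3) * (ζ ^ (3 * M) * ζ ^ 7) + (1 - ζ) * ζ ^ 4 * (1 - ζ ^ (3 * M) * ζ ^ 3) := by
    rw [← hgeom, pow_add]; ring
  rw [e1] at hmul
  have hdiv : (1 - ζ) * (ζ ^ (3 * M) * ζ ^ 8 * (1 + ζ)) ≤ (1 - ζ) * (1 - ζ - ζ ^ 3) := by
    linarith
  have hfinal : ζ ^ (3 * M) * ζ ^ 8 * (1 + ζ) ≤ 1 - ζ - ζ ^ 3 := le_of_mul_le_mul_left hdiv hu
  have e2 : l ^ 3 * (ζ ^ (3 * M) * ζ ^ 8 * (1 + ζ)) = (l + 1) / l ^ (3 * M + 6) := by
    have e4 : ζ ^ (3 * M) = 1 / l ^ (3 * M) := by rw [hζ, one_div_pow]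
    rw [e4, hζ, pow_add]
    field_simp
  have e3 : l ^ 3 * (1 - ζ - ζ ^ 3) = l ^ 3 - l ^ 2 - 1 := by
    rw [hζ]
    field_simp
  have hm2 := mul_le_mul_of_nonneg_left hfinal (show 0 ≤ l ^ 3 by positivity)
  rw [e2, e3] at hm2
  exact hm2

theorem FF_ge {z ζ y : ℝ} (hζ0 : 0 < ζ) (h : ζ ^ 2 = 1 - ζ) (hz : ζ ≤ z) (hz1 : z ≤ 1)
    (hy0 : 0 ≤ y) (hy1 : y ≤ 1) : ζ ^ 8 * y - 9 * (z - ζ) ≤ FF z y := by
  have e : FF z y = z ^ 8 * y - (z - ζ) * ((z + ζ + 1) *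
      ((1 - z + z ^ 2) * (1 - z ^ 4) + y * (z ^ 4 * (1 + z ^ 3 - z ^ 4)))) := by
    unfold FF
    linear_combination (-((1 - z + z ^ 2) * (1 - z ^ 4) + y * (z ^ 4 * (1 + z ^ 3 - z ^ 4)))) * h
  have hz0 : 0 < z := lt_of_lt_of_le hζ0 hz
  have h4 : z ^ 4 ≤ 1 := pow_le_one₀ hz0.le hz1
  have h40 : 0 ≤ z ^ 4 := by positivity
  have h3 : z ^ 3 ≤ 1 := pow_le_one₀ hz0.le hz1
  have h30 : 0 ≤ z ^ 3 := by positivity
  have h34 : z ^ 4 ≤ z ^ 3 := pow_le_pow_of_le_one hz0.le hz1 (by norm_num)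
  have k1 : (1 - z + z ^ 2) * (1 - z ^ 4) ≤ 1 := by
    have a1 : 0 ≤ 1 - z + z ^ 2 := by nlinarith
    have a2 : 1 - z + z ^ 2 ≤ 1 := by nlinarith
    exact mul_le_one₀ a2 (by linarith) (by linarith)
  have k2 : y * (z ^ 4 * (1 + z ^ 3 - z ^ 4)) ≤ 2 :=
    shr hy0 hy1 (shr h40 h4 (by linarith) (by norm_num)) (by norm_num)
  have k3 : (z + ζ + 1) * ((1 - z + z ^ 2) * (1 - z ^ 4) +
      y * (z ^ 4 * (1 + z ^ 3 - z ^ 4))) ≤ 3 * 3 := by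
    refine mul_le_mul (by linarith) (by linarith) ?_ (by norm_num)
    have a1 : 0 ≤ 1 - z + z ^ 2 := by nlinarith
    have a2 : 0 ≤ y * (z ^ 4 * (1 + z ^ 3 - z ^ 4)) :=
      mul_nonneg hy0 (mul_nonneg h40 (by linarith))
    have a3 : 0 ≤ (1 - z + z ^ 2) * (1 - z ^ 4) := mul_nonneg a1 (by linarith)
    linarith
  have k4 := mul_le_mul_of_nonneg_left k3 (show 0 ≤ z - ζ by linarith)
  have k5 : ζ ^ 8 * y ≤ z ^ 8 * y :=
    mul_le_mul_of_nonneg_right (pow_le_pow_left₀ hζ0.le hz 8) hy0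
  rw [e]
  linarith

/-- The explicit upper bound at the parameters `(b - 1, b)` with `b = (M+2)/(2M+5)`. -/
theorem up_explicit (M : ℕ) {a b r s : ℝ} (d : Dat M a b r s) {ζ : ℝ} (hζ0 : 0 < ζ)
    (hζ2 : ζ ^ 2 = 1 - ζ) :
    ζ + ζ ^ (M + 10) / 9 ≤ Real.exp (-(ent a b)) := by
  by_contra hcon
  push Not at hcon
  have hab := d.inP
  set g : ℝ := Real.exp (ent a b) with hg
  have hg0 : 0 < g := Real.exp_pos _
  set ξ := Real.exp (-(ent a b)) with hξ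
  have hξ0 : 0 < ξ := Real.exp_pos _
  have hξg : ξ * g = 1 := by
    rw [hξ, hg, ← Real.exp_add]; simp
  have hζ12 : 1 / 2 < ζ := by
    by_contra hh
    push Not at hh
    nlinarith
  have hζ23 : ζ < 31 / 50 := by
    by_contra hh
    push Not at hh
    nlinarith
  have hle : ent a b ≤ Real.log ((1 + √5) / 2) := entropy_le hab (ent_spec hab)
  have hs5 : √5 ^ 2 = 5 := Real.sq_sqrt (by norm_num)
  have hs50 : 0 ≤ √5 := Real.sqrt_nonneg _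
  have hφ0 : (0 : ℝ) < (1 + √5) / 2 := by positivity
  have hζφ : ζ * ((1 + √5) / 2) = 1 := by
    have h1 : (ζ * ((1 + √5) / 2) - 1) * (ζ + (1 + √5) / 2) = 0 := by
      have h2 : ((1 + √5) / 2) ^ 2 = (1 + √5) / 2 + 1 := by nlinarith
      linear_combination ((1 + √5) / 2) * hζ2 + ζ * h2
    rcases mul_eq_zero.1 h1 with h | h
    · linarith
    · exfalso; linarith
  have hζξ : ζ ≤ ξ := by
    have h1 : g ≤ (1 + √5) / 2 := by
      rw [hg, ← Real.exp_log hφ0]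
      exact Real.exp_le_exp.2 hle
    have h2 : ζ * g ≤ ξ * g := by
      rw [hξg, ← hζφ]
      exact mul_le_mul_of_nonneg_left h1 hζ0.le
    exact le_of_mul_le_mul_right h2 hg0
  have hpow : ζ ^ (M + 10) ≤ ζ ^ 10 := pow_le_pow_of_le_one hζ0.le (by linarith) (by omega)
  have hζ10 : ζ ^ 10 ≤ (31 / 50) ^ 10 := pow_le_pow_left₀ hζ0.le hζ23.le 10
  have hξ2 : ξ < 63 / 100 := by
    have : ((31 : ℝ) / 50) ^ 10 / 9 < 1 / 100 := by norm_num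
    linarith
  have hy1 : ζ ^ (M + 2) ≤ 1 := pow_le_one₀ hζ0.le (by linarith)
  have hyξ1 : ξ ^ (M + 2) ≤ 1 := pow_le_one₀ hξ0.le (by linarith)
  have hF : 0 < FF ξ (ξ ^ (M + 2)) := by
    have h1 := FF_ge hζ0 hζ2 hζξ (by linarith) (by positivity : 0 ≤ ξ ^ (M + 2)) hyξ1
    have h2 : ζ ^ 8 * ζ ^ (M + 2) ≤ ζ ^ 8 * ξ ^ (M + 2) :=
      mul_le_mul_of_nonneg_left (pow_le_pow_left₀ hζ0.le hζξ _) (by positivity)
    have h3 : ζ ^ 8 * ζ ^ (M + 2) = ζ ^ (M + 10) := by ring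
    linarith
  have hcont : Continuous fun z : ℝ => FF z (z ^ (M + 2)) := by
    unfold FF
    fun_prop
  set δ := FF ξ (ξ ^ (M + 2)) / 2 with hδ
  have hδ0 : 0 < δ := by positivity
  have hev : ∀ᶠ z in 𝓝 ξ, δ < FF z (z ^ (M + 2)) :=
    hcont.continuousAt.eventually (lt_mem_nhds (by rw [hδ]; linarith))
  obtain ⟨ε, hε, hε'⟩ := Metric.eventually_nhds_iff.1 hev
  set z0 := max (1 / 2) (ξ - ε) with hz0
  have hz0ζ : z0 < ξ := max_lt (by linarith) (by linarith)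
  have hM0 : (0 : ℝ) ≤ M := by positivity
  set C2 := (15 * ((2 * (M : ℝ) + 21) / δ) + (4 * M + 46)) * 15 + 3 with hC2
  obtain ⟨o1, o2, o3⟩ := orbits M d
  have hall : ∀ z ∈ Ioo z0 ξ, z ^ (M + 8) ≤ C2 * (1 - z * g) := by
    intro z hz
    obtain ⟨hz1, hz2⟩ := hz
    have hzh : 1 / 2 < z := (le_max_left _ _).trans_lt hz1
    have hzp : 0 < z := by linarith
    have hzl : z < 1 := by linarith
    have hzε : ξ - ε < z := (le_max_right _ _).trans_lt hz1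
    have hFz : δ < FF z (z ^ (M + 2)) := hε' (by
      rw [Real.dist_eq, abs_lt]
      constructor <;> linarith)
    have hzg : z * Real.exp (ent a b) < 1 := by
      rw [← hg, ← hξg]
      exact mul_lt_mul_of_pos_right hz2 hg0
    have hz4 : z ^ 4 ≤ (63 / 100) ^ 4 := pow_le_pow_left₀ hzp.le (by linarith) 4
    have hvz : 1 / 5 ≤ 1 - z - z ^ 4 := by
      have : ((63 : ℝ) / 100) ^ 4 < 16 / 100 := by norm_num
      linarith
    have hu : 1 / 3 ≤ 1 - z := by linarith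
    have hc3 : (1 - z)⁻¹ ≤ 3 := by
      rw [inv_le_comm₀ (by linarith) (by norm_num)]
      linarith
    obtain ⟨k1, k2⟩ := estimates M d hzp hzl (by linarith) hc3 hzg
    have hP0 : 0 ≤ G a b z (Ioo 0 1) := G_nonneg hzp _
    have hT0 : 0 ≤ G a b z univ := G_nonneg hzp _
    have k3 : G a b z (Ioo 0 1) ≤ (2 * (M : ℝ) + 21) / δ := by
      rw [le_div_iff₀ hδ0]
      have := mul_le_mul_of_nonneg_right hFz.le hP0
      linarith
    have k4 : 1 / 15 * G a b z univ ≤ 15 * ((2 * (M : ℝ) + 21) / δ) + (4 * M + 46) := by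
      have q1 : 1 / 3 * (1 / 5 * G a b z univ) ≤ (1 - z) * ((1 - z - z ^ 4) * G a b z univ) :=
        mul_le_mul hu (mul_le_mul_of_nonneg_right hvz hT0) (by positivity) (by linarith)
      linarith
    have k6 := G_univ_ge hab hzp hzl hzg (M + 8) o1 o2 o3
    rw [← hg] at k6 hzg
    have hpos : 0 < 1 - z * g := by linarith
    have k7 : z ^ (M + 8) * (1 - z * g)⁻¹ ≤ C2 := by
      rw [hC2]
      linarith
    rw [← div_eq_mul_inv, div_le_iff₀ hpos] at k7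
    exact k7
  have hclosed : IsClosed {z : ℝ | z ^ (M + 8) ≤ C2 * (1 - z * g)} :=
    isClosed_le (by fun_prop) (by fun_prop)
  have hmem : ξ ∈ {z : ℝ | z ^ (M + 8) ≤ C2 * (1 - z * g)} := by
    have h1 : closure (Ioo z0 ξ) ⊆ _ := hclosed.closure_subset_iff.2 hall
    rw [closure_Ioo hz0ζ.ne] at h1
    exact h1 ⟨hz0ζ.le, le_rfl⟩
  have hfin : ξ ^ (M + 8) ≤ C2 * (1 - ξ * g) := hmem
  rw [hξg, sub_self, mul_zero] at hfin
  have : 0 < ξ ^ (M + 8) := by positivity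
  linarith

end Pool.Agent.H16E
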