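import Pool.Agent.H16E.Square

/-!
# The right part of the parameter set, and the plateau
-/

set_option autoImplicit false

namespace Pool.Agent.H16E

open Filter Topology Set Pool.Agent.R660.CF Pool.Agent.R294.CF

variable {a b a' b' : ℝ}

/-- The entropy is nonincreasing for the product order on the right part. -/
theorem right_anti (hab : InP a b) (hab' : InP a' b') (haa : a' ≤ a) (hbb : b' ≤ b)
    (ha2 : -1 ≤ a') (hb1 : 1 / 2 ≤ b') : ent a b ≤ ent a' b' := by
  rw [← ent_symm hab, ← ent_symm hab']
  exact left_mono (InP_symm hab') (InP_symm hab) (by linarith) (by linarith) (by linarith)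
    (by linarith)

/-- The two parts cover the parameter set. -/
theorem cover (hab : InP a b) : (a ≤ -1 / 2 ∧ b ≤ 1) ∨ (-1 ≤ a ∧ 1 / 2 ≤ b) := by
  obtain ⟨h1, h2, h3, h4⟩ := hab
  rcases le_or_gt a (-1 / 2) with ha | ha
  · rcases le_or_gt b 1 with hb | hb
    · exact Or.inl ⟨ha, hb⟩
    · exact Or.inr ⟨by nlinarith, by linarith⟩
  · exact Or.inr ⟨by linarith, by linarith⟩

/-- the exceptional set for the reverse comparison on the plateau -/
noncomputable def EP (a b a' : ℝ) : Finset ℝ := {a', a, 0, b, -1, -1 / b}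

theorem mem_EP {x : ℝ} : x ∈ EP a b a' ↔ x = a' ∨ x = a ∨ x = 0 ∨ x = b ∨ x = -1 ∨
    x = -1 / b := by
  simp [EP]

theorem P_claims (hab : InP a b) (hab' : InP a' b) (haa : a' < a) (hb0 : 0 < b)
    (ha' : -1 ≤ a') (ha : a ≤ -1 / (1 + b)) (n : ℕ) :
    ∀ q, q ∈ D a' b n → q ∈ DE a b (EP a b a') n := by
  have hab0 := hab
  have hab0' := hab'
  obtain ⟨h1, h2, h3, h4⟩ := hab0
  obtain ⟨h1', h2', h3', h4'⟩ := hab0'
  have hb1 : 0 < 1 + b := by linarith
  have ha0 : a < 0 := lt_of_le_of_lt ha (div_neg_of_neg_of_pos (by norm_num) hb1)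
  induction n using Nat.strong_induction_on with
  | _ n ih =>
    intro q hq
    by_cases hqE : q ∈ EP a b a'
    · rcases n with _ | m
      · exact absurd hq (D_zero' _ _ _)
      · rw [DE_succ]; exact Or.inl hqE
    have hqE' := hqE
    rw [mem_EP] at hqE'
    push Not at hqE'
    obtain ⟨e1, e2, e3, e4, e5, e6⟩ := hqE'
    obtain ⟨m, rfl, hm⟩ := step_D hq e1 e3 e4 rfl
    have same : f a' b q = f a b q → q ∈ DE a b (EP a b a') (m + 1) := by
      intro hs
      rw [hs] at hm
      rw [DE_succ]
      exact Or.inr (ih m (by omega) _ hm)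
    rcases lt_or_ge q a' with hc1 | hc1
    · exact same (by rw [f_lt hc1, f_lt (by linarith)])
    rcases lt_or_ge q a with hc2 | hc2
    swap
    · rcases lt_or_ge q b with hc3 | hc3
      · exact same (by rw [f_mid hc1 hc3, f_mid hc2 hc3])
      · exact same (by rw [f_ge hab' hc3, f_ge hab hc3])
    have hq0 : q < 0 := by linarith
    have hqne : q ≠ 0 := hq0.ne
    have hqpos : 0 < q + 1 := by
      rcases (show (0 : ℝ) ≤ q + 1 by linarith).lt_or_eq with h | h
      · exact h
      · exact absurd (by linarith : q = -1) e5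
    have hqne1 : q + 1 ≠ 0 := hqpos.ne'
    have hqb : -(q * b) ≤ 1 := by nlinarith
    have hp1 : 1 < -1 / q := by
      rw [lt_div_iff_of_neg hq0]; linarith
    have hpb : b ≤ -1 / q := by
      rw [le_div_iff_of_neg hq0]; linarith
    have hpne : -1 / q ≠ b := by
      intro h
      apply e6
      rw [← h]
      field_simp
    rw [f_mid hc1 (by linarith)] at hm
    obtain ⟨k, rfl, hk⟩ := step_D (y := -1 / q - 1) hm (by intro h; linarith)
      (by intro h; linarith) hpne (f_ge hab' hpb)
    have hq2 : q * (1 + b) < -1 := by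
      have := lt_of_lt_of_le hc2 ha
      rw [lt_div_iff₀ hb1] at this
      exact this
    have hlt : -1 / q - 1 < b := by
      have : -1 / q < 1 + b := by
        rw [div_lt_iff_of_neg hq0]; linarith
      linarith
    obtain ⟨l, rfl, hl⟩ := step_D (y := 1 - 1 / (q + 1)) hk (by intro h; linarith)
      (by intro h; linarith) hlt.ne (by
        rw [f_mid (by linarith) hlt]
        have h6 : -1 / q - 1 = -(q + 1) / q := by field_simp; ring
        rw [h6, div_div_eq_mul_div]
        field_simp
        ring)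
    have hqb1 : q + 1 < b := by nlinarith
    have hbelow : -1 / (q + 1) < a := by
      have h5 : -1 / (q + 1) < -1 / b := by
        rw [neg_div, neg_div, neg_lt_neg_iff]
        exact one_div_lt_one_div_of_lt hqpos hqb1
      have h6 : -1 / b ≤ a := by
        rw [div_le_iff₀ hb0]; linarith
      linarith
    rw [DE_succ, f_lt hc2, DE_succ, f_mid (by linarith) hqb1, DE_succ, f_lt hbelow,
      show -1 / (q + 1) + 1 = 1 - 1 / (q + 1) by ring]
    right; right; right
    exact ih l (by omega) _ hl

/-- The plateau: for `b ≥ 0` the entropy does not depend on `a ∈ [-1, -1/(1+b)]`. -/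
theorem plateau_aux (hab : InP a b) (hab' : InP a' b) (haa : a' ≤ a)
    (ha' : -1 ≤ a') (ha : a ≤ -1 / (1 + b)) : ent a b = ent a' b := by
  obtain ⟨h1, h2, h3, h4⟩ := id hab
  obtain ⟨h1', h2', h3', h4'⟩ := id hab'
  rcases haa.lt_or_eq with hlt | heq
  swap
  · rw [heq]
  have hb0 : 0 < b := by
    rcases h2.lt_or_eq with h | h
    · exact h
    · exfalso
      rw [← h] at ha
      norm_num at ha
      linarith
  apply le_antisymm
  · refine compare_maps hab' (Epl a a' b) ?_ (ent_spec hab) (ent_spec hab')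
    rintro n x ⟨j, hj, hx⟩
    obtain ⟨i, hi, h⟩ := (plateau_claims hab hab' hlt hb0 ha' (by rwa [add_comm b 1]) j).1 x hx
    exact ⟨i, by omega, h⟩
  · exact compare_maps hab (EP a b a') (fun n x hx => P_claims hab hab' hlt hb0 ha' ha n x hx)
      (ent_spec hab') (ent_spec hab)

theorem plateau_all (hab : InP a b) (hab' : InP a' b) (h1 : -1 ≤ a) (h2 : a ≤ -1 / (1 + b))
    (h1' : -1 ≤ a') (h2' : a' ≤ -1 / (1 + b)) : ent a b = ent a' b := by
  rcases le_total a' a with h | h
  · exact plateau_aux hab hab' h h1' h2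
  · exact (plateau_aux hab' hab h h1 h2').symm

end Pool.Agent.H16E
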