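import Pool.Agent.H16E.MonoA
import Pool.Graph.R_seed8.R660.CF.Upper
import Pool.Graph.R_seed8.R294.CFCont
import Pool.Graph.R_seed8.R294.CFVal

/-!
# The square `[-1, -1/2] × [1/2, 1]`, and the complete monotonicity of the entropy
-/

set_option autoImplicit false

namespace Pool.Agent.H16E

open Filter Topology Set Pool.Agent.R660.CF Pool.Agent.R294.CF

variable {a b a' b' : ℝ}

/-- the exceptional set for the comparison in the square -/
noncomputable def ES (a b a' : ℝ) : Finset ℝ := {a', a, 0, b, b / (1 + b)}

theorem mem_ES {x : ℝ} : x ∈ ES a b a' ↔ x = a' ∨ x = a ∨ x = 0 ∨ x = b ∨ x = b / (1 + b) := by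
  simp [ES]

theorem S_claims (hab : InP a b) (hab' : InP a' b) (haa : a' < a) (ha1 : -1 ≤ a')
    (ha2 : a ≤ -1 / 2) (hb2 : 1 / 2 ≤ b) (hb1 : b ≤ 1) (n : ℕ) :
    (∀ q, q ∈ D a' b n → q ∈ DE a b (ES a b a') n) ∧
    (∀ u, -1 ≤ u → u < a → -1 / u ∈ D a' b n → u + 1 ∈ DE a b (ES a b a') n) := by
  have hab0 := hab
  have hab0' := hab'
  obtain ⟨h1, h2, h3, h4⟩ := hab0
  obtain ⟨h1', h2', h3', h4'⟩ := hab0'
  induction n using Nat.strong_induction_on with
  | _ n ih =>
    refine ⟨?_, ?_⟩
    · -- A
      intro q hq
      by_cases hqE : q ∈ ES a b a'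
      · rcases n with _ | m
        · exact absurd hq (D_zero' _ _ _)
        · rw [DE_succ]; exact Or.inl hqE
      have hqE' := hqE
      rw [mem_ES] at hqE'
      push Not at hqE'
      obtain ⟨e1, e2, e3, e4, e5⟩ := hqE'
      obtain ⟨m, rfl, hm⟩ := step_D hq e1 e3 e4 rfl
      have same : f a' b q = f a b q → q ∈ DE a b (ES a b a') (m + 1) := by
        intro hs
        rw [hs] at hm
        rw [DE_succ]
        exact Or.inr ((ih m (by omega)).1 _ hm)
      rcases lt_or_ge q a' with hc1 | hc1
      · exact same (by rw [f_lt hc1, f_lt (by linarith)])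
      rcases lt_or_ge q a with hc2 | hc2
      swap
      · rcases lt_or_ge q b with hc3 | hc3
        · exact same (by rw [f_mid hc1 hc3, f_mid hc2 hc3])
        · exact same (by rw [f_ge hab' hc3, f_ge hab hc3])
      rw [f_mid hc1 (by linarith)] at hm
      rw [DE_succ, f_lt hc2]
      exact Or.inr ((ih m (by omega)).2 q (by linarith) hc2 hm)
    · -- B
      intro u hu1 hu hh
      by_cases huE : u + 1 ∈ ES a b a'
      · rcases n with _ | m
        · exact absurd hh (D_zero' _ _ _)
        · rw [DE_succ]; exact Or.inl huE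
      have huE' := huE
      rw [mem_ES] at huE'
      push Not at huE'
      obtain ⟨e1, e2, e3, e4, e5⟩ := huE'
      have hu0 : u < 0 := by linarith
      have hune : u ≠ 0 := hu0.ne
      have hupos : 0 < u + 1 := lt_of_le_of_ne (by linarith) (Ne.symm e3)
      have hp1 : 1 < -1 / u := by
        rw [lt_div_iff_of_neg hu0]; linarith
      have hp2 : -1 / u < 2 := by
        rw [div_lt_iff_of_neg hu0]; linarith
      obtain ⟨m, rfl, hm⟩ := step_D (y := -1 / u - 1) hh (by intro h; linarith)
        (by intro h; linarith) (by intro h; linarith) (f_ge hab' (by linarith))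
      have hneb : -1 / u - 1 ≠ b := by
        intro h
        apply e5
        have h5 : (1 + b) ≠ 0 := by positivity
        rw [eq_div_iff h5, ← h]
        field_simp
        ring
      obtain ⟨k, rfl, hk⟩ := step_D hm (by intro h; linarith) (by intro h; linarith) hneb rfl
      have hu12 : u + 1 < 1 / 2 := by linarith
      have hi2 : 2 < 1 / (u + 1) := by
        rw [lt_div_iff₀ hupos]; linarith
      -- the orbit of `u + 1`
      have g1 : f a b (u + 1) = -1 / (u + 1) := f_mid (by linarith) (by linarith)
      have g2 : f a b (-1 / (u + 1)) = 1 - 1 / (u + 1) := by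
        rw [f_lt (by rw [neg_div]; linarith)]; ring
      rw [DE_succ, g1, DE_succ, g2]
      right; right
      rcases lt_or_ge (-1 / u - 1) b with hc1 | hc1
      · rw [f_mid (by linarith) hc1] at hk
        have e : -1 / (-1 / u - 1) = 1 - 1 / (u + 1) := by
          have h6 : -1 / u - 1 = -(u + 1) / u := by field_simp; ring
          have h7 : u + 1 ≠ 0 := hupos.ne'
          rw [h6, div_div_eq_mul_div]
          field_simp
          ring
        rw [e] at hk
        exact (ih k (by omega)).1 _ hk
      · rw [f_ge hab' hc1] at hk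
        have h2u : 1 + 2 * u < 0 := by linarith
        have h2une : 1 + 2 * u ≠ 0 := h2u.ne
        have hune1 : u + 1 ≠ 0 := hupos.ne'
        obtain ⟨l, rfl, hl⟩ := step_D (y := u / (1 + 2 * u)) hk (by intro h; linarith)
          (by intro h; linarith) (by intro h; linarith) (by
            rw [f_mid (by linarith) (by linarith)]
            have h6 : -1 / u - 1 - 1 = -(1 + 2 * u) / u := by field_simp; ring
            rw [h6, div_div_eq_mul_div, div_neg, ← neg_div]
            ring)
        have hgt1 : 1 < u / (1 + 2 * u) := by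
          rw [lt_div_iff_of_neg h2u]; linarith
        have hz : -1 / (2 - 1 / (u + 1)) = u / (1 + 2 * u) - 1 := by
          have h6 : 2 - 1 / (u + 1) = (1 + 2 * u) / (u + 1) := by field_simp; ring
          rw [h6, div_div_eq_mul_div, div_sub_one h2une, div_left_inj' h2une]
          ring
        obtain ⟨r, rfl, hr⟩ := step_D (y := -1 / (2 - 1 / (u + 1))) hl (by intro h; linarith)
          (by intro h; linarith) (by intro h; linarith) (by
            rw [f_ge hab' (by linarith), hz])
        rw [DE_succ, f_lt (by linarith), show 1 - 1 / (u + 1) + 1 = 2 - 1 / (u + 1) by ring]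
        right
        have hz1 : -1 ≤ 2 - 1 / (u + 1) := by
          have h7 : 1 / (u + 1) ≤ 3 := by
            rw [div_le_iff₀ hupos]
            have h8 : b * u ≥ -1 - u := by
              have h9 : b ≤ -1 / u - 1 := hc1
              have h10 : (-1 / u - 1) * u = -1 - u := by field_simp
              nlinarith
            nlinarith
          linarith
        rcases lt_or_ge (2 - 1 / (u + 1)) a with hva | hva
        · rw [DE_succ, f_lt hva]
          right
          exact (ih r (by omega)).2 _ hz1 hva hr
        · rw [DE_succ, f_mid hva (by linarith)]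
          right
          exact (ih r (by omega)).1 _ hr

/-- comparison in the square -/
theorem mono_square (hab : InP a b) (hab' : InP a' b) (haa : a' ≤ a) (ha1 : -1 ≤ a')
    (ha2 : a ≤ -1 / 2) (hb2 : 1 / 2 ≤ b) (hb1 : b ≤ 1)
    {h h' : ℝ} (h1 : IsEntropy a' b h') (h2 : IsEntropy a b h) : h' ≤ h := by
  rcases haa.lt_or_eq with hlt | heq
  · exact compare_maps hab (ES a b a')
      (fun n x hx => (S_claims hab hab' hlt ha1 ha2 hb2 hb1 n).1 x hx) h1 h2
  · subst heq
    exact (tendsto_nhds_unique h1 h2).le

theorem InP_neg_one {b : ℝ} (h0 : 0 ≤ b) (h1 : b ≤ 1) : InP (-1) b :=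
  ⟨by norm_num, h0, by linarith, by linarith⟩

theorem ent_symm {a b : ℝ} (hab : InP a b) : ent (-b) (-a) = ent a b :=
  tendsto_nhds_unique (ent_spec (InP_symm hab)) (entropy_symm hab (ent_spec hab))

theorem InP_square {a b : ℝ} (ha1 : -1 ≤ a) (ha2 : a ≤ -1 / 2) (hb2 : 1 / 2 ≤ b) (hb1 : b ≤ 1) :
    InP a b := ⟨by linarith, by linarith, by linarith, by nlinarith⟩

/-- The entropy is `log φ` on the square. -/
theorem ent_square {a b : ℝ} (ha1 : -1 ≤ a) (ha2 : a ≤ -1 / 2) (hb2 : 1 / 2 ≤ b) (hb1 : b ≤ 1) :
    ent a b = Real.log ((1 + √5) / 2) := by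
  have hab := InP_square ha1 ha2 hb2 hb1
  have e1 : ent (-1) 1 = Real.log ((1 + √5) / 2) := ent_s
  have hA : InP (-1) b := InP_neg_one (by linarith) hb1
  have hB : InP (-b) 1 := by
    have := InP_symm hA
    simpa using this
  have hC : InP (-1) 1 := InP_neg_one (by norm_num) le_rfl
  apply le_antisymm
  · exact entropy_le hab (ent_spec hab)
  · have s1 : ent (-1) 1 ≤ ent (-b) 1 := mono_square hB hC (by linarith) le_rfl (by linarith)
      (by norm_num) le_rfl (ent_spec hC) (ent_spec hB)
    have s2 : ent (-b) 1 = ent (-1) b := by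
      have := ent_symm hA
      simpa using this
    have s3 : ent (-1) b ≤ ent a b := mono_square hab hA ha1 le_rfl ha2 hb2 hb1 (ent_spec hA)
      (ent_spec hab)
    linarith

/-- The entropy is nondecreasing in `a` on the left part of the parameter set. -/
theorem left_a (hab : InP a b) (hab' : InP a' b) (haa : a' ≤ a) (ha2 : a ≤ -1 / 2) (hb1 : b ≤ 1) :
    ent a' b ≤ ent a b := by
  rcases le_or_gt b (1 / 2) with hb | hb
  · exact mono_entropy hab hab' haa hb (ent_spec hab') (ent_spec hab)
  rcases le_or_gt a (-1) with ha | ha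
  · exact mono_a hab hab' haa ha (ent_spec hab') (ent_spec hab)
  · rw [ent_square ha.le ha2 hb.le hb1]
    exact entropy_le hab' (ent_spec hab')

/-- The entropy is nondecreasing in `b` on the left part of the parameter set. -/
theorem left_b (hab : InP a b) (hab' : InP a b') (hbb : b' ≤ b) (ha2 : a ≤ -1 / 2) (hb1 : b ≤ 1) :
    ent a b' ≤ ent a b := by
  rcases le_or_gt b (1 / 2) with hb | hb
  · exact mono_b hab hab' hbb (Or.inl hb) (ent_spec hab') (ent_spec hab)
  rcases le_or_gt a (-1) with ha | ha
  · exact mono_b hab hab' hbb (Or.inr ha) (ent_spec hab') (ent_spec hab)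
  · rw [ent_square ha.le ha2 hb.le hb1]
    exact entropy_le hab' (ent_spec hab')

/-- The entropy is nondecreasing for the product order on the left part. -/
theorem left_mono (hab : InP a b) (hab' : InP a' b') (haa : a' ≤ a) (hbb : b' ≤ b)
    (ha2 : a ≤ -1 / 2) (hb1 : b ≤ 1) : ent a' b' ≤ ent a b := by
  obtain ⟨h1, h2, h3, h4⟩ := id hab
  obtain ⟨h1', h2', h3', h4'⟩ := id hab'
  rcases le_or_gt a (-1) with ha | ha
  · have hP : InP a b' := ⟨h1, h2', by linarith, by nlinarith⟩
    exact (left_a hP hab' haa ha2 (by linarith)).trans (left_b hab hP hbb ha2 hb1)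
  rcases le_or_gt a' (-1) with ha' | ha'
  · have hP : InP (-1) b' := InP_neg_one h2' (by linarith)
    have hQ : InP (-1) b := InP_neg_one h2 hb1
    exact ((left_a hP hab' ha' (by norm_num) (by linarith)).trans
      (left_b hQ hP hbb (by norm_num) hb1)).trans (left_a hab hQ ha.le ha2 hb1)
  · have hP : InP a' b := ⟨h1', h2, by linarith, by nlinarith⟩
    exact (left_b hP hab' hbb (by linarith) hb1).trans (left_a hab hP haa ha2 hb1)

end Pool.Agent.H16E
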