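import Pool.Agent.H16E.Min

/-!
# A lower estimate at `(-1, 1/K)`
-/

set_option autoImplicit false

namespace Pool.Agent.H16E

open Filter Topology Set Pool.Agent.R660.CF Pool.Agent.R294.CF

variable {z : ℝ}

theorem InP_one_M (M : ℕ) : InP (-1) (1 / ((M : ℝ) + 3)) := by
  have hM : (0 : ℝ) ≤ M := by positivity
  have hM3 : (0 : ℝ) < (M : ℝ) + 3 := by positivity
  exact InP_neg_one (by positivity) (by rw [div_le_one hM3]; linarith)

theorem key_lower (M : ℕ) (hz : 0 < z) (hz1 : z < 1)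
    (h : z * Real.exp (ent (-1) (1 / ((M : ℝ) + 3))) < 1) :
    z ^ (M + 6) + (1 - z) * z ^ 4 * ∑ j ∈ Finset.range (M + 2), z ^ (3 * j) ≤ (1 - z) ^ 2 := by
  have hab := InP_one_M M
  have hM : (0 : ℝ) ≤ M := by positivity
  have hM2 : (0 : ℝ) < (M : ℝ) + 2 := by positivity
  have hM3 : (0 : ℝ) < (M : ℝ) + 3 := by positivity
  set b : ℝ := 1 / ((M : ℝ) + 3) with hb
  have hb0 : 0 < b := by rw [hb]; positivity
  have hb12 : b ≤ 1 / 3 := by
    rw [hb]
    exact one_div_le_one_div_of_le (by norm_num) (by linarith)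
  -- basic preimages
  have fsub : ∀ y : ℝ, b ≤ y + 1 → f (-1) b (y + 1) = y := by
    intro y hy
    rw [f_ge hab hy]; ring
  have fadd : ∀ y : ℝ, y - 1 < -1 → f (-1) b (y - 1) = y := by
    intro y hy
    rw [f_lt hy]; ring
  have finv : ∀ y : ℝ, y ≠ 0 → -1 ≤ -1 / y → -1 / y < b → f (-1) b (-1 / y) = y := by
    intro y hy h1 h2
    rw [f_mid h1 h2]; field_simp
  set A := G (-1) b z (Ioo (-1 / 2) 0) with hA
  set P := G (-1) b z (Ioo 0 1) with hP
  have hPpos : 0 < P := by
    refine G_pos hab hz h (x := 1 / 2) ⟨by norm_num, by norm_num⟩ (n := 4) ?_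
    have e1 : f (-1) b (1 / 2) = -1 / 2 := by
      have := fsub (-1 / 2) (by linarith); norm_num at this ⊢; exact this
    have e2 : f (-1) b (-1 / 2) = 2 := finv 2 (by norm_num) (by norm_num) (by linarith)
    have e3 : f (-1) b 2 = 1 := by
      have := fsub 1 (by linarith); norm_num at this; exact this
    have e4 : f (-1) b 1 = 0 := by
      have := fsub 0 (by linarith); norm_num at this; exact this
    rw [show 4 = 0 + 1 + 1 + 1 + 1 from rfl, Function.iterate_succ_apply,
      Function.iterate_succ_apply, Function.iterate_succ_apply, Function.iterate_succ_apply,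
      Function.iterate_zero, id, e1, e2, e3, e4]
  have h1 : z ^ 1 * G (-1) b z (Ioi 2) ≤ A := by
    refine G_step hab hz h (fun y => -1 / y) 1 ?_
    intro y hy
    have hy2 : 2 < y := hy
    have hy0 : 0 < y := by linarith
    have k1 : -1 / 2 < -1 / y := by
      rw [neg_div, neg_div, neg_lt_neg_iff]
      exact one_div_lt_one_div_of_lt (by norm_num) hy2
    have k2 : -1 / y < 0 := div_neg_of_neg_of_pos (by norm_num) hy0
    refine ⟨⟨k1, k2⟩, ?_⟩
    rw [Function.iterate_one]
    exact finv y hy0.ne' (by linarith) (by linarith)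
  have h1' : z ^ 1 * G (-1) b z (Ioi 1) ≤ G (-1) b z (Ioo (-1) 0) := by
    refine G_step hab hz h (fun y => -1 / y) 1 ?_
    intro y hy
    have hy2 : 1 < y := hy
    have hy0 : 0 < y := by linarith
    have k1 : -1 < -1 / y := by
      rw [lt_div_iff₀ hy0]; linarith
    have k2 : -1 / y < 0 := div_neg_of_neg_of_pos (by norm_num) hy0
    refine ⟨⟨k1, k2⟩, ?_⟩
    rw [Function.iterate_one]
    exact finv y hy0.ne' k1.le (by linarith)
  have h2 : G (-1) b z (Ioo 1 2) + G (-1) b z (Ioi 2) ≤ G (-1) b z (Ioi 1) := by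
    refine G_add hab hz h ?_ (fun x hx => hx.1) (fun x hx => ?_)
    · rw [Set.disjoint_left]
      intro x hx hx'
      exact absurd hx.2 (not_lt.2 (le_of_lt hx'))
    · have : 2 < x := hx
      exact lt_trans (by norm_num) this
  have h3 : z ^ 1 * G (-1) b z (Ioi 1) ≤ G (-1) b z (Ioi 2) := by
    refine G_step hab hz h (fun y => y + 1) 1 ?_
    intro y hy
    have hy2 : 1 < y := hy
    refine ⟨show 2 < y + 1 by linarith, ?_⟩
    rw [Function.iterate_one]
    exact fsub y (by linarith)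
  have h4 : z ^ 1 * P ≤ G (-1) b z (Ioo 1 2) := by
    refine G_step hab hz h (fun y => y + 1) 1 ?_
    intro y hy
    obtain ⟨hy1, hy2⟩ := hy
    refine ⟨⟨by linarith, by linarith⟩, ?_⟩
    rw [Function.iterate_one]
    exact fsub y (by linarith)
  have h5 : G (-1) b z (Ioo 0 b) + G (-1) b z (Ioo b 1) ≤ P := by
    refine G_add hab hz h ?_ (fun x hx => ⟨hx.1, by linarith [hx.2]⟩)
      (fun x hx => ⟨by linarith [hx.1], hx.2⟩)
    rw [Set.disjoint_left]
    intro x hx hx'
    exact absurd hx.2 (not_lt.2 hx'.1.le)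
  have h6 : z ^ 1 * G (-1) b z (Ioo (b - 1) 0) ≤ G (-1) b z (Ioo b 1) := by
    refine G_step hab hz h (fun y => y + 1) 1 ?_
    intro y hy
    obtain ⟨hy1, hy2⟩ := hy
    refine ⟨⟨by linarith, by linarith⟩, ?_⟩
    rw [Function.iterate_one]
    exact fsub y (by linarith)
  have h7 : z ^ 1 * G (-1) b z (Iio (-((M : ℝ) + 3))) ≤ G (-1) b z (Ioo 0 b) := by
    refine G_step hab hz h (fun y => -1 / y) 1 ?_
    intro y hy
    have hy2 : y < -((M : ℝ) + 3) := hy
    have hy0 : y < 0 := by linarith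
    have k1 : 0 < -1 / y := div_pos_of_neg_of_neg (by norm_num) hy0
    have k2 : -1 / y < b := by
      rw [hb, div_lt_iff_of_neg hy0, one_div, inv_mul_lt_iff₀ hM3]
      linarith
    refine ⟨⟨k1, k2⟩, ?_⟩
    rw [Function.iterate_one]
    exact finv y hy0.ne (by linarith) k2
  have h7' : ∀ j : ℕ, z ^ j * G (-1) b z (Iio (-1)) ≤ G (-1) b z (Iio (-((j : ℝ) + 1))) := by
    intro j
    induction j with
    | zero => simp
    | succ j ih =>
      have hj : (0 : ℝ) ≤ j := by positivity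
      have hs : z ^ 1 * G (-1) b z (Iio (-((j : ℝ) + 1))) ≤
          G (-1) b z (Iio (-(((j + 1 : ℕ) : ℝ) + 1))) := by
        refine G_step hab hz h (fun y => y - 1) 1 ?_
        intro y hy
        have hy2 : y < -((j : ℝ) + 1) := hy
        refine ⟨?_, ?_⟩
        · show y - 1 < -(((j + 1 : ℕ) : ℝ) + 1)
          push_cast
          linarith
        · rw [Function.iterate_one]
          exact fadd y (by linarith)
      calc z ^ (j + 1) * G (-1) b z (Iio (-1)) = z ^ 1 * (z ^ j * G (-1) b z (Iio (-1))) := by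
            rw [pow_succ]; ring
        _ ≤ z ^ 1 * G (-1) b z (Iio (-((j : ℝ) + 1))) :=
            mul_le_mul_of_nonneg_left ih (by positivity)
        _ ≤ _ := hs
  have h8 : G (-1) b z (Ioo (-1) 0) + G (-1) b z (Iio (-1)) ≤ G (-1) b z (Iio 0) := by
    refine G_add hab hz h ?_ (fun x hx => hx.2) (fun x hx => ?_)
    · rw [Set.disjoint_left]
      intro x hx hx'
      exact absurd hx.1 (not_lt.2 (le_of_lt hx'))
    · have : x < -1 := hx
      show x < 0
      linarith
  have h9 : z ^ 1 * G (-1) b z (Iio 0) ≤ G (-1) b z (Iio (-1)) := by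
    refine G_step hab hz h (fun y => y - 1) 1 ?_
    intro y hy
    have hy2 : y < 0 := hy
    refine ⟨show y - 1 < -1 by linarith, ?_⟩
    rw [Function.iterate_one]
    exact fadd y (by linarith)
  have h11 : ∀ i : ℕ, i ≤ M + 1 → z ^ (3 * i) * A ≤
      G (-1) b z (Ioo (-((i : ℝ) + 1) / (i + 2)) (-(i : ℝ) / (i + 1))) := by
    intro i
    induction i with
    | zero =>
      intro _
      rw [mul_zero, pow_zero, one_mul, hA]
      norm_num
    | succ i ih =>
      intro hi
      have h0 := ih (by omega)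
      have hiM : (i : ℝ) + 1 ≤ M + 1 := by exact_mod_cast hi
      have hi0 : (0 : ℝ) ≤ i := by positivity
      have hi1 : (0 : ℝ) < (i : ℝ) + 1 := by positivity
      have hi2 : (0 : ℝ) < (i : ℝ) + 2 := by positivity
      have hi3 : (0 : ℝ) < (i : ℝ) + 1 + 2 := by positivity
      have hi4 : (0 : ℝ) < (i : ℝ) + 1 + 1 := by positivity
      have hs : z ^ 3 * G (-1) b z (Ioo (-((i : ℝ) + 1) / (i + 2)) (-(i : ℝ) / (i + 1))) ≤
          G (-1) b z (Ioo (-(((i + 1 : ℕ) : ℝ) + 1) / ((i + 1 : ℕ) + 2))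
            (-((i + 1 : ℕ) : ℝ) / ((i + 1 : ℕ) + 1))) := by
        refine G_step hab hz h (fun y => -1 / (y + 1 + 1)) 3 ?_
        intro y hy
        obtain ⟨hy1, hy2⟩ := hy
        rw [div_lt_iff₀ hi2] at hy1
        rw [lt_div_iff₀ hi1] at hy2
        have hy0 : 0 < y + 1 := by nlinarith
        have hy00 : 0 < y + 1 + 1 := by linarith
        have k3 : b ≤ y + 1 := by
          rw [hb, div_le_iff₀ hM3]; nlinarith
        have k4 : -1 / (y + 1 + 1) < 0 := div_neg_of_neg_of_pos (by norm_num) hy00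
        have k5 : -1 ≤ -1 / (y + 1 + 1) := by
          rw [le_div_iff₀ hy00]; linarith
        refine ⟨⟨?_, ?_⟩, ?_⟩
        · push_cast
          rw [div_lt_div_iff₀ hi3 hy00]
          nlinarith
        · push_cast
          rw [div_lt_div_iff₀ hy00 hi4]
          nlinarith
        · rw [show 3 = 0 + 1 + 1 + 1 from rfl, Function.iterate_succ_apply,
            Function.iterate_succ_apply, Function.iterate_succ_apply, Function.iterate_zero, id,
            finv (y + 1 + 1) hy00.ne' (by linarith) (by linarith), fsub (y + 1) (by linarith),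
            fsub y k3]
      refine le_trans ?_ hs
      calc z ^ (3 * (i + 1)) * A = z ^ 3 * (z ^ (3 * i) * A) := by
            rw [show 3 * (i + 1) = 3 + 3 * i by ring, pow_add]; ring
        _ ≤ _ := by gcongr
  have h12 : ∀ i : ℕ, i ≤ M + 1 → (∑ j ∈ Finset.range (i + 1), z ^ (3 * j)) * A ≤
      G (-1) b z (Ioo (-((i : ℝ) + 1) / (i + 2)) 0) := by
    intro i
    induction i with
    | zero =>
      intro _
      rw [hA]
      norm_num
    | succ i ih =>
      intro hi
      have h0 := ih (by omega)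
      have h1' := h11 (i + 1) hi
      rw [Finset.sum_range_succ, add_mul]
      have hi1 : (0 : ℝ) < (i : ℝ) + 1 := by positivity
      have hi2 : (0 : ℝ) < (i : ℝ) + 2 := by positivity
      have hi3 : (0 : ℝ) < (i : ℝ) + 1 + 2 := by positivity
      have e : (-((i + 1 : ℕ) : ℝ) / ((i + 1 : ℕ) + 1)) = -((i : ℝ) + 1) / (i + 2) := by
        push_cast
        congr 1
        ring
      rw [e] at h1'
      have e1 : -(((i + 1 : ℕ) : ℝ) + 1) / ((i + 1 : ℕ) + 2) < -((i : ℝ) + 1) / (i + 2) := by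
        push_cast
        rw [div_lt_div_iff₀ hi3 hi2]
        nlinarith
      have e2 : -((i : ℝ) + 1) / (i + 2) < 0 := div_neg_of_neg_of_pos (by linarith) hi2
      have hadd := G_add hab hz h
        (S := Ioo (-((i : ℝ) + 1) / (i + 2)) 0)
        (T := Ioo (-(((i + 1 : ℕ) : ℝ) + 1) / ((i + 1 : ℕ) + 2)) (-((i : ℝ) + 1) / (i + 2)))
        (U := Ioo (-(((i + 1 : ℕ) : ℝ) + 1) / ((i + 1 : ℕ) + 2)) 0) (by
          rw [Set.disjoint_left]
          intro x hx hx'
          exact absurd hx.1 (not_lt.2 hx'.2.le)) (fun x hx => ⟨by linarith [hx.1], hx.2⟩)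
        (fun x hx => ⟨hx.1, by linarith [hx.2]⟩)
      linarith
  have h14 : (∑ j ∈ Finset.range (M + 2), z ^ (3 * j)) * A ≤ G (-1) b z (Ioo (b - 1) 0) := by
    have := h12 (M + 1) le_rfl
    have e : -(((M + 1 : ℕ) : ℝ) + 1) / ((M + 1 : ℕ) + 2) = b - 1 := by
      rw [hb]; push_cast; field_simp; ring
    rwa [e] at this
  have h7'' := h7' (M + 2)
  have e7 : (((M + 2 : ℕ) : ℝ) + 1) = (M : ℝ) + 3 := by push_cast; ring
  rw [e7] at h7''
  set Sg := ∑ j ∈ Finset.range (M + 2), z ^ (3 * j) with hSg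
  have hSg0 : 0 ≤ Sg := Finset.sum_nonneg fun j _ => by positivity
  have hu : 0 < 1 - z := by linarith
  rw [pow_one] at h1 h1' h3 h4 h6 h7 h9
  generalize G (-1) b z (Ioi 2) = g2 at *
  generalize G (-1) b z (Ioi 1) = g1 at *
  generalize G (-1) b z (Ioo (-1) 0) = B at *
  generalize G (-1) b z (Ioo 1 2) = q at *
  generalize G (-1) b z (Ioo 0 b) = p0 at *
  generalize G (-1) b z (Ioo b 1) = p1 at *
  generalize G (-1) b z (Ioo (b - 1) 0) = B' at *
  generalize G (-1) b z (Iio (-((M : ℝ) + 3))) = E3 at *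
  generalize G (-1) b z (Iio (-1)) = E at *
  generalize G (-1) b z (Iio 0) = N0 at *
  clear_value A P Sg
  -- `(1 - z) g1 ≥ z P`, `(1 - z) g2 ≥ z^2 P`, `(1 - z) A ≥ z^3 P`
  have c1 : z * P ≤ (1 - z) * g1 := by linarith
  have c2 : z * (z * P) ≤ (1 - z) * g2 := by
    have k1 := mul_le_mul_of_nonneg_left h3 hu.le
    have k2 := mul_le_mul_of_nonneg_left c1 hz.le
    linarith
  have c3 : z * (z * (z * P)) ≤ (1 - z) * A := by
    have k1 := mul_le_mul_of_nonneg_left h1 hu.le
    have k2 := mul_le_mul_of_nonneg_left c2 hz.le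
    linarith
  -- `(1 - z) B ≥ z^2 P`, `(1 - z)^2 E ≥ z^3 P`
  have c4 : z * (z * P) ≤ (1 - z) * B := by
    have k1 := mul_le_mul_of_nonneg_left h1' hu.le
    have k2 := mul_le_mul_of_nonneg_left c1 hz.le
    linarith
  have c5 : z * B ≤ (1 - z) * E := by
    have k1 := mul_le_mul_of_nonneg_left h8 hz.le
    linarith
  have c6 : z * (z * (z * P)) ≤ (1 - z) * ((1 - z) * E) := by
    have k1 := mul_le_mul_of_nonneg_left c5 hu.le
    have k2 := mul_le_mul_of_nonneg_left c4 hz.le
    linarith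
  have c7 : z * (z ^ (M + 2) * E) ≤ p0 := by
    have k1 := mul_le_mul_of_nonneg_left h7'' hz.le
    linarith
  have c8 : z ^ (M + 6) * P ≤ (1 - z) * ((1 - z) * p0) := by
    have k1 : (1 - z) * ((1 - z) * (z * (z ^ (M + 2) * E))) ≤ (1 - z) * ((1 - z) * p0) :=
      mul_le_mul_of_nonneg_left (mul_le_mul_of_nonneg_left c7 hu.le) hu.le
    have k2 : z * z ^ (M + 2) * (z * (z * (z * P))) ≤
        z * z ^ (M + 2) * ((1 - z) * ((1 - z) * E)) :=
      mul_le_mul_of_nonneg_left c6 (by positivity)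
    have e : z ^ (M + 6) * P = z * z ^ (M + 2) * (z * (z * (z * P))) := by
      rw [show M + 6 = M + 2 + 4 by ring, pow_add z (M + 2) 4]; ring
    rw [e]
    linarith
  have c9 : z * Sg * ((1 - z) * (z * (z * (z * P)))) ≤ (1 - z) * ((1 - z) * (z * (Sg * A))) := by
    have k1 : z * Sg * ((1 - z) * (z * (z * (z * P)))) ≤ z * Sg * ((1 - z) * ((1 - z) * A)) :=
      mul_le_mul_of_nonneg_left (mul_le_mul_of_nonneg_left c3 hu.le) (by positivity)
    linarith
  have c10 : p0 + z * (Sg * A) ≤ P := by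
    have k1 := mul_le_mul_of_nonneg_left h14 hz.le
    linarith
  have c11 : (1 - z) * ((1 - z) * (p0 + z * (Sg * A))) ≤ (1 - z) * ((1 - z) * P) :=
    mul_le_mul_of_nonneg_left (mul_le_mul_of_nonneg_left c10 hu.le) hu.le
  have d5 : (z ^ (M + 6) + (1 - z) * z ^ 4 * Sg) * P ≤ (1 - z) ^ 2 * P := by
    linarith
  exact le_of_mul_le_mul_right d5 hPpos

end Pool.Agent.H16E
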