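import Pool.Agent.H16E.StrictUp

/-!
# The strict inequality between the entropies at `(-N, 1/N)` and at `(-1, 1/(N+1))`
-/

set_option autoImplicit false

namespace Pool.Agent.H16E

open Filter Topology Set Pool.Agent.R660.CF Pool.Agent.R294.CF

theorem orbits_N (M : ℕ) :
    f (-((M : ℝ) + 2)) (1 / ((M : ℝ) + 2)) 0 = 0 ∧
    (f (-((M : ℝ) + 2)) (1 / ((M : ℝ) + 2)))^[3 * (M + 1) + 2] (-((M : ℝ) + 2)) = 0 ∧
    (f (-((M : ℝ) + 2)) (1 / ((M : ℝ) + 2)))^[3 * (M + 1) + 2] (1 / ((M : ℝ) + 2)) = 0 := by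
  have hab := InP_M M
  have hM : (0 : ℝ) ≤ M := by positivity
  have hM2 : (0 : ℝ) < (M : ℝ) + 2 := by positivity
  set a : ℝ := -((M : ℝ) + 2) with ha
  set b : ℝ := 1 / ((M : ℝ) + 2) with hb
  have ha2 : a ≤ -2 := by rw [ha]; linarith
  have hb0 : 0 < b := by rw [hb]; positivity
  have hb12 : b ≤ 1 / 2 := by
    rw [hb]
    exact one_div_le_one_div_of_le (by norm_num) (by linarith)
  have f0 : f a b 0 = 0 := by
    rw [f_mid (by linarith) hb0]; norm_num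
  have key : ∀ j : ℕ, j ≤ M + 1 → (f a b)^[3 * j] (-(j : ℝ) / (j + 1)) = 0 := by
    intro j
    induction j with
    | zero => intro _; simp
    | succ j ih =>
      intro hj
      have h0 := ih (by omega)
      have hj0 : (0 : ℝ) ≤ j := by positivity
      have hj1 : (0 : ℝ) < (j : ℝ) + 1 := by positivity
      have hj2 : (0 : ℝ) < (j : ℝ) + 1 + 1 := by positivity
      have hjM : (j : ℝ) + 1 ≤ M + 1 := by exact_mod_cast hj
      have e1 : a ≤ -((j : ℝ) + 1) / (j + 1 + 1) := by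
        rw [le_div_iff₀ hj2]
        nlinarith
      have e2 : -((j : ℝ) + 1) / (j + 1 + 1) < b := by
        have : -((j : ℝ) + 1) / (j + 1 + 1) < 0 := div_neg_of_neg_of_pos (by linarith) hj2
        linarith
      have e3 : -1 / (-((j : ℝ) + 1) / (j + 1 + 1)) = 1 + 1 / (j + 1) := by
        field_simp
      have e4 : b ≤ 1 / ((j : ℝ) + 1) := by
        rw [hb]
        exact one_div_le_one_div_of_le hj1 (by linarith)
      rw [show 3 * (j + 1) = 3 * j + 1 + 1 + 1 by ring, Function.iterate_succ_apply,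
        Function.iterate_succ_apply, Function.iterate_succ_apply]
      have s1 : f a b (-((j : ℝ) + 1) / (j + 1 + 1)) = 1 + 1 / (j + 1) := by
        rw [f_mid e1 e2, e3]
      have p1 : 0 < 1 / ((j : ℝ) + 1) := by positivity
      have s2 : f a b (1 + 1 / ((j : ℝ) + 1)) = 1 / (j + 1) := by
        rw [f_ge hab (by linarith)]; ring
      have s3 : f a b (1 / ((j : ℝ) + 1)) = -(j : ℝ) / (j + 1) := by
        rw [f_ge hab e4]; field_simp; ring
      push_cast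
      rw [s1, s2, s3]
      exact h0
  have hB : (f a b)^[3 * (M + 1)] (b - 1) = 0 := by
    have h1 := key (M + 1) le_rfl
    have e : -(((M + 1 : ℕ) : ℝ)) / (((M + 1 : ℕ) : ℝ) + 1) = b - 1 := by
      rw [hb]
      push_cast
      field_simp
      ring
    rwa [e] at h1
  have fb : f a b b = b - 1 := f_ge hab le_rfl
  have fa : f a b a = b := by
    rw [f_mid le_rfl (by linarith), ha, hb]
    field_simp
  refine ⟨f0, ?_, ?_⟩
  · rw [Function.iterate_succ_apply, Function.iterate_succ_apply, fa, fb]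
    exact hB
  · rw [Function.iterate_succ_apply, fb, Function.iterate_succ_apply', hB, f0]

/-- The strict inequality. -/
theorem ent_strict (M : ℕ) {κ : ℝ} (hκ : κ ^ 3 = κ ^ 2 + 1) (hκ1 : 1 ≤ κ) :
    ent (-((M : ℝ) + 2)) (1 / ((M : ℝ) + 2)) < ent (-1) (1 / ((M : ℝ) + 3)) := by
  by_contra hcon
  push Not at hcon
  have hab := InP_M M
  have hM : (0 : ℝ) ≤ M := by positivity
  have hlog := ent_gt_M M hκ hκ1
  set H := ent (-((M : ℝ) + 2)) (1 / ((M : ℝ) + 2)) with hH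
  have hH0 : 0 < H := lt_of_le_of_lt (Real.log_nonneg hκ1) hlog
  set g : ℝ := Real.exp H with hg
  have hg0 : 0 < g := Real.exp_pos _
  set ξ := Real.exp (-H) with hξ
  have hξ0 : 0 < ξ := Real.exp_pos _
  have hξg : ξ * g = 1 := by
    rw [hξ, hg, ← Real.exp_add]; simp
  have hξ1 : ξ < 1 := by
    rw [hξ, Real.exp_lt_one_iff]
    linarith
  -- the lower estimate at `ξ`
  have hall : ∀ z ∈ Ioo (0 : ℝ) ξ,
      z ^ (M + 6) + (1 - z) * z ^ 4 * ∑ j ∈ Finset.range (M + 2), z ^ (3 * j) ≤ (1 - z) ^ 2 := by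
    intro z hz
    refine key_lower M hz.1 (hz.2.trans hξ1) ?_
    calc z * Real.exp (ent (-1) (1 / ((M : ℝ) + 3))) ≤ z * g :=
          mul_le_mul_of_nonneg_left (Real.exp_le_exp.2 hcon) hz.1.le
      _ < ξ * g := mul_lt_mul_of_pos_right hz.2 hg0
      _ = 1 := hξg
  have hclosed : IsClosed {z : ℝ | z ^ (M + 6) +
      (1 - z) * z ^ 4 * ∑ j ∈ Finset.range (M + 2), z ^ (3 * j) ≤ (1 - z) ^ 2} :=
    isClosed_le (by fun_prop) (by fun_prop)
  have hmem : ξ ∈ {z : ℝ | z ^ (M + 6) +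
      (1 - z) * z ^ 4 * ∑ j ∈ Finset.range (M + 2), z ^ (3 * j) ≤ (1 - z) ^ 2} := by
    have h1 : closure (Ioo (0 : ℝ) ξ) ⊆ _ := hclosed.closure_subset_iff.2 hall
    rw [closure_Ioo hξ0.ne] at h1
    exact h1 ⟨hξ0.le, le_rfl⟩
  have hlow : ξ ^ (M + 6) +
      (1 - ξ) * ξ ^ 4 * ∑ j ∈ Finset.range (M + 2), ξ ^ (3 * j) ≤ (1 - ξ) ^ 2 := hmem
  have hu : 0 < 1 - ξ := by linarith
  have hF : 0 < (1 - ξ) ^ 2 - (ξ ^ (3 * M + 7) +
      (1 - ξ) * ξ ^ 4 * ∑ j ∈ Finset.range (M + 1), ξ ^ (3 * j)) := by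
    have h1 : ξ ^ (3 * M + 7) < ξ ^ (M + 6) := pow_lt_pow_right_of_lt_one₀ hξ0 hξ1 (by omega)
    have h2 : ∑ j ∈ Finset.range (M + 1), ξ ^ (3 * j) ≤
        ∑ j ∈ Finset.range (M + 2), ξ ^ (3 * j) := by
      rw [Finset.sum_range_succ _ (M + 1)]
      have : 0 ≤ ξ ^ (3 * (M + 1)) := by positivity
      linarith
    have h3 := mul_le_mul_of_nonneg_left h2 (show 0 ≤ (1 - ξ) * ξ ^ 4 by positivity)
    linarith
  have hcont : Continuous fun z : ℝ => (1 - z) ^ 2 - (z ^ (3 * M + 7) +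
      (1 - z) * z ^ 4 * ∑ j ∈ Finset.range (M + 1), z ^ (3 * j)) := by
    fun_prop
  set δ := ((1 - ξ) ^ 2 - (ξ ^ (3 * M + 7) +
      (1 - ξ) * ξ ^ 4 * ∑ j ∈ Finset.range (M + 1), ξ ^ (3 * j))) / 2 with hδ
  have hδ0 : 0 < δ := by positivity
  have hev : ∀ᶠ z in 𝓝 ξ, δ < (1 - z) ^ 2 - (z ^ (3 * M + 7) +
      (1 - z) * z ^ 4 * ∑ j ∈ Finset.range (M + 1), z ^ (3 * j)) :=
    hcont.continuousAt.eventually (lt_mem_nhds (by rw [hδ]; linarith))
  obtain ⟨ε, hε, hε'⟩ := Metric.eventually_nhds_iff.1 hev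
  set z0 := max 0 (ξ - ε) with hz0
  have hz0ξ : z0 < ξ := max_lt hξ0 (by linarith)
  set c1 := (1 - ξ)⁻¹ with hc1
  have hc10 : 0 < c1 := inv_pos.2 hu
  set A1 := ((M : ℝ) + 3) * c1 / δ with hA1
  have hA10 : 0 ≤ A1 := by positivity
  set C2 := ((6 * M + 13) * A1 + (6 * M + 30) * c1) * c1 ^ 2 + c1 with hC2
  obtain ⟨o1, o2, o3⟩ := orbits_N M
  have hall2 : ∀ z ∈ Ioo z0 ξ, z ^ (3 * (M + 1) + 2) ≤ C2 * (1 - z * g) := by
    intro z hz
    obtain ⟨hz1, hz2⟩ := hz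
    have hzp : 0 < z := (le_max_left _ _).trans_lt hz1
    have hzl : z < 1 := by linarith
    have hzε : ξ - ε < z := (le_max_right _ _).trans_lt hz1
    have hFz := hε' (y := z) (by
        rw [Real.dist_eq, abs_lt]
        constructor <;> linarith)
    have hzg : z * Real.exp (ent (-((M : ℝ) + 2)) (1 / ((M : ℝ) + 2))) < 1 := by
      rw [← hH, ← hg, ← hξg]
      exact mul_lt_mul_of_pos_right hz2 hg0
    have hcz : (1 - z)⁻¹ ≤ c1 := by
      rw [hc1]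
      exact inv_anti₀ hu (by linarith)
    obtain ⟨k1, k2⟩ := up_estimates M hzp hzl hzg
    have hA0 : 0 ≤ G (-((M : ℝ) + 2)) (1 / ((M : ℝ) + 2)) z (Ioo (-1 / 2) 0) := G_nonneg hzp _
    have hT0 : 0 ≤ G (-((M : ℝ) + 2)) (1 / ((M : ℝ) + 2)) z univ := G_nonneg hzp _
    have k6 := G_univ_ge hab hzp hzl hzg (3 * (M + 1) + 2) o1 o2 o3
    rw [← hH, ← hg] at k6 hzg
    generalize G (-((M : ℝ) + 2)) (1 / ((M : ℝ) + 2)) z (Ioo (-1 / 2) 0) = A at *
    generalize G (-((M : ℝ) + 2)) (1 / ((M : ℝ) + 2)) z univ = T at *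
    have k3 : A ≤ A1 := by
      rw [hA1, le_div_iff₀ hδ0]
      have q1 := mul_le_mul_of_nonneg_right hFz.le hA0
      have q2 : ((M : ℝ) + 3) * (1 - z)⁻¹ ≤ (M + 3) * c1 :=
        mul_le_mul_of_nonneg_left hcz (by positivity)
      linarith
    have k4 : T ≤ ((6 * M + 13) * A1 + (6 * M + 30) * c1) * c1 ^ 2 := by
      have q1 : (1 - ξ) ^ 2 * T ≤ (1 - z) ^ 2 * T :=
        mul_le_mul_of_nonneg_right (pow_le_pow_left₀ hu.le (by linarith) 2) hT0
      have q2 : (6 * (M : ℝ) + 13) * A ≤ (6 * M + 13) * A1 :=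
        mul_le_mul_of_nonneg_left k3 (by positivity)
      have q3 : (6 * (M : ℝ) + 30) * (1 - z)⁻¹ ≤ (6 * M + 30) * c1 :=
        mul_le_mul_of_nonneg_left hcz (by positivity)
      have q4 : (1 - ξ) ^ 2 * T ≤ (6 * M + 13) * A1 + (6 * M + 30) * c1 := by linarith
      have q5 : T = (1 - ξ) ^ 2 * T * c1 ^ 2 := by
        rw [hc1]
        field_simp
      rw [q5]
      exact mul_le_mul_of_nonneg_right q4 (by positivity)
    have hpos : 0 < 1 - z * g := by linarith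
    have k7 : z ^ (3 * (M + 1) + 2) * (1 - z * g)⁻¹ ≤ C2 := by
      rw [hC2]
      linarith
    rw [← div_eq_mul_inv, div_le_iff₀ hpos] at k7
    exact k7
  have hclosed2 : IsClosed {z : ℝ | z ^ (3 * (M + 1) + 2) ≤ C2 * (1 - z * g)} :=
    isClosed_le (by fun_prop) (by fun_prop)
  have hmem2 : ξ ∈ {z : ℝ | z ^ (3 * (M + 1) + 2) ≤ C2 * (1 - z * g)} := by
    have h1 : closure (Ioo z0 ξ) ⊆ _ := hclosed2.closure_subset_iff.2 hall2
    rw [closure_Ioo hz0ξ.ne] at h1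
    exact h1 ⟨hz0ξ.le, le_rfl⟩
  have hfin : ξ ^ (3 * (M + 1) + 2) ≤ C2 * (1 - ξ * g) := hmem2
  rw [hξg, sub_self, mul_zero] at hfin
  have : 0 < ξ ^ (3 * (M + 1) + 2) := by positivity
  linarith

/-- For `0 < b ≤ 1/2` the function `a ↦ H (a, b)` is not constant: its value at the left end
`-1/b` is smaller than its value at `-1`. -/
theorem ent_section_lt {b κ : ℝ} (hκ : κ ^ 3 = κ ^ 2 + 1) (hκ1 : 1 ≤ κ) (hb0 : 0 < b)
    (hb : b ≤ 1 / 2) : InP (-1 / b) b ∧ InP (-1) b ∧ ent (-1 / b) b < ent (-1) b := by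
  have hinv : 2 ≤ 1 / b := by
    rw [le_div_iff₀ hb0]; linarith
  have hN2 : 2 ≤ ⌊1 / b⌋₊ := Nat.le_floor (by exact_mod_cast hinv)
  have hfl : (⌊1 / b⌋₊ : ℝ) ≤ 1 / b := Nat.floor_le (by positivity)
  have hlt : 1 / b < (⌊1 / b⌋₊ : ℝ) + 1 := Nat.lt_floor_add_one _
  obtain ⟨M, hM⟩ : ∃ M, ⌊1 / b⌋₊ = M + 2 := ⟨⌊1 / b⌋₊ - 2, by omega⟩
  rw [hM] at hfl hlt
  push_cast at hfl hlt
  have hM0 : (0 : ℝ) ≤ M := by positivity
  have hM2 : (0 : ℝ) < (M : ℝ) + 2 := by positivity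
  have hM3 : (0 : ℝ) < (M : ℝ) + 3 := by positivity
  have e1 : -1 / b * b = -1 := by field_simp
  have e2 : -1 / b = -(1 / b) := by rw [neg_div]
  have hP : InP (-1 / b) b := ⟨by rw [e2]; linarith, hb0.le, by rw [e2]; linarith, by linarith⟩
  have hQ : InP (-1) b := InP_neg_one hb0.le (by linarith)
  refine ⟨hP, hQ, ?_⟩
  have h1 : ent (-1 / b) b ≤ ent (-((M : ℝ) + 2)) (1 / ((M : ℝ) + 2)) := by
    refine left_mono (InP_M M) hP (by rw [e2]; linarith) ?_ (by linarith) ?_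
    · rw [le_div_iff₀ hM2]
      rw [le_div_iff₀ hb0] at hfl
      linarith
    · rw [div_le_one hM2]; linarith
  have h2 : ent (-1) (1 / ((M : ℝ) + 3)) ≤ ent (-1) b := by
    refine left_mono hQ (InP_one_M M) le_rfl ?_ (by norm_num) (by linarith)
    rw [div_le_iff₀ hM3]
    rw [div_lt_iff₀ hb0] at hlt
    linarith
  exact (h1.trans_lt (ent_strict M hκ hκ1)).trans_le h2

end Pool.Agent.H16E
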