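import Pool.Agent.H16E.Flat
import Pool.Agent.H16E.Strict

/-!
# An upper estimate at `(-N, 1/N)`, and the strict inequality between the entropies at `(-N, 1/N)`
and at `(-1, 1/(N+1))`
-/

set_option autoImplicit false

namespace Pool.Agent.H16E

open Filter Topology Set Pool.Agent.R660.CF Pool.Agent.R294.CF

variable {z : ℝ}

theorem up_estimates (M : ℕ) (hz : 0 < z) (hz1 : z < 1)
    (h : z * Real.exp (ent (-((M : ℝ) + 2)) (1 / ((M : ℝ) + 2))) < 1) :
    ((1 - z) ^ 2 - (z ^ (3 * M + 7) + (1 - z) * z ^ 4 * ∑ j ∈ Finset.range (M + 1), z ^ (3 * j))) *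
      G (-((M : ℝ) + 2)) (1 / ((M : ℝ) + 2)) z (Ioo (-1 / 2) 0) ≤ ((M : ℝ) + 3) * (1 - z)⁻¹ ∧
    (1 - z) ^ 2 * G (-((M : ℝ) + 2)) (1 / ((M : ℝ) + 2)) z univ ≤
      (6 * M + 13) * G (-((M : ℝ) + 2)) (1 / ((M : ℝ) + 2)) z (Ioo (-1 / 2) 0) +
        (6 * M + 30) * (1 - z)⁻¹ := by
  have hab := InP_M M
  have hM : (0 : ℝ) ≤ M := by positivity
  set a : ℝ := -((M : ℝ) + 2) with ha
  set b : ℝ := 1 / ((M : ℝ) + 2) with hb
  have ha2 : a ≤ -2 := by rw [ha]; linarith
  have hb0 : 0 < b := by rw [hb]; positivity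
  have hb12 : b ≤ 1 / 2 := by
    rw [hb]
    exact one_div_le_one_div_of_le (by norm_num) (by linarith)
  have hM1 : (0 : ℝ) < (M : ℝ) + 1 := by positivity
  have hM2 : (0 : ℝ) < (M : ℝ) + 2 := by positivity
  have hu : 0 < 1 - z := by linarith
  set c := (1 - z)⁻¹ with hcdef
  have hc : (1 - z) * c = 1 := mul_inv_cancel₀ hu.ne'
  have hc0 : 0 < c := inv_pos.2 hu
  have stepL : ∀ {S T : Set ℝ}, (∀ x ∈ S, x < a ∧ x + 1 ∈ T) → G a b z S ≤ z * G a b z T := by
    intro S T hST
    refine G_le_step hab hz h (fun y => y - 1) fun x hx => ?_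
    obtain ⟨h1, h2⟩ := hST x hx
    rw [f_lt h1]
    exact ⟨by linarith, h2, by ring⟩
  have stepR : ∀ {S T : Set ℝ}, (∀ x ∈ S, b ≤ x ∧ x - 1 ∈ T) → G a b z S ≤ z * G a b z T := by
    intro S T hST
    refine G_le_step hab hz h (fun y => y + 1) fun x hx => ?_
    obtain ⟨h1, h2⟩ := hST x hx
    rw [f_ge hab h1]
    exact ⟨by linarith, h2, by ring⟩
  have stepM : ∀ {S T : Set ℝ}, (∀ x ∈ S, a ≤ x ∧ x < b ∧ x ≠ 0 ∧ -1 / x ∈ T) →
      G a b z S ≤ z * G a b z T := by
    intro S T hST
    refine G_le_step hab hz h (fun y => -1 / y) fun x hx => ?_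
    obtain ⟨h1, h2, h3, h4⟩ := hST x hx
    rw [f_mid h1 h2]
    refine ⟨h3, h4, ?_⟩
    show -1 / (-1 / x) = x
    field_simp
  set A := G a b z (Ioo (-1 / 2) 0) with hA
  have hA0 : 0 ≤ A := G_nonneg hz _
  -- (i)
  have i1 : A ≤ z * G a b z (Ioi 2) := by
    refine stepM fun x hx => ⟨by linarith [hx.1], by linarith [hx.2], hx.2.ne, ?_⟩
    show 2 < -1 / x
    rw [lt_div_iff_of_neg hx.2]
    linarith [hx.1]
  have i2 : G a b z (Ioi 2) ≤ z * (G a b z (Ioo 1 2) + G a b z (Ioi 2) + c) := by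
    have h1 : G a b z (Ioi 2) ≤ z * G a b z (Ioi 1) := by
      refine stepR fun x hx => ?_
      have hx' : 2 < x := hx
      refine ⟨by linarith, ?_⟩
      show 1 < x - 1
      linarith
    have h2 := G_cover hab hz hz1 h [Ioo 1 2, Ioi 2] [2] (Ioi 1) (by
      intro x hx
      have hx' : 1 < x := hx
      rcases lt_trichotomy x 2 with h1 | h1 | h1
      · exact Or.inl ⟨Ioo 1 2, by simp, hx', h1⟩
      · exact Or.inr (by simp [h1])
      · exact Or.inl ⟨Ioi 2, by simp, h1⟩)
    simp only [List.map_cons, List.map_nil, List.sum_cons, List.sum_nil, List.length_cons,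
      List.length_nil] at h2
    push_cast at h2
    exact h1.trans (mul_le_mul_of_nonneg_left (by linarith) hz.le)
  have i3 : G a b z (Ioo 1 2) ≤ z * G a b z (Ioo 0 1) :=
    stepR fun x hx => ⟨by linarith [hx.1], by linarith [hx.1], by linarith [hx.2]⟩
  have i4 : G a b z (Ioo 0 1) ≤ G a b z (Ioo 0 b) + z * G a b z (Ioo (b - 1) 0) + c := by
    have h1 := G_cover hab hz hz1 h [Ioo 0 b, Ioo b 1] [b] (Ioo 0 1) (by
      intro x hx
      rcases lt_trichotomy x b with h1 | h1 | h1
      · exact Or.inl ⟨Ioo 0 b, by simp, hx.1, h1⟩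
      · exact Or.inr (by simp [h1])
      · exact Or.inl ⟨Ioo b 1, by simp, h1, hx.2⟩)
    have h2 : G a b z (Ioo b 1) ≤ z * G a b z (Ioo (b - 1) 0) :=
      stepR fun x hx => ⟨hx.1.le, by linarith [hx.1], by linarith [hx.2]⟩
    simp only [List.map_cons, List.map_nil, List.sum_cons, List.sum_nil, List.length_cons,
      List.length_nil] at h1
    push_cast at h1
    linarith
  have i5 : G a b z (Ioo 0 b) ≤ z * G a b z (Iio a) := by
    refine stepM fun x hx => ⟨by linarith [hx.1], hx.2, hx.1.ne', ?_⟩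
    show -1 / x < a
    rw [ha, div_lt_iff₀ hx.1]
    have h3 := hx.2
    rw [hb, lt_div_iff₀ hM2] at h3
    nlinarith
  have i6 : G a b z (Iio a) ≤ z * (G a b z (Iio a) + G a b z (Ioo a (a + 1)) + c) := by
    have h1 : G a b z (Iio a) ≤ z * G a b z (Iio (a + 1)) := by
      refine stepL fun x hx => ?_
      have hx' : x < a := hx
      refine ⟨hx', ?_⟩
      show x + 1 < a + 1
      linarith
    have h2 := G_cover hab hz hz1 h [Iio a, Ioo a (a + 1)] [a] (Iio (a + 1)) (by
      intro x hx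
      have hx' : x < a + 1 := hx
      rcases lt_trichotomy x a with h1 | h1 | h1
      · exact Or.inl ⟨Iio a, by simp, h1⟩
      · exact Or.inr (by simp [h1])
      · exact Or.inl ⟨Ioo a (a + 1), by simp, h1, hx'⟩)
    simp only [List.map_cons, List.map_nil, List.sum_cons, List.sum_nil, List.length_cons,
      List.length_nil] at h2
    push_cast at h2
    exact h1.trans (mul_le_mul_of_nonneg_left (by linarith) hz.le)
  have i7 : G a b z (Ioo a (a + 1)) ≤
      z * (z * G a b z (Ioo (-((M : ℝ) + 1) / (M + 2)) (-(M : ℝ) / (M + 1)))) := by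
    have h1 : G a b z (Ioo a (a + 1)) ≤ z * G a b z (Ioo b (1 / ((M : ℝ) + 1))) := by
      refine stepM fun x hx => ?_
      obtain ⟨hx1, hx2⟩ := hx
      have hx0 : x < 0 := by linarith
      refine ⟨hx1.le, by linarith, hx0.ne, ?_, ?_⟩
      · show b < -1 / x
        rw [lt_div_iff_of_neg hx0, hb, div_mul_eq_mul_div, lt_div_iff₀ hM2]
        rw [ha] at hx1
        linarith
      · show -1 / x < 1 / ((M : ℝ) + 1)
        rw [div_lt_iff_of_neg hx0, div_mul_eq_mul_div, div_lt_iff₀ hM1]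
        rw [ha] at hx2
        linarith
    have h2 : G a b z (Ioo b (1 / ((M : ℝ) + 1))) ≤
        z * G a b z (Ioo (-((M : ℝ) + 1) / (M + 2)) (-(M : ℝ) / (M + 1))) := by
      refine stepR fun x hx => ⟨hx.1.le, ?_, ?_⟩
      · have e : -((M : ℝ) + 1) / (M + 2) = b - 1 := by
          rw [hb]; field_simp; ring
        rw [e]
        linarith [hx.1]
      · have e : -(M : ℝ) / (M + 1) = 1 / ((M : ℝ) + 1) - 1 := by
          field_simp; ring
        rw [e]
        linarith [hx.2]
    exact h1.trans (mul_le_mul_of_nonneg_left h2 hz.le)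
  have i8 : ∀ i : ℕ, i ≤ M →
      G a b z (Ioo (-((i : ℝ) + 1) / (i + 2)) (-(i : ℝ) / (i + 1))) ≤ z ^ (3 * i) * A := by
    intro i
    induction i with
    | zero =>
      intro _
      rw [mul_zero, pow_zero, one_mul, hA]
      norm_num
    | succ i ih =>
      intro hi
      have h0 := ih (by omega)
      have hiM : (i : ℝ) + 1 ≤ M := by exact_mod_cast hi
      have hi0 : (0 : ℝ) ≤ i := by positivity
      have hi1 : (0 : ℝ) < (i : ℝ) + 1 := by positivity
      have hi2 : (0 : ℝ) < (i : ℝ) + 2 := by positivity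
      have hi3 : (0 : ℝ) < (i : ℝ) + 3 := by positivity
      have s1 : G a b z (Ioo (-(((i + 1 : ℕ) : ℝ) + 1) / ((i + 1 : ℕ) + 2))
            (-((i + 1 : ℕ) : ℝ) / ((i + 1 : ℕ) + 1))) ≤
          z * G a b z (Ioo (1 + 1 / ((i : ℝ) + 2)) (1 + 1 / ((i : ℝ) + 1))) := by
        refine stepM fun x hx => ?_
        obtain ⟨hx1, hx2⟩ := hx
        push_cast at hx1 hx2
        have e1 : (-((i : ℝ) + 1 + 1) / (i + 1 + 2)) = -((i + 2) / (i + 3)) := by
          rw [show (i : ℝ) + 1 + 1 = i + 2 by ring, show (i : ℝ) + 1 + 2 = i + 3 by ring, neg_div]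
        have e2 : (-((i : ℝ) + 1) / (i + 1 + 1)) = -((i + 1) / (i + 2)) := by
          rw [show (i : ℝ) + 1 + 1 = i + 2 by ring, neg_div]
        rw [e1] at hx1
        rw [e2] at hx2
        have p1 : 0 < ((i : ℝ) + 1) / (i + 2) := by positivity
        have p2 : ((i : ℝ) + 2) / (i + 3) < 1 := by
          rw [div_lt_one hi3]; linarith
        have hx0 : x < 0 := by linarith
        have hx1' : ((i : ℝ) + 3) * (-x) < i + 2 := by
          have : -x < ((i : ℝ) + 2) / (i + 3) := by linarith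
          rw [lt_div_iff₀ hi3] at this
          linarith
        have hx2' : (i : ℝ) + 1 < (i + 2) * (-x) := by
          have : ((i : ℝ) + 1) / (i + 2) < -x := by linarith
          rw [div_lt_iff₀ hi2] at this
          linarith
        refine ⟨by linarith, by linarith, hx0.ne, ?_, ?_⟩
        · show 1 + 1 / ((i : ℝ) + 2) < -1 / x
          rw [lt_div_iff_of_neg hx0]
          have e : 1 + 1 / ((i : ℝ) + 2) = (i + 3) / (i + 2) := by field_simp; ring
          rw [e, div_mul_eq_mul_div, lt_div_iff₀ hi2]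
          linarith
        · show -1 / x < 1 + 1 / ((i : ℝ) + 1)
          rw [div_lt_iff_of_neg hx0]
          have e : 1 + 1 / ((i : ℝ) + 1) = (i + 2) / (i + 1) := by field_simp; ring
          rw [e, div_mul_eq_mul_div, div_lt_iff₀ hi1]
          linarith
      have s2 : G a b z (Ioo (1 + 1 / ((i : ℝ) + 2)) (1 + 1 / ((i : ℝ) + 1))) ≤
          z * G a b z (Ioo (1 / ((i : ℝ) + 2)) (1 / ((i : ℝ) + 1))) := by
        refine stepR fun x hx => ?_
        have p1 : 0 < 1 / ((i : ℝ) + 2) := by positivity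
        exact ⟨by linarith [hx.1], by linarith [hx.1], by linarith [hx.2]⟩
      have s3 : G a b z (Ioo (1 / ((i : ℝ) + 2)) (1 / ((i : ℝ) + 1))) ≤
          z * G a b z (Ioo (-((i : ℝ) + 1) / (i + 2)) (-(i : ℝ) / (i + 1))) := by
        refine stepR fun x hx => ?_
        have p1 : b ≤ 1 / ((i : ℝ) + 2) := by
          rw [hb]
          exact one_div_le_one_div_of_le hi2 (by linarith)
        refine ⟨by linarith [hx.1], ?_, ?_⟩
        · have e : -((i : ℝ) + 1) / (i + 2) = 1 / ((i : ℝ) + 2) - 1 := by field_simp; ring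
          rw [e]
          linarith [hx.1]
        · have e : -(i : ℝ) / (i + 1) = 1 / ((i : ℝ) + 1) - 1 := by field_simp; ring
          rw [e]
          linarith [hx.2]
      calc _ ≤ _ := s1
        _ ≤ z * (z * G a b z (Ioo (1 / ((i : ℝ) + 2)) (1 / ((i : ℝ) + 1)))) :=
            mul_le_mul_of_nonneg_left s2 hz.le
        _ ≤ z * (z * (z * G a b z (Ioo (-((i : ℝ) + 1) / (i + 2)) (-(i : ℝ) / (i + 1))))) :=
            mul_le_mul_of_nonneg_left (mul_le_mul_of_nonneg_left s3 hz.le) hz.le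
        _ ≤ z * (z * (z * (z ^ (3 * i) * A))) :=
            mul_le_mul_of_nonneg_left (mul_le_mul_of_nonneg_left
              (mul_le_mul_of_nonneg_left h0 hz.le) hz.le) hz.le
        _ = z ^ (3 * (i + 1)) * A := by
            rw [show 3 * (i + 1) = 3 * i + 3 by ring, pow_add]; ring
  have i9 : ∀ i : ℕ, i ≤ M → G a b z (Ioo (-((i : ℝ) + 1) / (i + 2)) 0) ≤
      (∑ j ∈ Finset.range (i + 1), z ^ (3 * j)) * A + i * c := by
    intro i
    induction i with
    | zero =>
      intro _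
      rw [hA]
      norm_num
    | succ i ih =>
      intro hi
      have h0 := ih (by omega)
      have h1' := i8 (i + 1) hi
      rw [Finset.sum_range_succ, add_mul]
      have hi1 : (0 : ℝ) < (i : ℝ) + 1 := by positivity
      have e : (-((i + 1 : ℕ) : ℝ) / ((i + 1 : ℕ) + 1)) = -((i : ℝ) + 1) / (i + 2) := by
        push_cast
        congr 1
        ring
      rw [e] at h1'
      have h2 := G_cover hab hz hz1 h
        [Ioo (-(((i + 1 : ℕ) : ℝ) + 1) / ((i + 1 : ℕ) + 2)) (-((i : ℝ) + 1) / (i + 2)),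
          Ioo (-((i : ℝ) + 1) / (i + 2)) 0] [-((i : ℝ) + 1) / (i + 2)]
        (Ioo (-(((i + 1 : ℕ) : ℝ) + 1) / ((i + 1 : ℕ) + 2)) 0) (by
          intro x hx
          rcases lt_trichotomy x (-((i : ℝ) + 1) / (i + 2)) with h1 | h1 | h1
          · exact Or.inl ⟨_, List.mem_cons_self, hx.1, h1⟩
          · exact Or.inr (by simp [h1])
          · exact Or.inl ⟨_, List.mem_cons_of_mem _ List.mem_cons_self, h1, hx.2⟩)
      simp only [List.map_cons, List.map_nil, List.sum_cons, List.sum_nil, List.length_cons,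
        List.length_nil] at h2
      push_cast at h2 h1' ⊢
      linarith
  have i10 : G a b z (Ioo (b - 1) 0) ≤
      (∑ j ∈ Finset.range (M + 1), z ^ (3 * j)) * A + M * c := by
    have := i9 M le_rfl
    have e : -((M : ℝ) + 1) / (M + 2) = b - 1 := by
      rw [hb]; field_simp; ring
    rwa [e] at this
  have i11 := i8 M le_rfl
  have i12 : G a b z (Ioo a 0) ≤ z * G a b z (Ioi 0) := by
    refine stepM fun x hx => ⟨hx.1.le, by linarith [hx.2], hx.2.ne, ?_⟩
    show 0 < -1 / x
    exact div_pos_of_neg_of_neg (by norm_num) hx.2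
  have i13 := G_cover hab hz hz1 h [Ioo 0 1, Ioo 1 2, Ioi 2] [1, 2] (Ioi 0) (by
    intro x hx
    have hx' : 0 < x := hx
    rcases lt_trichotomy x 1 with h1 | h1 | h1
    · exact Or.inl ⟨Ioo 0 1, by simp, hx', h1⟩
    · exact Or.inr (by simp [h1])
    rcases lt_trichotomy x 2 with h2 | h2 | h2
    · exact Or.inl ⟨Ioo 1 2, by simp, h1, h2⟩
    · exact Or.inr (by simp [h2])
    · exact Or.inl ⟨Ioi 2, by simp, h2⟩)
  have i14 := G_cover hab hz hz1 h [Iio a, Ioo a 0, Ioi 0] [a, 0] univ (by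
    intro x _
    rcases lt_trichotomy x a with h1 | h1 | h1
    · exact Or.inl ⟨Iio a, by simp, h1⟩
    · exact Or.inr (by simp [h1])
    rcases lt_trichotomy x 0 with h2 | h2 | h2
    · exact Or.inl ⟨Ioo a 0, by simp, h1, h2⟩
    · exact Or.inr (by simp [h2])
    · exact Or.inl ⟨Ioi 0, by simp, h2⟩)
  simp only [List.map_cons, List.map_nil, List.sum_cons, List.sum_nil, List.length_cons,
    List.length_nil] at i13 i14
  push_cast at i13 i14
  rw [← hcdef] at i13 i14
  have hL0 : 0 ≤ G a b z (Iio a) := G_nonneg hz _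
  have hP0 : 0 ≤ G a b z (Ioo 0 1) := G_nonneg hz _
  have hG20 : 0 ≤ G a b z (Ioi 2) := G_nonneg hz _
  have hN0 : 0 ≤ G a b z (Ioi 0) := G_nonneg hz _
  set Sg := ∑ j ∈ Finset.range (M + 1), z ^ (3 * j) with hSg
  have hSg0 : 0 ≤ Sg := Finset.sum_nonneg fun j _ => by positivity
  have hSg1 : Sg ≤ (M : ℝ) + 1 := by
    calc Sg ≤ ∑ j ∈ Finset.range (M + 1), (1 : ℝ) :=
          Finset.sum_le_sum fun j _ => pow_le_one₀ hz.le hz1.le
      _ = (M : ℝ) + 1 := by simp
  generalize G a b z (Ioo (-((M : ℝ) + 1) / (M + 2)) (-(M : ℝ) / (M + 1))) = IM at *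
  generalize G a b z (Ioo a (a + 1)) = q at *
  generalize G a b z (Iio a) = L at *
  generalize G a b z (Ioo 0 1) = P at *
  generalize G a b z (Ioo 0 b) = p0 at *
  generalize G a b z (Ioo 1 2) = g12 at *
  generalize G a b z (Ioi 2) = g2 at *
  generalize G a b z (Ioi 0) = N at *
  generalize G a b z (Ioo a 0) = R at *
  generalize G a b z (Ioo (b - 1) 0) = B' at *
  generalize G a b z univ = T at *
  clear_value A Sg c
  clear i8 i9
  -- bound for `L`
  have l1 : q ≤ z * (z * (z ^ (3 * M) * A)) :=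
    i7.trans (mul_le_mul_of_nonneg_left (mul_le_mul_of_nonneg_left i11 hz.le) hz.le)
  have l2 : (1 - z) * L ≤ z * (z * (z * (z ^ (3 * M) * A))) + z * c := by
    have k1 := mul_le_mul_of_nonneg_left l1 hz.le
    linarith
  -- bound for `P`
  have l3 : (1 - z) * P ≤ z * (z * (z * (z * (z ^ (3 * M) * A))) + z * c) +
      (1 - z) * (z * (Sg * A + M * c)) + (1 - z) * c := by
    have k1 : (1 - z) * P ≤ (1 - z) * (z * L + z * (Sg * A + M * c) + c) := by
      refine mul_le_mul_of_nonneg_left ?_ hu.le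
      have := mul_le_mul_of_nonneg_left i10 hz.le
      linarith
    have k2 := mul_le_mul_of_nonneg_left l2 hz.le
    linarith
  -- bound for `g2`
  have l4 : (1 - z) * g2 ≤ z * (z * P) + z * c := by
    have k1 := mul_le_mul_of_nonneg_left i3 hz.le
    linarith
  have l5 : (1 - z) * A ≤ z * (z * (z * P) + z * c) := by
    have k1 := mul_le_mul_of_nonneg_left i1 hu.le
    have k2 := mul_le_mul_of_nonneg_left l4 hz.le
    linarith
  have cz : z * c ≤ c := shr hz.le hz1.le le_rfl hc0.le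
  have czz : z * (z * c) ≤ c := shr hz.le hz1.le cz hc0.le
  have czzz : z * (z * (z * c)) ≤ c := shr hz.le hz1.le czz hc0.le
  have cz4 : z * (z * (z * (z * c))) ≤ c := shr hz.le hz1.le czzz hc0.le
  have cz5 : z * (z * (z * (z * (z * c)))) ≤ c := shr hz.le hz1.le cz4 hc0.le
  have uc : (1 - z) * c ≤ c := shr hu.le (by linarith) le_rfl hc0.le
  have hMc : 0 ≤ M * c := by positivity
  refine ⟨?_, ?_⟩
  · -- the main inequality
    have m1 : (1 - z) * ((1 - z) * A) ≤ z * (z * (z * ((1 - z) * P))) + (1 - z) * (z * (z * c)) := by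
      have := mul_le_mul_of_nonneg_left l5 hu.le
      linarith
    have m2 : z * (z * (z * ((1 - z) * P))) ≤ z * (z * (z * (z * (z * (z * (z * (z ^ (3 * M) * A))) +
        z * c) + (1 - z) * (z * (Sg * A + M * c)) + (1 - z) * c))) :=
      mul_le_mul_of_nonneg_left (mul_le_mul_of_nonneg_left
        (mul_le_mul_of_nonneg_left l3 hz.le) hz.le) hz.le
    have m3 : (1 - z) * (z * (z * c)) ≤ c := shr hu.le (by linarith) czz hc0.le
    have m4 : z * (z * (z * ((1 - z) * c))) ≤ c :=
      shr hz.le hz1.le (shr hz.le hz1.le (shr hz.le hz1.le uc hc0.le) hc0.le) hc0.le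
    have m5 : z * (z * (z * ((1 - z) * (z * (M * c))))) ≤ M * c :=
      shr hz.le hz1.le (shr hz.le hz1.le (shr hz.le hz1.le (shr hu.le (by linarith)
        (shr hz.le hz1.le le_rfl hMc) hMc) hMc) hMc) hMc
    have e7 : z ^ (3 * M + 7) = z ^ (3 * M) * z ^ 7 := pow_add _ _ _
    rw [e7]
    linarith
  · -- the whole line
    have hzA : z ^ (3 * M) * A ≤ A := shr (by positivity) (pow_le_one₀ hz.le hz1.le) le_rfl hA0
    have n1 : (1 - z) * L ≤ A + c := by
      have : z * (z * (z * (z ^ (3 * M) * A))) ≤ A :=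
        shr hz.le hz1.le (shr hz.le hz1.le (shr hz.le hz1.le hzA hA0) hA0) hA0
      linarith
    have hSA : Sg * A ≤ (M + 1) * A := mul_le_mul_of_nonneg_right hSg1 hA0
    have hSA0 : 0 ≤ (M + 1) * A := by positivity
    have n2 : (1 - z) * P ≤ (M + 2) * A + (M + 2) * c := by
      have k1 : z * (z * (z * (z * (z ^ (3 * M) * A))) + z * c) ≤ A + c := by
        refine shr hz.le hz1.le ?_ (by positivity)
        have : z * (z * (z * (z ^ (3 * M) * A))) ≤ A :=
          shr hz.le hz1.le (shr hz.le hz1.le (shr hz.le hz1.le hzA hA0) hA0) hA0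
        linarith
      have k2 : (1 - z) * (z * (Sg * A + M * c)) ≤ (M + 1) * A + M * c :=
        shr hu.le (by linarith) (shr hz.le hz1.le (by linarith) (by positivity)) (by positivity)
      linarith
    have n3 : (1 - z) * g2 ≤ P + c := by
      have : z * (z * P) ≤ P := shr hz.le hz1.le (shr hz.le hz1.le le_rfl hP0) hP0
      linarith
    have n4 : N ≤ 2 * P + g2 + 2 * c := by
      have : z * P ≤ P := shr hz.le hz1.le le_rfl hP0
      linarith
    have n5 : T ≤ L + 2 * N + 2 * c := by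
      have : z * N ≤ N := shr hz.le hz1.le le_rfl hN0
      linarith
    have n6 : (1 - z) ^ 2 * T ≤ (1 - z) * ((1 - z) * (L + 4 * P + 2 * g2 + 6 * c)) := by
      have : T ≤ L + 4 * P + 2 * g2 + 6 * c := by linarith
      have := mul_le_mul_of_nonneg_left (mul_le_mul_of_nonneg_left this hu.le) hu.le
      linarith
    have n7 : (1 - z) * ((1 - z) * L) ≤ A + c := shr hu.le (by linarith) n1 (by positivity)
    have hPb : 0 ≤ (M + 2) * A + (M + 2) * c := by positivity
    have n8 : (1 - z) * ((1 - z) * P) ≤ (M + 2) * A + (M + 2) * c :=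
      shr hu.le (by linarith) n2 hPb
    have n9 : (1 - z) * ((1 - z) * g2) ≤ (M + 2) * A + (M + 2) * c + c := by
      have := mul_le_mul_of_nonneg_left n3 hu.le
      linarith
    have n10 : (1 - z) * ((1 - z) * c) ≤ c := shr hu.le (by linarith) uc hc0.le
    linarith

end Pool.Agent.H16E
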