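import Pool.Agent.H16E.Strict2
import Pool.Agent.H16E.Quant

/-!
# The value of the entropy at `(-N, 1/N)`
-/

set_option autoImplicit false

namespace Pool.Agent.H16E

open Filter Topology Set Pool.Agent.R660.CF Pool.Agent.R294.CF

theorem up_implicit (M : ℕ) {κ : ℝ} (hκ : κ ^ 3 = κ ^ 2 + 1) (hκ1 : 1 ≤ κ) {ξ : ℝ}
    (hξ : ξ = Real.exp (-(ent (-((M : ℝ) + 2)) (1 / ((M : ℝ) + 2))))) :
    (1 - ξ) ^ 2 ≤ ξ ^ (3 * M + 7) +
      (1 - ξ) * ξ ^ 4 * ∑ j ∈ Finset.range (M + 1), ξ ^ (3 * j) := by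
  by_contra hcon
  push Not at hcon
  have hab := InP_M M
  have hM : (0 : ℝ) ≤ M := by positivity
  have hlog := ent_gt_M M hκ hκ1
  set H := ent (-((M : ℝ) + 2)) (1 / ((M : ℝ) + 2)) with hH
  have hH0 : 0 < H := lt_of_le_of_lt (Real.log_nonneg hκ1) hlog
  set g : ℝ := Real.exp H with hg
  have hg0 : 0 < g := Real.exp_pos _
  have hξ0 : 0 < ξ := by rw [hξ]; exact Real.exp_pos _
  have hξg : ξ * g = 1 := by
    rw [hξ, hg, ← Real.exp_add]; simp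
  have hξ1 : ξ < 1 := by
    rw [hξ, Real.exp_lt_one_iff]
    linarith
  have hu : 0 < 1 - ξ := by linarith
  have hF : 0 < (1 - ξ) ^ 2 - (ξ ^ (3 * M + 7) +
      (1 - ξ) * ξ ^ 4 * ∑ j ∈ Finset.range (M + 1), ξ ^ (3 * j)) := by
    linarith
  have hcont : Continuous fun z : ℝ => (1 - z) ^ 2 - (z ^ (3 * M + 7) +
      (1 - z) * z ^ 4 * ∑ j ∈ Finset.range (M + 1), z ^ (3 * j)) := by
    fun_prop
  set δ := ((1 - ξ) ^ 2 - (ξ ^ (3 * M + 7) +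
      (1 - ξ) * ξ ^ 4 * ∑ j ∈ Finset.range (M + 1), ξ ^ (3 * j))) / 2 with hδ
  have hδ0 : 0 < δ := by positivity
  have hev : ∀ᶠ z in 𝓝 ξ, δ < (1 - z) ^ 2 - (z ^ (3 * M + 7) +
      (1 - z) * z ^ 4 * ∑ j ∈ Finset.range (M + 1), z ^ (3 * j)) :=
    hcont.continuousAt.eventually (lt_mem_nhds (by rw [hδ]; linarith))
  obtain ⟨ε, hε, hε'⟩ := Metric.eventually_nhds_iff.1 hev
  set z0 := max 0 (ξ - ε) with hz0
  have hz0ξ : z0 < ξ := max_lt hξ0 (by linarith)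
  set c1 := (1 - ξ)⁻¹ with hc1
  have hc10 : 0 < c1 := inv_pos.2 hu
  set A1 := ((M : ℝ) + 3) * c1 / δ with hA1
  have hA10 : 0 ≤ A1 := by positivity
  set C2 := ((6 * M + 13) * A1 + (6 * M + 30) * c1) * c1 ^ 2 + c1 with hC2
  obtain ⟨o1, o2, o3⟩ := orbits_N M
  have hall2 : ∀ z ∈ Ioo z0 ξ, z ^ (3 * (M + 1) + 2) ≤ C2 * (1 - z * g) := by
    intro z hz
    obtain ⟨hz1, hz2⟩ := hz
    have hzp : 0 < z := (le_max_left _ _).trans_lt hz1
    have hzl : z < 1 := by linarith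
    have hzε : ξ - ε < z := (le_max_right _ _).trans_lt hz1
    have hFz := hε' (y := z) (by
        rw [Real.dist_eq, abs_lt]
        constructor <;> linarith)
    have hzg : z * Real.exp (ent (-((M : ℝ) + 2)) (1 / ((M : ℝ) + 2))) < 1 := by
      rw [← hH, ← hg, ← hξg]
      exact mul_lt_mul_of_pos_right hz2 hg0
    have hcz : (1 - z)⁻¹ ≤ c1 := by
      rw [hc1]
      exact inv_anti₀ hu (by linarith)
    obtain ⟨k1, k2⟩ := up_estimates M hzp hzl hzg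
    have hA0 : 0 ≤ G (-((M : ℝ) + 2)) (1 / ((M : ℝ) + 2)) z (Ioo (-1 / 2) 0) := G_nonneg hzp _
    have hT0 : 0 ≤ G (-((M : ℝ) + 2)) (1 / ((M : ℝ) + 2)) z univ := G_nonneg hzp _
    have k6 := G_univ_ge hab hzp hzl hzg (3 * (M + 1) + 2) o1 o2 o3
    rw [← hH, ← hg] at k6 hzg
    generalize G (-((M : ℝ) + 2)) (1 / ((M : ℝ) + 2)) z (Ioo (-1 / 2) 0) = A at *
    generalize G (-((M : ℝ) + 2)) (1 / ((M : ℝ) + 2)) z univ = T at *
    have k3 : A ≤ A1 := by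
      rw [hA1, le_div_iff₀ hδ0]
      have q1 := mul_le_mul_of_nonneg_right hFz.le hA0
      have q2 : ((M : ℝ) + 3) * (1 - z)⁻¹ ≤ (M + 3) * c1 :=
        mul_le_mul_of_nonneg_left hcz (by positivity)
      linarith
    have k4 : T ≤ ((6 * M + 13) * A1 + (6 * M + 30) * c1) * c1 ^ 2 := by
      have q1 : (1 - ξ) ^ 2 * T ≤ (1 - z) ^ 2 * T :=
        mul_le_mul_of_nonneg_right (pow_le_pow_left₀ hu.le (by linarith) 2) hT0
      have q2 : (6 * (M : ℝ) + 13) * A ≤ (6 * M + 13) * A1 :=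
        mul_le_mul_of_nonneg_left k3 (by positivity)
      have q3 : (6 * (M : ℝ) + 30) * (1 - z)⁻¹ ≤ (6 * M + 30) * c1 :=
        mul_le_mul_of_nonneg_left hcz (by positivity)
      have q4 : (1 - ξ) ^ 2 * T ≤ (6 * M + 13) * A1 + (6 * M + 30) * c1 := by linarith
      have q5 : T = (1 - ξ) ^ 2 * T * c1 ^ 2 := by
        rw [hc1]
        field_simp
      rw [q5]
      exact mul_le_mul_of_nonneg_right q4 (by positivity)
    have hpos : 0 < 1 - z * g := by linarith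
    have k7 : z ^ (3 * (M + 1) + 2) * (1 - z * g)⁻¹ ≤ C2 := by
      rw [hC2]
      linarith
    rw [← div_eq_mul_inv, div_le_iff₀ hpos] at k7
    exact k7
  have hclosed2 : IsClosed {z : ℝ | z ^ (3 * (M + 1) + 2) ≤ C2 * (1 - z * g)} :=
    isClosed_le (by fun_prop) (by fun_prop)
  have hmem2 : ξ ∈ {z : ℝ | z ^ (3 * (M + 1) + 2) ≤ C2 * (1 - z * g)} := by
    have h1 : closure (Ioo z0 ξ) ⊆ _ := hclosed2.closure_subset_iff.2 hall2
    rw [closure_Ioo hz0ξ.ne] at h1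
    exact h1 ⟨hz0ξ.le, le_rfl⟩
  have hfin : ξ ^ (3 * (M + 1) + 2) ≤ C2 * (1 - ξ * g) := hmem2
  rw [hξg, sub_self, mul_zero] at hfin
  have : 0 < ξ ^ (3 * (M + 1) + 2) := by positivity
  linarith

/-- The number `l = exp H(-N, 1/N)`, `N = M + 2`, is the solution `l > κ` of
`l^(3N) (l^3 - l^2 - 1) = l + 1`. -/
theorem value_N (M : ℕ) {κ : ℝ} (hκ : κ ^ 3 = κ ^ 2 + 1) (hκ1 : 1 ≤ κ) {l : ℝ}
    (hl : l = Real.exp (ent (-((M : ℝ) + 2)) (1 / ((M : ℝ) + 2)))) :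
    κ < l ∧ l ^ (3 * M + 6) * (l ^ 3 - l ^ 2 - 1) = l + 1 := by
  have hκ0 : 0 < κ := by linarith
  have hκl : κ < l := by
    rw [hl, ← Real.exp_log hκ0]
    exact Real.exp_lt_exp.2 (ent_gt_M M hκ hκ1)
  have hl1 : 1 < l := by linarith
  have hl0 : 0 < l := by linarith
  refine ⟨hκl, ?_⟩
  have hlp : (0 : ℝ) < l ^ (3 * M + 6) := by positivity
  have low := low_implicit M hl hl1
  rw [div_le_iff₀ hlp] at low
  set ζ := 1 / l with hζ
  have hζ0 : 0 < ζ := by positivity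
  have hζ1 : ζ < 1 := by
    rw [hζ, div_lt_one hl0]; exact hl1
  have hup := up_implicit M hκ hκ1 (ξ := ζ) (by rw [hζ, hl, Real.exp_neg, one_div])
  have hgeom : (1 - ζ ^ 3) * ∑ j ∈ Finset.range (M + 1), ζ ^ (3 * j) = 1 - ζ ^ (3 * M) * ζ ^ 3 := by
    have h1 : (∑ j ∈ Finset.range (M + 1), (ζ ^ 3) ^ j) * (ζ ^ 3 - 1) = (ζ ^ 3) ^ (M + 1) - 1 :=
      geom_sum_mul _ _
    have h2 : ∑ j ∈ Finset.range (M + 1), ζ ^ (3 * j) = ∑ j ∈ Finset.range (M + 1), (ζ ^ 3) ^ j :=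
      Finset.sum_congr rfl fun j _ => by rw [pow_mul]
    rw [h2]
    have h3 : (ζ ^ 3) ^ (M + 1) = ζ ^ (3 * M) * ζ ^ 3 := by
      rw [pow_succ, ← pow_mul]
    rw [h3] at h1
    linarith
  have h3 : 0 < 1 - ζ ^ 3 := by
    have : ζ ^ 3 < 1 := pow_lt_one₀ hζ0.le hζ1 (by norm_num)
    linarith
  have hu : 0 < 1 - ζ := by linarith
  have hmul := mul_le_mul_of_nonneg_left hup h3.le
  have e1 : (1 - ζ ^ 3) * (ζ ^ (3 * M + 7) +
      (1 - ζ) * ζ ^ 4 * ∑ j ∈ Finset.range (M + 1), ζ ^ (3 * j)) =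
      (1 - ζ ^ 3) * (ζ ^ (3 * M) * ζ ^ 7) + (1 - ζ) * ζ ^ 4 * (1 - ζ ^ (3 * M) * ζ ^ 3) := by
    rw [← hgeom, pow_add]; ring
  rw [e1] at hmul
  have hdiv : (1 - ζ) * (1 - ζ - ζ ^ 3) ≤ (1 - ζ) * (ζ ^ (3 * M) * ζ ^ 8 * (1 + ζ)) := by
    linarith
  have hfinal : 1 - ζ - ζ ^ 3 ≤ ζ ^ (3 * M) * ζ ^ 8 * (1 + ζ) := le_of_mul_le_mul_left hdiv hu
  have e2 : l ^ 3 * (ζ ^ (3 * M) * ζ ^ 8 * (1 + ζ)) = (l + 1) / l ^ (3 * M + 6) := by
    have e4 : ζ ^ (3 * M) = 1 / l ^ (3 * M) := by rw [hζ, one_div_pow]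
    rw [e4, hζ, pow_add]
    field_simp
  have e3 : l ^ 3 * (1 - ζ - ζ ^ 3) = l ^ 3 - l ^ 2 - 1 := by
    rw [hζ]
    field_simp
  have hm2 := mul_le_mul_of_nonneg_left hfinal (show 0 ≤ l ^ 3 by positivity)
  rw [e2, e3, le_div_iff₀ hlp] at hm2
  linarith

/-- The solution is unique. -/
theorem value_unique {κ x y : ℝ} (hκ : κ ^ 3 = κ ^ 2 + 1) (hκ1 : 1 ≤ κ) (n : ℕ) (hn : 1 ≤ n)
    (hx : κ < x) (hy : κ < y) (ex : x ^ n * (x ^ 3 - x ^ 2 - 1) = x + 1)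
    (ey : y ^ n * (y ^ 3 - y ^ 2 - 1) = y + 1) : x = y := by
  have key : ∀ x y : ℝ, κ < x → x < y → x ^ n * (x ^ 3 - x ^ 2 - 1) = x + 1 →
      y ^ n * (y ^ 3 - y ^ 2 - 1) = y + 1 → False := by
    intro x y hx hxy ex ey
    have hx1 : 1 < x := by linarith
    have hpx : 0 < x ^ 3 - x ^ 2 - 1 := by
      have h1 : x ^ 3 - x ^ 2 - 1 = (x - κ) * ((x ^ 2 - x) + (κ ^ 2 - κ) + x * κ) := by
        linear_combination hκ
      rw [h1]
      have h2 : 0 < x ^ 2 - x := by nlinarith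
      have h3 : 0 ≤ κ ^ 2 - κ := by nlinarith
      have h4 : 0 < x * κ := mul_pos (by linarith) (by linarith)
      exact mul_pos (by linarith) (by linarith)
    have hpy : x ^ 3 - x ^ 2 - 1 ≤ y ^ 3 - y ^ 2 - 1 := by
      have h1 : y ^ 3 - y ^ 2 - (x ^ 3 - x ^ 2) = (y - x) * (y * (y - 1) + x * (x - 1) + x * y) := by
        ring
      have h2 : 0 ≤ (y - x) * (y * (y - 1) + x * (x - 1) + x * y) := by
        have k1 : 0 ≤ y * (y - 1) := mul_nonneg (by linarith) (by linarith)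
        have k2 : 0 ≤ x * (x - 1) := mul_nonneg (by linarith) (by linarith)
        have k3 : 0 ≤ x * y := mul_nonneg (by linarith) (by linarith)
        exact mul_nonneg (by linarith) (by linarith)
      linarith
    obtain ⟨m, rfl⟩ : ∃ m, n = m + 1 := ⟨n - 1, by omega⟩
    have hm : x ^ m ≤ y ^ m := pow_le_pow_left₀ (by linarith) hxy.le m
    have hm1 : 1 ≤ x ^ m := one_le_pow₀ hx1.le
    -- `y (x + 1) ≤ x (y + 1)`, hence `y ≤ x`
    have h5 : y * (x ^ m * (x ^ 3 - x ^ 2 - 1)) ≤ y * (y ^ m * (y ^ 3 - y ^ 2 - 1)) := by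
      refine mul_le_mul_of_nonneg_left ?_ (by linarith)
      exact mul_le_mul hm hpy hpx.le (pow_nonneg (by linarith) m)
    have h6 : x * (y * (x ^ m * (x ^ 3 - x ^ 2 - 1))) = y * (x + 1) := by
      rw [← ex, pow_succ]; ring
    have h7 : x * (y * (y ^ m * (y ^ 3 - y ^ 2 - 1))) = x * (y + 1) := by
      rw [← ey, pow_succ]; ring
    have h8 := mul_le_mul_of_nonneg_left h5 (show 0 ≤ x by linarith)
    rw [h6, h7] at h8
    linarith
  rcases lt_trichotomy x y with h | h | h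
  · exact (key x y hx h ex ey).elim
  · exact h
  · exact (key y x hy h ey ex).elim

end Pool.Agent.H16E
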